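import Pool.Agent.Lib.SmH.I.Core.Spec
import Pool.Agent.Lib.SmJ.I.CodeL

/-!
# HEIGHTS, block I: uniform bounds

`exists_bd`: the number of points fixed by `D v` is bounded for all twists and all bad places.
`card_locSet_le`, `card_RS_le`: uniform bounds for the number of local points and of rigid Selmer
elements of level `j`.
-/

set_option autoImplicit false

open Finset Polynomial

namespace Pool.Agent.SmH

open Pool.Agent.SmJ Pool.Agent.SmJ.IT

section gen

variable {G V V1 Pl : Type*} [Group G] [AddCommGroup V] [DistribMulAction G V]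
  [AddCommGroup V1] [Module (ZMod 2) V1] {S : Sys G V V1 Pl}

/-- A uniform bound for the number of points fixed by the decomposition groups of the bad places. -/
theorem exists_bd (hS : S.Ok) : ∃ B : ℕ, 0 < B ∧ ∀ chi : G → ZMod 2, S.HomG chi →
    ∀ v, v ∉ S.good → Nat.card (invD S chi v) ≤ B := by
  classical
  let c : Pl → ZMod 2 × ZMod 2 → ℕ := fun v a =>
    if h : ∃ chi : G → ZMod 2, S.HomG chi ∧ chi (S.sg v) = a.1 ∧ chi (S.phi v) = a.2 then
      Nat.card (invD S h.choose v) else 0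
  refine ⟨∑ v ∈ hS.good_fin.toFinset, ∑ a, c v a + 1, by omega, fun chi hchi v hv => ?_⟩
  have hc : Nat.card (invD S chi v) = c v (chi (S.sg v), chi (S.phi v)) := by
    have h : ∃ chi' : G → ZMod 2, S.HomG chi' ∧ chi' (S.sg v) = (chi (S.sg v), chi (S.phi v)).1 ∧
        chi' (S.phi v) = (chi (S.sg v), chi (S.phi v)).2 := ⟨chi, hchi, rfl, rfl⟩
    have e : c v (chi (S.sg v), chi (S.phi v)) = Nat.card (invD S h.choose v) := dif_pos h
    obtain ⟨g1, g2, g3⟩ := h.choose_spec
    rw [e, invD_congr]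
    intro s hs
    have := homG_D hS (homG_sub hS hchi g1) v (by rw [g2, sub_self]) (by rw [g3, sub_self]) s hs
    exact sub_eq_zero.1 this
  rw [hc]
  have h1 : c v (chi (S.sg v), chi (S.phi v)) ≤ ∑ a, c v a :=
    single_le_sum (f := fun a => c v a) (fun _ _ => Nat.zero_le _) (mem_univ _)
  have h2 : ∑ a, c v a ≤ ∑ v ∈ hS.good_fin.toFinset, ∑ a, c v a :=
    single_le_sum (f := fun v => ∑ a, c v a) (fun _ _ => Nat.zero_le _) (by
      rw [Set.Finite.mem_toFinset]
      exact hv)
  omega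

/-- The number of the bad places. -/
noncomputable def nBad (hS : S.Ok) : ℕ := hS.good_fin.toFinset.card

/-- A uniform bound for the products over the bad places. -/
theorem prod_bd (hS : S.Ok) {B : ℕ}
    (hB : ∀ chi : G → ZMod 2, S.HomG chi → ∀ v, v ∉ S.good → Nat.card (invD S chi v) ≤ B)
    {chi : G → ZMod 2} (hchi : S.HomG chi) (k : ℕ) :
    ∏ v ∈ hS.good_fin.toFinset, (Nat.card V1 ^ k * Nat.card (invD S chi v)) ≤
      (Nat.card V1 ^ k * B) ^ nBad hS := by
  rw [nBad, ← prod_const]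
  refine prod_le_prod' fun v hv => Nat.mul_le_mul le_rfl (hB chi hchi v ?_)
  rw [Set.Finite.mem_toFinset] at hv
  exact hv

/-- The number of rigid Selmer elements of level `j`. -/
theorem card_isPr_le (hS : S.Ok) {B : ℕ}
    (hB : ∀ chi : G → ZMod 2, S.HomG chi → ∀ v, v ∉ S.good → Nat.card (invD S chi v) ≤ B)
    {chi : G → ZMod 2} (hchi : S.HomG chi) (j : ℕ)
    (hfin : Finite {Psi : G → V // S.IsSel chi j Psi}) :
    Finite {y : (G → V) × (Pl → V) // IsPr S chi j y} ∧
      Nat.card {y : (G → V) × (Pl → V) // IsPr S chi j y} ≤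
        Nat.card {Psi : G → V // S.IsSel chi j Psi} * (Nat.card V1 ^ j * B) ^ nBad hS := by
  obtain ⟨h1, h2⟩ := card_locSet hS hchi j
  have : Finite (locSet S chi j) := h1
  let f : {y : (G → V) × (Pl → V) // IsPr S chi j y} →
      {Psi : G → V // S.IsSel chi j Psi} × locSet S chi j :=
    fun y => (⟨y.1.1, y.2.sel⟩, ⟨y.1.2, mem_locSet le_rfl y.2⟩)
  have hf : Function.Injective f := by
    intro y y' h
    have e1 : y.1.1 = y'.1.1 := congrArg (fun z => z.1.1) h
    have e2 : y.1.2 = y'.1.2 := congrArg (fun z => z.2.1) h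
    exact Subtype.ext (Prod.ext e1 e2)
  refine ⟨Finite.of_injective f hf, ?_⟩
  have h3 := Nat.card_le_card_of_injective f hf
  rw [Nat.card_prod] at h3
  refine h3.trans (Nat.mul_le_mul le_rfl ?_)
  rw [Nat.card_coe_set_eq]
  exact h2.trans (prod_bd hS hB hchi j)

end gen

section vec

variable {k : Type} [Field k] {G V V1 Pl : Type} [Group G] [AddCommGroup V] [DistribMulAction G V]
  [AddCommGroup V1] [Module (ZMod 2) V1]
variable {S : Sys G V V1 Pl} {ch : k[X] → G → ZMod 2} {d : TwData k V1} {pl : k[X] → Pl}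
  {J : Type} [Fintype J] {p : J → k[X]}

/-- The number of rigid Selmer elements of level `j` of the twist by a vector of primes with
`#SelpJ ≤ N`. -/
theorem card_RS_le (hS : S.Ok) (h : ChOk S ch d pl) (hp : PVec d p) [Nonempty J] {B : ℕ}
    (hB : ∀ chi : G → ZMod 2, S.HomG chi → ∀ v, v ∉ S.good → Nat.card (invD S chi v) ≤ B)
    {N : ℕ} (hN : Nat.card (SelpJ d p) ≤ N) (j : ℕ) :
    Finite {y : (G → V) × (Pl → V) // IsPr S (chiJ ch p) j y} ∧
      Nat.card {y : (G → V) × (Pl → V) // IsPr S (chiJ ch p) j y} ≤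
        N ^ j * (Nat.card V1 ^ j * B) ^ nBad hS := by
  have := hS.fin1
  have hc := Code.codeOk hS h hp
  obtain ⟨h1, h2⟩ := card_isPr_le hS hB hc.chi j (finite_isSel hS hc j)
  refine ⟨h1, h2.trans (Nat.mul_le_mul ((card_isSel_le hS hc j).trans ?_) le_rfl)⟩
  refine Nat.pow_le_pow_left (le_trans ?_ hN) j
  have hfin : Finite (SelpJ d p) := inferInstance
  exact Nat.card_mono (Set.toFinite _) (Code.FJ_sub_SelpJ hS h hp)

end vec

end Pool.Agent.SmH
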