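import Pool.Agent.Lib.SmH.I.GenE
import Pool.Agent.Lib.SmH.I.BdD

/-!
# HEIGHTS, block I_gen: the number of classes of `TypEqH` is bounded (`FewTyp`)

The rigid elements of level `j` of a vector `p'` with the symbols of `p` are numbered by a fixed finite
set; the label of `p'` is the structure transported to this set.
-/

set_option autoImplicit false

open Polynomial Finset

namespace Pool.Agent.SmH

open Pool.Agent.Sm (leg Irr)

open Pool.Agent.SmJ

section abs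

/-- An injection of a finite set to a fixed finite set. -/
private theorem Few17_inj {Y : Type} (s : Set Y) (N : ℕ) (hf : s.Finite) (hN : Nat.card s ≤ N) :
    ∃ e : Y → Fin (N + 1), Set.InjOn e s := by
  classical
  have := hf.to_subtype
  let g := Finite.equivFin s
  refine ⟨fun y => if h : y ∈ s then ⟨(g ⟨y, h⟩).1, by
    have := (g ⟨y, h⟩).2
    omega⟩ else 0, fun y hy y' hy' hyy => ?_⟩
  simp only [dif_pos hy, dif_pos hy', Fin.mk.injEq] at hyy
  have h1 := g.injective (Fin.ext hyy)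
  exact congrArg Subtype.val h1

variable {G V V1 Pl : Type*} [Group G] [AddCommGroup V] [DistribMulAction G V]
  [AddCommGroup V1] [Module (ZMod 2) V1] {S : Sys G V V1 Pl}

/-- `V[2^n]` is finite. -/
theorem fin_V (hS : S.Ok) (n : ℕ) : {z : V | (2 : ℕ) ^ n • z = 0}.Finite := by
  have := hS.fin1
  have h2 : {z : V | (2 : ℕ) • z = 0}.Finite := by
    refine (Set.finite_range S.iota).subset fun z hz => ?_
    obtain ⟨w, hw⟩ := hS.iota_range z hz
    exact ⟨w, hw⟩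
  induction n with
  | zero =>
    refine (Set.finite_singleton (0 : V)).subset fun z hz => ?_
    have h1 : (2 : ℕ) ^ 0 • z = 0 := hz
    rwa [pow_zero, one_smul] at h1
  | succ n ih =>
    refine Set.Finite.of_finite_fibers (fun z => (2 : ℕ) • z) (ih.subset ?_) ?_
    · rintro _ ⟨z, hz, rfl⟩
      change (2 : ℕ) ^ n • ((2 : ℕ) • z) = 0
      rw [smul_smul, ← pow_succ]
      exact hz
    · rintro _ ⟨z0, -, rfl⟩
      refine (h2.image (fun z => z + z0)).subset ?_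
      rintro z ⟨-, hz⟩
      refine ⟨z - z0, ?_, sub_add_cancel _ _⟩
      change (2 : ℕ) • (z - z0) = 0
      rw [smul_sub, sub_eq_zero]
      exact hz

end abs

variable {k : Type} [Field k] {G V V1 Pl M : Type} [Group G] [AddCommGroup V]
  [DistribMulAction G V] [AddCommGroup V1] [Module (ZMod 2) V1] [AddCommGroup M]
  [DistribMulAction G M]
variable {S : Sys G V V1 Pl} {H : HData V M Pl} {ch : k[X] → G → ZMod 2} {d : TwData k V1}
  {pl : k[X] → Pl}

/-- The labels. -/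
private abbrev Few17_Lab (A B N s : ℕ) (VV : Type) (MM : Type) : Type :=
  Set (Fin A) × Set (Fin A × Fin A × Fin A) × Set (Fin B × Fin A) × Set (VV × Fin A) ×
    Set (Fin N × Fin A) × Set (Fin B × Fin s × Fin A) × Set (Fin s × Fin A) × Set (MM × Fin A)

/-- The label of the vector `p'`. -/
private def Few17_lab {J : Type} [Fintype J] (S : Sys G V V1 Pl) (H : HData V M Pl)
    (ch : k[X] → G → ZMod 2) (d : TwData k V1) (p p' : J → k[X]) (j jp : ℕ) {A N s : ℕ} {e0 : ℕ}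
    (e : (G → V) × (Pl → V) → Fin A) (ep : (G → V) × (Pl → V) → Fin N)
    (sg : CodeJ d J → Fin s) :
    Few17_Lab A (j + 1) N s {z : V // (2 : ℕ) ^ (j + 1) • z = 0} {m : M // (2 : ℕ) ^ e0 • m = 0} :=
  ({u | ∃ y, IsPr S (chiJ ch p') j y ∧ u = e y},
   {u | ∃ a b, IsPr S (chiJ ch p') j a ∧ IsPr S (chiJ ch p') j b ∧ u = (e a, e b, e (a + b))},
   {u | ∃ y, IsPr S (chiJ ch p') u.1.1 y ∧ u.2 = e y},
   {u | u.2 = e (tor S (chiJ ch p') u.1.1)},
   {u | ∃ w : Pl → V, IsLoc S (chiJ ch p') w ∧ u = (ep (0, w), e (0, w))},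
   {u | ∃ y a, a ∈ SelpJ d p ∧ AbvH S ch d p' u.1.1 a y ∧ u.2 = (sg a, e y)},
   {u | ∃ y b, IsPr S (chiJ ch p') jp y ∧ b ∈ SelpJ d p ∧
      CTr S (chiJ ch p') y (homJ ch d p' b) = 0 ∧ u = (sg b, e y)},
   {u | ∃ y, IsPr S (chiJ ch p') j y ∧ q S H (chiJ ch p') j y = u.1.1 ∧ u.2 = e y})

/-- `FewTyp`: the number of classes is bounded. -/
theorem fewTyp [Finite k] (hS : S.Ok) (hH : HOk S H) (hc : ChOk S ch d pl) {j jp : ℕ}
    (hjp : jp ≤ j) : FewTyp S H ch d j jp := by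
  classical
  intro R
  obtain ⟨B, hB0, hB⟩ := exists_bd hS
  obtain ⟨t0, ht0⟩ := exists_t0 hS
  set Nb : ℕ := (2 ^ R) ^ j * (Nat.card V1 ^ j * B) ^ nBad hS with hNb
  set e0 : ℕ := 2 * (j + t0) with he0
  have hfV : Finite {z : V // (2 : ℕ) ^ (j + 1) • z = 0} := (fin_V hS (j + 1)).to_subtype
  have hfM : Finite {m : M // (2 : ℕ) ^ e0 • m = 0} := (fin_tors hH e0).to_subtype
  let Lab : Type := Few17_Lab (Nb + 1) (j + 1) (Nb + 1) (2 ^ R + 1)
    {z : V // (2 : ℕ) ^ (j + 1) • z = 0} {m : M // (2 : ℕ) ^ e0 • m = 0}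
  have hfin : Finite Lab := inferInstance
  refine ⟨Nat.card Lab, fun J _ p hp hR => ?_⟩
  rcases isEmpty_or_nonempty J with hJ | hJ
  · have hpos : 0 < Nat.card Lab := Nat.card_pos
    refine ⟨fun _ => ⟨0, hpos⟩, fun p' p'' _ _ _ _ _ => ?_⟩
    rw [Subsingleton.elim p'' p']
    exact typEqH_refl S H ch d j jp p'
  -- finiteness for all the vectors with the symbols of `p`
  have hRS : ∀ p', PVec d p' → SymEq d p p' →
      {y : (G → V) × (Pl → V) | IsPr S (chiJ ch p') j y}.Finite ∧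
      Nat.card {y : (G → V) × (Pl → V) | IsPr S (chiJ ch p') j y} ≤ Nb := by
    intro p' hp' hs
    have h1 : Nat.card (SelpJ d p') ≤ 2 ^ R := by
      rw [← selpJ_congr hc.two hp hp' hs]
      exact hR
    obtain ⟨h2, h3⟩ := card_RS_le hS hc hp' hB h1 j
    exact ⟨Set.finite_coe_iff.1 h2, h3⟩
  have he : ∀ p' : J → k[X], ∃ e : (G → V) × (Pl → V) → Fin (Nb + 1), PVec d p' → SymEq d p p' →
      Set.InjOn e {y : (G → V) × (Pl → V) | IsPr S (chiJ ch p') j y} := by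
    intro p'
    by_cases h1 : PVec d p' ∧ SymEq d p p'
    · obtain ⟨h2, h3⟩ := hRS p' h1.1 h1.2
      obtain ⟨e, h4⟩ := Few17_inj _ Nb h2 h3
      exact ⟨e, fun _ _ => h4⟩
    · exact ⟨fun _ => 0, fun h2 h3 => absurd ⟨h2, h3⟩ h1⟩
  choose e he using he
  have := hS.fin1
  obtain ⟨sg, hsg⟩ := Few17_inj (SelpJ d p) (2 ^ R) (Set.toFinite _) hR
  let lab : (J → k[X]) → Lab := fun p' =>
    Few17_lab S H ch d p p' j jp (e0 := e0) (e p') (e p) sg
  refine ⟨fun p' => Finite.equivFin Lab (lab p'), fun p' p'' hp' hp'' hs hs' hlab => ?_⟩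
  have hL : lab p' = lab p'' := (Finite.equivFin Lab).injective hlab
  have hinj := he p' hp' hs
  have hinj' := he p'' hp'' hs'
  have hinjp := he p hp (symEq_refl d p)
  -- the components of the label
  have L0 : ∀ u, (∃ y, IsPr S (chiJ ch p') j y ∧ u = e p' y) ↔
      ∃ y, IsPr S (chiJ ch p'') j y ∧ u = e p'' y :=
    fun u => Set.ext_iff.mp (congrArg (fun x : Lab => x.1) hL) u
  have L1 : ∀ u, (∃ a b, IsPr S (chiJ ch p') j a ∧ IsPr S (chiJ ch p') j b ∧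
        u = (e p' a, e p' b, e p' (a + b))) ↔
      ∃ a b, IsPr S (chiJ ch p'') j a ∧ IsPr S (chiJ ch p'') j b ∧
        u = (e p'' a, e p'' b, e p'' (a + b)) :=
    fun u => Set.ext_iff.mp (congrArg (fun x : Lab => x.2.1) hL) u
  have L2 : ∀ (i : Fin (j + 1)) u, (∃ y, IsPr S (chiJ ch p') i.1 y ∧ u = e p' y) ↔
      ∃ y, IsPr S (chiJ ch p'') i.1 y ∧ u = e p'' y :=
    fun i u => Set.ext_iff.mp (congrArg (fun x : Lab => x.2.2.1) hL) (i, u)
  have L3 : ∀ (z : {z : V // (2 : ℕ) ^ (j + 1) • z = 0}) u,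
      u = e p' (tor S (chiJ ch p') z.1) ↔ u = e p'' (tor S (chiJ ch p'') z.1) :=
    fun z u => Set.ext_iff.mp (congrArg (fun x : Lab => x.2.2.2.1) hL) (z, u)
  have L4 : ∀ u, (∃ w : Pl → V, IsLoc S (chiJ ch p') w ∧ u = (e p (0, w), e p' (0, w))) ↔
      ∃ w : Pl → V, IsLoc S (chiJ ch p'') w ∧ u = (e p (0, w), e p'' (0, w)) :=
    fun u => Set.ext_iff.mp (congrArg (fun x : Lab => x.2.2.2.2.1) hL) u
  have L5 : ∀ (i : Fin (j + 1)) u, (∃ y a, a ∈ SelpJ d p ∧ AbvH S ch d p' i.1 a y ∧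
        u = (sg a, e p' y)) ↔
      ∃ y a, a ∈ SelpJ d p ∧ AbvH S ch d p'' i.1 a y ∧ u = (sg a, e p'' y) :=
    fun i u => Set.ext_iff.mp (congrArg (fun x : Lab => x.2.2.2.2.2.1) hL) (i, u)
  have L6 : ∀ u, (∃ y b, IsPr S (chiJ ch p') jp y ∧ b ∈ SelpJ d p ∧
        CTr S (chiJ ch p') y (homJ ch d p' b) = 0 ∧ u = (sg b, e p' y)) ↔
      ∃ y b, IsPr S (chiJ ch p'') jp y ∧ b ∈ SelpJ d p ∧
        CTr S (chiJ ch p'') y (homJ ch d p'' b) = 0 ∧ u = (sg b, e p'' y) :=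
    fun u => Set.ext_iff.mp (congrArg (fun x : Lab => x.2.2.2.2.2.2.1) hL) u
  have L7 : ∀ (m : {m : M // (2 : ℕ) ^ e0 • m = 0}) u,
      (∃ y, IsPr S (chiJ ch p') j y ∧ q S H (chiJ ch p') j y = m.1 ∧ u = e p' y) ↔
      ∃ y, IsPr S (chiJ ch p'') j y ∧ q S H (chiJ ch p'') j y = m.1 ∧ u = e p'' y :=
    fun m u => Set.ext_iff.mp (congrArg (fun x : Lab => x.2.2.2.2.2.2.2) hL) (m, u)
  have hco' : CodeOk S ch d p' := Code.codeOk hS hc hp'
  have hco'' : CodeOk S ch d p'' := Code.codeOk hS hc hp''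
  have hss : SymEq d p' p'' := symEq_trans (symEq_symm hs) hs'
  refine ⟨hss, fun y y' => IsPr S (chiJ ch p') j y ∧ IsPr S (chiJ ch p'') j y' ∧
    e p' y = e p'' y', ?_, fun y hy => ?_, fun y hy => ?_, ?_, fun z hz => ?_,
    fun y hy h0 => ?_, ?_, ?_, ?_⟩
  · rintro y y' ⟨hy, hy', hyy⟩ i hi
    have h1 := L2 ⟨i, by omega⟩ (e p' y)
    constructor
    · intro h2
      obtain ⟨u, hu, hu2⟩ := h1.1 ⟨y, h2, rfl⟩
      rw [hyy] at hu2
      rw [hinj' hy' (hu.mono hi) hu2]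
      exact hu
    · intro h2
      obtain ⟨u, hu, hu2⟩ := h1.2 ⟨y', h2, hyy⟩
      rw [hinj hy (hu.mono hi) hu2]
      exact hu
  · obtain ⟨u, hu, hu2⟩ := (L0 (e p' y)).1 ⟨y, hy, rfl⟩
    exact ⟨u, hy, hu, hu2⟩
  · obtain ⟨u, hu, hu2⟩ := (L0 (e p'' y)).2 ⟨y, hy, rfl⟩
    exact ⟨u, hu, hy, hu2.symm⟩
  · rintro y1 y1' y2 y2' ⟨h1, h1', e1⟩ ⟨h2, h2', e2⟩
    obtain ⟨a, b, ha, hb, hab⟩ := (L1 (e p' y1, e p' y2, e p' (y1 + y2))).1
      ⟨y1, y2, h1, h2, rfl⟩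
    simp only [Prod.mk.injEq] at hab
    obtain ⟨e3, e4, e5⟩ := hab
    have e6 : y1' = a := hinj' h1' ha (e1.symm.trans e3)
    have e7 : y2' = b := hinj' h2' hb (e2.symm.trans e4)
    refine ⟨h1.add hS h2, h1'.add hS h2', ?_⟩
    rw [e5, e6, e7]
  · exact ⟨isPr_tor hS hco'.chi hz, isPr_tor hS hco''.chi hz, (L3 ⟨z, hz⟩ _).1 rfl⟩
  · have hw : IsLoc S (chiJ ch p') y.2 := by
      refine ⟨hy.off, fun v hv s hs' => ?_⟩
      rw [← hy.loc v hv s hs', h0, Pi.zero_apply]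
    have hy0 : y = (0, y.2) := Prod.ext h0 rfl
    have hpr : ∀ q : J → k[X], IsLoc S (chiJ ch q) y.2 →
        IsPr S (chiJ ch q) j ((0 : G → V), y.2) := fun q hq =>
      ⟨Sys.IsSel.zero hS _ _, fun v hv s hs' => (hq.2 v hv s hs').symm, hq.1⟩
    have hwp := (isLoc_iff hS hc hp hp' hs y.2).2 hw
    have hw'' := (isLoc_iff hS hc hp' hp'' hss y.2).1 hw
    obtain ⟨w, hw1, hw2⟩ := (L4 (e p (0, y.2), e p' (0, y.2))).1 ⟨y.2, hw, rfl⟩
    simp only [Prod.mk.injEq] at hw2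
    obtain ⟨e1, e2⟩ := hw2
    have hwp' := (isLoc_iff hS hc hp hp'' hs' w).2 hw1
    have h3 : IsPr S (chiJ ch p) j ((0 : G → V), w) :=
      ⟨Sys.IsSel.zero hS _ _, fun v hv s hs' => (hwp'.2 v hv s hs').symm, hwp'.1⟩
    have e3 := hinjp (hpr p hwp) h3 e1
    rw [hy0]
    refine ⟨hpr p' hw, hpr p'' hw'', ?_⟩
    change e p' (0, y.2) = e p'' (0, y.2)
    rw [e2, ← e3]
  · rintro y y' ⟨hy, hy', hyy⟩ i hi hij a
    have hsel : ∀ q : J → k[X], PVec d q → SymEq d p q → ∀ u, AbvH S ch d q i a u →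
        a ∈ SelpJ d p := by
      intro q hq hsq u hu
      have hcq : CodeOk S ch d q := Code.codeOk hS hc hq
      rw [selpJ_congr hc.two hp hq hsq]
      apply Code.FJ_sub_SelpJ hS hc hq
      obtain ⟨b, rfl⟩ : ∃ b, i = b + 1 := ⟨i - 1, by omega⟩
      have h1 := (hu.1.nsmul hS (2 ^ b)).sel
      have h2 : ((2 ^ b : ℕ) • u).1 = fun s => S.iota (homJ ch d q a s) := by
        funext s
        have := hu.2 s
        rw [Nat.add_sub_cancel] at this
        exact this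
      rw [h2] at h1
      exact Sys.isSel1_of hS (h1.of_lev fun s => by rw [pow_one]; exact Sys.two_iota S _)
    have h1 := L5 ⟨i, by omega⟩ (sg a, e p' y)
    constructor
    · intro h2
      have ha := hsel p' hp' hs y h2
      obtain ⟨u, b, hb, hu, hu2⟩ := h1.1 ⟨y, a, ha, h2, rfl⟩
      simp only [Prod.mk.injEq] at hu2
      have e1 := hsg ha hb hu2.1
      have e2 := hinj' hy' (hu.1.mono hij) (hyy.symm.trans hu2.2)
      rw [e1, e2]
      exact hu
    · intro h2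
      have ha := hsel p'' hp'' hs' y' h2
      obtain ⟨u, b, hb, hu, hu2⟩ := h1.2 ⟨y', a, ha, h2, by rw [hyy]⟩
      simp only [Prod.mk.injEq] at hu2
      have e1 := hsg ha hb hu2.1
      have e2 := hinj hy (hu.1.mono hij) hu2.2
      rw [e1, e2]
      exact hu
  · rintro y y' ⟨hy, hy', hyy⟩ hyp b hb
    rw [← selpJ_congr hc.two hp hp' hs] at hb
    have hlev : IsPr S (chiJ ch p'') jp y' := by
      obtain ⟨u, hu, hu2⟩ := (L2 ⟨jp, by omega⟩ (e p' y)).1 ⟨y, hyp, rfl⟩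
      rw [hyy] at hu2
      rw [hinj' hy' (hu.mono hjp) hu2]
      exact hu
    have h1 := L6 (sg b, e p' y)
    have h2 : CTr S (chiJ ch p'') y' (homJ ch d p'' b) = 0 ↔
        CTr S (chiJ ch p') y (homJ ch d p' b) = 0 := by
      constructor
      · intro h2
        obtain ⟨u, c, hu, hc', h3, hu2⟩ := h1.2 ⟨y', b, hlev, hb, h2, by rw [hyy]⟩
        simp only [Prod.mk.injEq] at hu2
        rw [hsg hb hc' hu2.1, hinj hy (hu.mono hjp) hu2.2]
        exact h3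
      · intro h2
        obtain ⟨u, c, hu, hc', h3, hu2⟩ := h1.1 ⟨y, b, hyp, hb, h2, rfl⟩
        simp only [Prod.mk.injEq] at hu2
        rw [hsg hb hc' hu2.1, hinj' hy' (hu.mono hjp) (hyy.symm.trans hu2.2)]
        exact h3
    revert h2
    generalize CTr S (chiJ ch p'') y' (homJ ch d p'' b) = α
    generalize CTr S (chiJ ch p') y (homJ ch d p' b) = β
    revert α β
    decide
  · rintro y y' ⟨hy, hy', hyy⟩ -
    have hval : (2 : ℕ) ^ e0 • q S H (chiJ ch p') j y = 0 := q_values hS hH ht0 hco'.chi hy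
    obtain ⟨u, hu, h3, hu2⟩ := (L7 ⟨q S H (chiJ ch p') j y, hval⟩ (e p' y)).1 ⟨y, hy, rfl, rfl⟩
    rw [hinj' hy' hu (hyy.symm.trans hu2)]
    exact h3

end Pool.Agent.SmH
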