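import Pool.Agent.Lib.SmH.I.GenM

/-!
# HEIGHTS, block I_gen: `NAH` and `NTH` on the classes of `TypEqH` over the grid

`genA`: theorem A's generation part (`GenA` of `ThmA`). `genT`: the same for theorem T. `nth_zero`.
-/

set_option autoImplicit false

open Polynomial Finset

namespace Pool.Agent.SmH

open Pool.Agent.Sm (leg Irr Dir repl repl_dir repl_off N0 Tower Adapted)

open Pool.Agent.SmJ

variable {k : Type} [Field k] {G V V1 Pl M : Type} [Group G] [AddCommGroup V]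
  [DistribMulAction G V] [AddCommGroup V1] [Module (ZMod 2) V1] [AddCommGroup M]
  [DistribMulAction G M]
variable {S : Sys G V V1 Pl} {H : HData V M Pl} {ch : k[X] → G → ZMod 2} {d : TwData k V1}
  {pl : k[X] → Pl} {J : Type} [Fintype J] {p : J → k[X]} {m : ℕ} {dir : Dir m ↪ J}

variable [Finite k] {n : ℕ} {cc : Fin (n + 1) → CodeJ d J} {jl : Fin (n + 1) → ℕ}
  {sig : Fin (n + 1) → Finset (Dir m)} {y : Fin (n + 1) → (G → V) × (Pl → V)}
  {x : ∀ i, XG d p dir i}

/-- `NAH` at a point of the class. -/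
theorem NAH_of_isSys (hS : S.Ok) (hH : HOk S H) (hc : ChOk S ch d pl) (hp : PVec d p)
    (hd : DegOk d p dir) (hm : 1 ≤ m) (hA : AdpH S hS ch d p m cc jl)
    (hy : ∀ l, AbvH S ch d p (jl l) (cc l) (y l)) {jp kk : ℕ} (hkk : kk = jp + 1)
    (hmj : m ≤ jp + 1) (hx : x ∈ (gridG d p dir S ch pl).Xs)
    {u : Fin (n + 1) → (G → V) × (Pl → V)}
    (hu : (mkTwH H hp dir S ch pl cc jl sig y).IsSys H (gridG d p dir S ch pl) m kk x u)
    {b : CodeJ d J} (hb : b ∈ SelpJ d p) :
    (-1 : ℝ) ^ (CTr S (chiJ ch p) (y 0) (homJ ch d p b)).val * NAH S H ch d p m (cc 0) b =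
      (-1 : ℝ) ^ (CTr S ((gridG d p dir S ch pl).chi x) (u 0)
        ((gridG d p dir S ch pl).ch (gcode d p dir ch b) x)).val *
      NAH S H ch d (rx d p dir x) m (cc 0) b := by
  have hne : Nonempty J := ⟨dir none⟩
  have hs := (mem_Xs hc hp hd x).1 hx
  have hpx := pvec_rx hp hd x
  obtain ⟨Θ, hΘ, hl⟩ := exists_cor_of_isSys hS hH hc hp hd hm hA hy hkk hmj hx hu
  have hW := rtJ_ok (H := H) hS hc hp
  have hW' := rtJ_ok (H := H) hS hc hpx
  have hPL : plJ S ch (rx d p dir x) = plJ S ch p := by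
    ext w
    exact (isLoc_iff hS hc hp hpx (symEq_symm hs) w).symm
  rw [selpJ_rx (S := S) hc hp hd hx, hPL] at hW'
  have := finite_rtJ (H := H) hS hc hp m
  have := finite_rtJ (H := H) hS hc hpx m
  have h0 := hy 0
  rw [hA.zero] at h0
  rw [NAH_eq_NA hS, NAH_eq_NA hS, chi_gridG, ch_gridG]
  exact hΘ.NA_eq hW hW' hm hmj hb (hl 0) h0.1 (funext h0.2)

/-- The generation part of theorem A. -/
theorem genA (hS : S.Ok) (hH : HOk S H) (hc : ChOk S ch d pl) (hm : 1 ≤ m) :
    GenA S hS H ch d pl m := by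
  intro J _ p dir hp hd n cc jl sig y hA _ hy b hb
  refine ⟨fun x => yh_iff hS hH hc hp hd hm hA hy (by omega) (by omega) x, ?_⟩
  refine ⟨(-1 : ℝ) ^ (CTr S (chiJ ch p) (y 0) (homJ ch d p b)).val *
    NAH S H ch d p m (cc 0) b, fun x hx => ?_, fun hN x hx u u' hu hu' => ?_⟩
  · have hu := IC.yy_spec hx
    have h1 := NAH_of_isSys hS hH hc hp hd hm hA hy (by omega : m = (m - 1) + 1) (by omega)
      hx.1 hu hb
    rw [h1, ← mul_assoc, TwH.FA, ← mul_pow]
    norm_num
  · have h1 := NAH_of_isSys hS hH hc hp hd hm hA hy (by omega : m = (m - 1) + 1) (by omega)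
      hx.1 hu hb
    have h2 := NAH_of_isSys hS hH hc hp hd hm hA hy (by omega : m = (m - 1) + 1) (by omega)
      hx.1 hu' hb
    have h3 : NAH S H ch d (rx d p dir x) m (cc 0) b ≠ 0 := by
      intro h4
      rw [h1, h4, mul_zero] at hN
      exact hN rfl
    have h4 := mul_right_cancel₀ h3 (h1.symm.trans h2)
    revert h4
    generalize CTr S _ (u 0) _ = α
    generalize CTr S _ (u' 0) _ = β
    intro h4
    rw [sign_eq', sign_eq'] at h4
    have h5 : ∀ a : ZMod 2, a = 0 ∨ a = 1 := by decide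
    rcases h5 α with rfl | rfl <;> rcases h5 β with rfl | rfl
    · rfl
    · norm_num at h4
    · norm_num at h4
    · rfl

/-! ### Theorem T -/

/-- `NTH` at a point of the class. -/
theorem NTH_of_isSys (hS : S.Ok) (hH : HOk S H) (hc : ChOk S ch d pl) (hp : PVec d p)
    (hd : DegOk d p dir) (hm : 1 ≤ m) (hA : AdpH S hS ch d p m cc jl)
    (hy : ∀ l, AbvH S ch d p (jl l) (cc l) (y l)) {yp : (G → V) × (Pl → V)}
    (hyp : AbvH S ch d p (m + 1) (cc 0) yp) (hy0 : y 0 = (2 : ℕ) • yp)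
    (hq0 : q S H (chiJ ch p) m (y 0) = 0) (hx : x ∈ (gridG d p dir S ch pl).Xs)
    {u : Fin (n + 1) → (G → V) × (Pl → V)}
    (hu : (mkTwH H hp dir S ch pl cc jl sig y).IsSys H (gridG d p dir S ch pl) m (m + 1) x u)
    {up : (G → V) × (Pl → V)} (hup : TwH.IsUp S ((gridG d p dir S ch pl).chi x) m (u 0) up) :
    RT.sg (q S H (chiJ ch p) (m + 1) yp) * NTH S H ch d p m (cc 0) =
      RT.sg (q S H ((gridG d p dir S ch pl).chi x) (m + 1) up) *
      NTH S H ch d (rx d p dir x) m (cc 0) := by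
  have hne : Nonempty J := ⟨dir none⟩
  have hs := (mem_Xs hc hp hd x).1 hx
  have hpx := pvec_rx hp hd x
  obtain ⟨Θ, hΘ, hl⟩ := exists_cor_of_isSys hS hH hc hp hd hm hA hy rfl (by omega) hx hu
  have hW := rtJ_ok (H := H) hS hc hp
  have hW' := rtJ_ok (H := H) hS hc hpx
  have hPL : plJ S ch (rx d p dir x) = plJ S ch p := by
    ext w
    exact (isLoc_iff hS hc hp hpx (symEq_symm hs) w).symm
  rw [selpJ_rx (S := S) hc hp hd hx, hPL] at hW'
  have := finite_rtJ (H := H) hS hc hp m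
  have := finite_rtJ (H := H) hS hc hpx m
  obtain ⟨hup1, hup2⟩ := hup
  rw [chi_gridG] at hup1 ⊢
  have h1 := (mkTwH_isSys_iff hS hc hp hd hx).1 hu
  have ht' : (2 : ℕ) ^ m • up.1 = (rtJ S hS H ch d (rx d p dir x)).c (cc 0) := by
    rw [← h1.2.1 0, ← hup2, hA.zero, Prod.smul_fst, smul_smul, ← pow_succ,
      Nat.sub_add_cancel hm]
  have hΘ0 := hl 0
  rw [hy0, ← hup2] at hΘ0
  rw [NTH_eq_NT hS, NTH_eq_NT hS]
  exact hΘ.NT_eq hW hW' (rtJ_okQ hS hH hc hp m) (rtJ_okQ hS hH hc hpx m) hΘ0 hyp.1 hup1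
    (funext hyp.2) ht' (by rw [← hy0]; exact hq0)

/-- Every system at a point of the class has a lift. -/
theorem exists_up_of_isSys (hS : S.Ok) (hc : ChOk S ch d pl) (hp : PVec d p)
    (hd : DegOk d p dir) (hA : AdpH S hS ch d p m cc jl) {yp : (G → V) × (Pl → V)}
    (hyp : AbvH S ch d p (m + 1) (cc 0) yp) (hy0 : y 0 = (2 : ℕ) • yp)
    (hx : x ∈ (gridG d p dir S ch pl).Xs) {u : Fin (n + 1) → (G → V) × (Pl → V)}
    (hu : (mkTwH H hp dir S ch pl cc jl sig y).IsSys H (gridG d p dir S ch pl) m (m + 1) x u) :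
    ∃ up, TwH.IsUp S ((gridG d p dir S ch pl).chi x) m (u 0) up := by
  have hne : Nonempty J := ⟨dir none⟩
  have hpx := pvec_rx hp hd x
  have hW := rtJ_ok (H := H) hS hc hp
  have hW' := rtJ_ok (H := H) hS hc hpx
  have h1 := (mkTwH_isSys_iff hS hc hp hd hx).1 hu
  have h2 := h1.1 0
  rw [hA.zero] at h2
  obtain ⟨up, hup, hup2⟩ := hW'.crit m (u 0) h2 fun b hb => by
    rw [selpJ_rx (S := S) hc hp hd hx] at hb
    rw [h1.2.2.1 0 (by rw [hA.zero]; omega) b hb, hy0]
    exact hW.Ptwo m yp hyp.1 b hb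
  refine ⟨up, ?_, hup2⟩
  rw [chi_gridG]
  exact hup

/-- The generation part of theorem T. -/
theorem genT (hS : S.Ok) (hH : HOk S H) (hc : ChOk S ch d pl) (hp : PVec d p)
    (hd : DegOk d p dir) (hm : 1 ≤ m) (hA : AdpH S hS ch d p m cc jl)
    (hy : ∀ l, AbvH S ch d p (jl l) (cc l) (y l)) {yp : (G → V) × (Pl → V)}
    (hyp : AbvH S ch d p (m + 1) (cc 0) yp) (hy0 : y 0 = (2 : ℕ) • yp)
    (hq0 : q S H (chiJ ch p) m (y 0) = 0) :
    (∀ x, x ∈ (mkTwH H hp dir S ch pl cc jl sig y).YH H (gridG d p dir S ch pl) m (m + 1) ↔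
      TypEqH S H ch d m m p (rx d p dir x)) ∧
    ∃ N0 : ℝ, |N0| = |NTH S H ch d p m (cc 0)| ∧
      (∀ x ∈ (mkTwH H hp dir S ch pl cc jl sig y).YH H (gridG d p dir S ch pl) m (m + 1),
        NTH S H ch d (rx d p dir x) m (cc 0) =
          (-1) ^ ((mkTwH H hp dir S ch pl cc jl sig y).FT H (gridG d p dir S ch pl) m (m + 1)
            x).val * N0) ∧
      (N0 ≠ 0 → ∀ x ∈ (mkTwH H hp dir S ch pl cc jl sig y).YH H (gridG d p dir S ch pl) m
          (m + 1), ∀ u u',
        (mkTwH H hp dir S ch pl cc jl sig y).IsSys H (gridG d p dir S ch pl) m (m + 1) x u →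
        (mkTwH H hp dir S ch pl cc jl sig y).IsSys H (gridG d p dir S ch pl) m (m + 1) x u' →
        ∀ up up', TwH.IsUp S ((gridG d p dir S ch pl).chi x) m (u 0) up →
        TwH.IsUp S ((gridG d p dir S ch pl).chi x) m (u' 0) up' →
        (q S H ((gridG d p dir S ch pl).chi x) (m + 1) up = 0 ↔
          q S H ((gridG d p dir S ch pl).chi x) (m + 1) up' = 0)) := by
  have hsq : ∀ m : M, RT.sg m * RT.sg m = 1 := by
    intro m
    unfold RT.sg
    split_ifs <;> norm_num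
  have hwd : RT.sg (q S H (chiJ ch p) (m + 1) yp) * NTH S H ch d p m (cc 0) ≠ 0 →
      ∀ x ∈ (mkTwH H hp dir S ch pl cc jl sig y).YH H (gridG d p dir S ch pl) m (m + 1), ∀ u u',
        (mkTwH H hp dir S ch pl cc jl sig y).IsSys H (gridG d p dir S ch pl) m (m + 1) x u →
        (mkTwH H hp dir S ch pl cc jl sig y).IsSys H (gridG d p dir S ch pl) m (m + 1) x u' →
        ∀ up up', TwH.IsUp S ((gridG d p dir S ch pl).chi x) m (u 0) up →
        TwH.IsUp S ((gridG d p dir S ch pl).chi x) m (u' 0) up' →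
        (q S H ((gridG d p dir S ch pl).chi x) (m + 1) up = 0 ↔
          q S H ((gridG d p dir S ch pl).chi x) (m + 1) up' = 0) := by
    intro hN x hx u u' hu hu' up up' hup hup'
    have h1 := NTH_of_isSys hS hH hc hp hd hm hA hy hyp hy0 hq0 hx.1 hu hup
    have h2 := NTH_of_isSys hS hH hc hp hd hm hA hy hyp hy0 hq0 hx.1 hu' hup'
    have h3 : NTH S H ch d (rx d p dir x) m (cc 0) ≠ 0 := by
      intro h4
      rw [h1, h4, mul_zero] at hN
      exact hN rfl
    have h4 := mul_right_cancel₀ h3 (h1.symm.trans h2)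
    unfold RT.sg at h4
    constructor
    · intro h5
      by_contra h6
      rw [if_pos h5, if_neg h6] at h4
      norm_num at h4
    · intro h5
      by_contra h6
      rw [if_neg h6, if_pos h5] at h4
      norm_num at h4
  refine ⟨fun x => yh_iff hS hH hc hp hd hm hA hy rfl (by omega) x, _, ?_, fun x hx => ?_, hwd⟩
  · rw [abs_mul]
    have : |RT.sg (q S H (chiJ ch p) (m + 1) yp)| = 1 := by
      unfold RT.sg
      split_ifs <;> norm_num
    rw [this, one_mul]
  · have hu := IC.yy_spec hx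
    obtain ⟨up, hup⟩ := exists_up_of_isSys hS hc hp hd hA hyp hy0 hx.1 hu
    have h1 := NTH_of_isSys hS hH hc hp hd hm hA hy hyp hy0 hq0 hx.1 hu hup
    by_cases hN : RT.sg (q S H (chiJ ch p) (m + 1) yp) * NTH S H ch d p m (cc 0) = 0
    · rw [hN, mul_zero]
      rw [hN] at h1
      rcases mul_eq_zero.1 h1.symm with h2 | h2
      · have h3 := hsq (q S H ((gridG d p dir S ch pl).chi x) (m + 1) up)
        rw [h2, mul_zero] at h3
        exact absurd h3 (by norm_num)
      · exact h2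
    · have h2 : (-1 : ℝ) ^ ((mkTwH H hp dir S ch pl cc jl sig y).FT H (gridG d p dir S ch pl) m
          (m + 1) x).val = RT.sg (q S H ((gridG d p dir S ch pl).chi x) (m + 1) up) := by
        by_cases h3 : q S H ((gridG d p dir S ch pl).chi x) (m + 1) up = 0
        · have hFT : (mkTwH H hp dir S ch pl cc jl sig y).FT H (gridG d p dir S ch pl) m
              (m + 1) x = 0 := by
            refine if_neg ?_
            rintro ⟨up', hup', h4⟩
            exact h4 ((hwd hN x hx _ _ hu hu up up' hup hup').1 h3)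
          rw [hFT, RT.sg, if_pos h3, sign_eq', if_pos rfl]
        · have hFT : (mkTwH H hp dir S ch pl cc jl sig y).FT H (gridG d p dir S ch pl) m
              (m + 1) x = 1 := if_pos ⟨up, hup, h3⟩
          rw [hFT, RT.sg, if_neg h3, sign_eq', if_neg (by decide)]
      rw [h2, h1, ← mul_assoc, hsq, one_mul]

omit [Finite k] in
/-- If no element of level `j + 1` above `a` has `q j (2 y) = 0` then `NTH = 0` on the class. -/
theorem nth_zero (hS : S.Ok) (hc : ChOk S ch d pl) {p' : J → k[X]} (hp : PVec d p)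
    [Nonempty J] {j : ℕ} (hj : 1 ≤ j) (hpp : TypEqH S H ch d j j p p') {a : CodeJ d J}
    (hno : ∀ yp, AbvH S ch d p (j + 1) a yp → q S H (chiJ ch p) j ((2 : ℕ) • yp) ≠ 0)
    (hSel : SelpJ d p' = SelpJ d p) (hp' : PVec d p') :
    NTH S H ch d p' j a = 0 := by
  obtain ⟨hs, Θ, hΘ⟩ := hpp
  have hW := rtJ_ok (H := H) hS hc hp
  have hW' := rtJ_ok (H := H) hS hc hp'
  have hemp : IsEmpty {y : (G → V) × (Pl → V) // AbvH S ch d p' (j + 1) a y ∧
      q S H (chiJ ch p') j ((2 : ℕ) • y) = 0} := by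
    refine ⟨fun ⟨u, hu, hqu⟩ => ?_⟩
    have h2u : IsPr S (chiJ ch p') j ((2 : ℕ) • u) := hu.1.two
    obtain ⟨v, hv⟩ := hΘ.right _ h2u
    have hvj : IsPr S (chiJ ch p) j v := (hΘ.lev _ _ hv j le_rfl).2 h2u
    obtain ⟨yp, hyp, hyp2⟩ := hW.crit j v hvj fun b hb => by
      have h1 := hΘ.pair _ _ hv hvj b hb
      change CTr S (chiJ ch p) v (homJ ch d p b) = 0
      rw [← h1]
      exact hW'.Ptwo j u hu.1 b (by rw [hSel]; exact hb)
    have htop : AbvH S ch d p' j a ((2 : ℕ) • u) := by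
      refine ⟨h2u, fun s => ?_⟩
      have h1 := hu.2 s
      rw [Nat.add_sub_cancel] at h1
      rw [Prod.smul_fst, Pi.smul_apply, smul_smul, ← pow_succ, Nat.sub_add_cancel hj, h1]
    have htop' := (hΘ.top _ _ hv j hj le_rfl a).2 htop
    refine hno yp ⟨hyp, fun s => ?_⟩ ?_
    · have h1 := htop'.2 s
      rw [← hyp2, Prod.smul_fst, Pi.smul_apply, smul_smul, ← pow_succ, Nat.sub_add_cancel hj] at h1
      rw [Nat.add_sub_cancel]
      exact h1
    · rw [hyp2, ← hΘ.qq _ _ hv hvj]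
      exact hqu
  unfold NTH
  exact finsum_of_isEmpty _

end Pool.Agent.SmH
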