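import Pool.Agent.Lib.SmH.I.ClaimQ
import Pool.Agent.Lib.SmH.I.Core.Spec

/-!
# HEIGHTS, block I5: claim A

`kk = k`. If `x` is good for `x0` then `x` is a point of the type, and the sum over the cube `(x0, x)`
of the values of the rigid pairing of the tower of `a` with the code `b` (supported in the direction
`ib`) is a symbol of `Th`.
-/

set_option autoImplicit false

open Finset

namespace Pool.Agent.SmH

open Pool.Agent.SmJ

namespace IC

open Pool.Agent.SmJ.IT Pool.Agent.SmA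
open Pool.Agent.SmJ.IC (exists_notMem subset_erase ch_congr phiC_congr)

variable {G V V1 Pl M : Type*} [Group G] [AddCommGroup V] [DistribMulAction G V]
  [AddCommGroup V1] [Module (ZMod 2) V1] [AddCommGroup M] [DistribMulAction G M]
variable {S : Sys G V V1 Pl} {H : HData V M Pl}
variable {ι : Type*} [Fintype ι] [DecidableEq ι] {X : ι → Type*} {r k kk : ℕ} {Γ : Grid S X}
  {τ : TwH G V V1 Pl M ι r} {x0 x : ∀ i, X i}

/-- The last values of the completed families are towers at `x`, up to the values of level `k`. -/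
theorem good_tow (hS : S.Ok) (hΓ : Γ.Ok) (hτ : τ.Ok Γ k) (hk : 1 ≤ k)
    (hI : Fintype.card ι = k + 2) (h : τ.GoodH H Γ k kk x0 x) (l : Fin (r + 1))
    (hval : τ.jl l = k → k < kk → ∀ d ∈ FR Γ,
      CTr S (Γ.chi x) (lst τ H Γ k kk x0 x l univ) (Γ.ch d x) = τ.fl l d) :
    τ.IsTow Γ kk x l (lst τ H Γ k kk x0 x l univ) where
  pr := by
    have h1 := good_pr hS hΓ hτ hk hI h l univ
    rwa [← Grid.chi_mix, Grid.mix_univ] at h1
  base := good_base hS hΓ hτ hk hI h l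
  val := fun hl d hd => by
    rcases (hτ.jl_le l).lt_or_eq with h1 | h1
    · exact good_val hS hΓ hτ hk hI h l hl h1 hd
    · exact hval h1 (h1 ▸ hl) d hd

/-- The last values of the completed families are a system of towers at `x`. -/
theorem good_sys (h31 : ZeroQ S H ι) (hS : S.Ok) (hΓ : Γ.Ok) (hτ : τ.Ok Γ k) (hk : 1 ≤ k)
    (hI : Fintype.card ι = k + 2) (h : τ.GoodH H Γ k kk x0 x)
    (hval : k < kk → ∀ l, τ.jl l = k → ∀ d ∈ FR Γ,
      CTr S (Γ.chi x) (lst τ H Γ k kk x0 x l univ) (Γ.ch d x) = τ.fl l d) :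
    τ.IsSys H Γ k kk x (fun l => lst τ H Γ k kk x0 x l univ) where
  tow := fun l => good_tow hS hΓ hτ hk hI h l fun h1 h2 => hval h2 l h1
  qdat := fun n _ hw => good_qdat h31 hS hΓ hτ hk hI h n hw

/-- The claim, first part. -/
theorem good_YH (h31 : ZeroQ S H ι) (hS : S.Ok) (hΓ : Γ.Ok) (hτ : τ.Ok Γ k) (hk : 1 ≤ k)
    (hI : Fintype.card ι = k + 2) (h : τ.GoodH H Γ k kk x0 x)
    (hval : k < kk → ∀ l, τ.jl l = k → ∀ d ∈ FR Γ,
      CTr S (Γ.chi x) (lst τ H Γ k kk x0 x l univ) (Γ.ch d x) = τ.fl l d) :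
    x ∈ τ.YH H Γ k kk := by
  refine ⟨?_, _, good_sys h31 hS hΓ hτ hk hI h hval⟩
  have h1 := good_mem_Xs (by omega) h univ
  rwa [Grid.mix_univ] at h1

theorem lst_phiC (l : Fin (r + 1)) {R : Finset ι} (hR : R ≠ univ) (j : ℕ) :
    PhiC S j (fun T => (lst τ H Γ k kk x0 x l T).1) R =
      PhiC S j (ps τ H Γ k kk x0 x l) R := by
  apply phiC_congr
  intro T hT
  apply lst_fst_of_ne
  intro he
  apply hR
  rw [he] at hT
  exact eq_univ_iff_forall.2 fun a => hT (mem_univ a)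

theorem lst_thRel {ib : ι} {Th : G → V1}
    (hrel : ThRel S k (Γ.del x0 x) (ps τ H Γ k kk x0 x 0) (univ.erase ib) Th) :
    ThRel S k (Γ.del x0 x) (fun T => (lst τ H Γ k kk x0 x 0 T).1) (univ.erase ib) Th := by
  intro s t
  rw [hrel s t]
  congr 1
  refine sum_congr rfl fun T _ => ?_
  rw [lst_phiC 0 _ k]
  intro he
  have h1 : ib ∈ univ.erase ib \ T := by rw [he]; exact mem_univ ib
  exact notMem_erase ib univ (mem_sdiff.1 h1).1

/-- The values of the height form determine the pairing of the tower of `a` with `b`. -/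
def Wd (τ : TwH G V V1 Pl M ι r) (H : HData V M Pl) (Γ : Grid S X) (k kk : ℕ)
    (b : GCode G V1 ι) : Prop :=
  ∀ x ∈ τ.YH H Γ k kk, ∀ y y', τ.IsSys H Γ k kk x y → τ.IsSys H Γ k kk x y' →
    CTr S (Γ.chi x) (y 0) (Γ.ch b x) = CTr S (Γ.chi x) (y' 0) (Γ.ch b x)

/-- The claim, second part: the sum of `FA` over the cube (`kk = k`). -/
theorem good_sumA (h31 : ZeroQ S H ι) (hS : S.Ok) (hΓ : Γ.Ok) (hτ : τ.Ok Γ k) (hk : 1 ≤ k)
    (hI : Fintype.card ι = k + 2) (h : τ.GoodH H Γ k k x0 x) {b : GCode G V1 ι}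
    (hbF : b ∈ FR Γ) (hwd : Wd τ H Γ k k b) (ib : ι) (hb : ∀ i, i ≠ ib → b.2 i = 0)
    {Th : G → V1} (htf : S.TF Th)
    (hrel : ThRel S k (Γ.del x0 x) (ps τ H Γ k k x0 x 0) (univ.erase ib) Th)
    (hunr : ∀ v, v ≠ S.inf → Th (S.sg v) = 0) :
    ∑ T : Finset ι, τ.FA H Γ k k b (mix T x0 x) =
      S.e (Th (S.phi (Γ.pl ib (x0 ib))) + Th (S.phi (Γ.pl ib (x ib)))) (b.2 ib) := by
  have hval : k < k → ∀ l, τ.jl l = k → ∀ d ∈ FR Γ,
      CTr S (Γ.chi x) (lst τ H Γ k k x0 x l univ) (Γ.ch d x) = τ.fl l d :=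
    fun h1 => absurd h1 (lt_irrefl k)
  have hst := good_star hS hΓ hτ hk hI h 0
  have hpr := good_pr hS hΓ hτ hk hI h 0
  rw [hτ.jl_zero] at hst hpr
  have h1 := top_sum_CTr hS (good_cubeOk hS hΓ (by omega) h) hst hpr
    (fun v _ T T' => congrFun (lst_snd 0 T T') v) hI (Γ.ch b x0) b.2
    (fun T => by
      have h2 := hbF.2 _ (good_mem_Xs (by omega) h T)
      rwa [Grid.chi_mix, Grid.ch_mix] at h2) ib hb htf (lst_thRel hrel) hunr
  have h2 : ∀ T : Finset ι, τ.FA H Γ k k b (mix T x0 x) =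
      CTr S (chiC (Γ.chi x0) (Γ.del x0 x) T) (lst τ H Γ k k x0 x 0 T)
        (bC (Γ.ch b x0) b.2 (Γ.del x0 x) T) := by
    intro T
    rw [← Grid.chi_mix, ← Grid.ch_mix]
    by_cases hT : T = univ
    · subst hT
      rw [Grid.mix_univ]
      have hx := good_YH h31 hS hΓ hτ hk hI h hval
      exact hwd x hx _ _ (yy_spec hx) (good_sys h31 hS hΓ hτ hk hI h hval)
    · rw [lst_of_ne h 0 hT]
      rfl
  rw [sum_congr rfl fun T _ => h2 T, h1]
  rfl

/-- The claim A for the generic grid theorem. -/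
theorem claimA {X : Option (Option (Fin k)) → Type*} {Γ : Grid S X}
    {τ : TwH G V V1 Pl M (Option (Option (Fin k))) r}
    (h31 : ZeroQ S H (Option (Option (Fin k)))) (hS : S.Ok) (hΓ : Γ.Ok) (hτ : τ.Ok Γ k)
    (hk : 1 ≤ k) {b : GCode G V1 (Option (Option (Fin k)))} (hbF : b ∈ FR Γ)
    (hwd : Wd τ H Γ k k b) (hb : ∀ i, i ≠ none → b.2 i = 0) :
    (τ.cor H Γ k k).Claim Γ (τ.FA H Γ k k b) (b.2 none) := by
  intro x0 x h
  have h' : τ.GoodH H Γ k k x0 x := cor_good.1 h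
  have hI : Fintype.card (Option (Option (Fin k))) = k + 2 := by simp
  exact ⟨good_YH h31 hS hΓ hτ hk hI h' fun h1 => absurd h1 (lt_irrefl k),
    fun Th hTh => good_sumA h31 hS hΓ hτ hk hI h' hbF hwd none hb hTh.1 hTh.2.1 hTh.2.2⟩

end IC

end Pool.Agent.SmH
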