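import Pool.Agent.Lib.SmJ.I.Code
import Pool.Agent.Lib.SmH.Defs

/-!
# HEIGHTS, block I: the relaxed Selmer group in terms of codes

`IsRel S (chiJ ch p) b` (no condition at the bad places) iff `b` is coded by an element of the
explicit Selmer group `SelpJ d p`.
-/

set_option autoImplicit false

open Polynomial Finset

namespace Pool.Agent.SmH

open Pool.Agent.Sm (leg Irr)

open Pool.Agent.SmJ

variable {k : Type} [Field k] {G V V1 Pl : Type} [Group G] [AddCommGroup V] [DistribMulAction G V]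
  [AddCommGroup V1] [Module (ZMod 2) V1]
variable {S : Sys G V V1 Pl} {ch : k[X] → G → ZMod 2} {d : TwData k V1} {pl : k[X] → Pl}
  {J : Type} [Fintype J] {p : J → k[X]}

/-- The value of a code homomorphism at the prime `P` off the vector and off the bad primes. -/
private theorem homJ_sg_off (hc : ChOk S ch d pl) (hp : PVec d p) (c : CodeJ d J) {P : k[X]}
    (hP : P.Monic) (hP' : Irreducible P) (hne : ∀ j, P ≠ p j) (hell : ∀ l, P ≠ d.ell l) :
    homJ ch d p c (S.sg (pl P)) = 0 := by
  rw [homJ, hc.sg_u hP hP', zero_smul, zero_add, Finset.sum_eq_zero, Finset.sum_eq_zero, add_zero]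
  · intro j _
    rw [hc.sg_ne hP hP' (hp.monic j) (hp.irr j) (hne j), zero_smul]
  · intro l _
    rw [hc.sg_ne hP hP' (d.ell_monic l) (d.ell_irr l) (hell l), zero_smul]

/-- The relaxed Selmer group is the explicit Selmer group. -/
theorem isRel_homJ_iff (h : S.Ok) (hc : ChOk S ch d pl) (hp : PVec d p) (c : CodeJ d J) :
    IsRel S (chiJ ch p) (homJ ch d p c) ↔ c ∈ SelpJ d p := by
  constructor
  · rintro ⟨-, h2⟩ j
    exact (Code.mem_Wl_p_iff h hc hp c j).mp
      (h2 _ ((hc.good _ (hp.monic j) (hp.irr j)).mpr (hp.ne j)))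
  · intro hcS
    refine ⟨Code.homG_homJ h hc hp c, fun v hv => ?_⟩
    rcases hc.pl_cases v with rfl | ⟨P, hP, hP', rfl⟩
    · exact absurd hv h.inf_not_good
    · have hell : ∀ l, P ≠ d.ell l := (hc.good P hP hP').mp hv
      by_cases hj : ∃ j, P = p j
      · obtain ⟨j, rfl⟩ := hj
        exact (Code.mem_Wl_p_iff h hc hp c j).mpr (hcS j)
      · push Not at hj
        rw [Sys.mem_Wl_good h (Code.homG_chiJ h hc hp) hv
          (Code.chiJ_sg_off hc hp hP hP' fun j => (hj j).symm)]
        exact homJ_sg_off hc hp c hP hP' hj hell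

open Classical in
/-- Every element of the relaxed Selmer group has a code. -/
theorem exists_code_of_isRel (h : S.Ok) (hc : ChOk S ch d pl) (hp : PVec d p) {b : G → V1}
    (hb : IsRel S (chiJ ch p) b) : ∃ c ∈ SelpJ d p, homJ ch d p c = b := by
  -- the finite set of primes
  set Q : Finset k[X] := Finset.univ.image d.ell ∪ Finset.univ.image p with hQdef
  have hQ : ∀ P ∈ Q, P.Monic ∧ Irreducible P := by
    intro P hP
    rw [hQdef, Finset.mem_union, Finset.mem_image, Finset.mem_image] at hP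
    rcases hP with ⟨i, _, rfl⟩ | ⟨j, _, rfl⟩
    · exact ⟨d.ell_monic i, d.ell_irr i⟩
    · exact ⟨hp.monic j, hp.irr j⟩
  have hun : ∀ P, P.Monic → Irreducible P → P ∉ Q → b (S.sg (pl P)) = 0 := by
    intro P hP hP' hPQ
    rw [hQdef, Finset.mem_union, not_or, Finset.mem_image, Finset.mem_image] at hPQ
    have hg : pl P ∈ S.good := (hc.good P hP hP').mpr fun i e =>
      hPQ.1 ⟨i, Finset.mem_univ i, e.symm⟩
    have h0 : chiJ ch p (S.sg (pl P)) = 0 := Code.chiJ_sg_off hc hp hP hP' fun j e =>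
      hPQ.2 ⟨j, Finset.mem_univ j, e⟩
    exact (Sys.mem_Wl_good h (Code.homG_chiJ h hc hp) hg h0 _).mp (hb.2 (pl P) hg)
  obtain ⟨w, key⟩ := hc.unr_expand_V1 h hb.1 Q hQ hun
  have hdis : Disjoint (Finset.univ.image d.ell) (Finset.univ.image p) := by
    rw [Finset.disjoint_left]
    intro P hP hP'
    rw [Finset.mem_image] at hP hP'
    obtain ⟨i, _, rfl⟩ := hP
    obtain ⟨j, _, hj⟩ := hP'
    exact hp.ne j i hj
  have hsum : ∀ F : k[X] → V1, ∑ P ∈ Q, F P = ∑ i, F (d.ell i) + ∑ j, F (p j) := by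
    intro F
    rw [hQdef, Finset.sum_union hdis, Finset.sum_image (fun a _ b _ e => d.ell_inj e),
      Finset.sum_image (fun a _ b _ e => hp.inj e)]
  have e : homJ ch d p (w, (fun i => b (S.sg (pl (d.ell i)))), fun j => b (S.sg (pl (p j)))) =
      b := by
    funext s
    rw [key s, hsum (fun P => ch P s • b (S.sg (pl P))), homJ, add_assoc]
  refine ⟨_, ?_, e⟩
  rw [← isRel_homJ_iff h hc hp, e]
  exact hb

/-- The relaxed Selmer group has as many elements as the explicit one. -/
theorem bijOn_homJ_isRel (h : S.Ok) (hc : ChOk S ch d pl) (hp : PVec d p) [Nonempty J] :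
    Set.BijOn (homJ ch d p) (SelpJ d p) {b | IsRel S (chiJ ch p) b} := by
  refine ⟨fun c hcS => (isRel_homJ_iff h hc hp c).mpr hcS,
    fun c _ c' _ hcc => (Code.codeOk h hc hp).inj hcc, fun b hb => ?_⟩
  obtain ⟨c, h1, h2⟩ := exists_code_of_isRel h hc hp hb
  exact ⟨c, h1, h2⟩

/-- The relaxed Selmer group is finite, of the size of `SelpJ`. -/
theorem card_isRel [Finite V1] (h : S.Ok) (hc : ChOk S ch d pl) (hp : PVec d p) [Nonempty J] :
    {b | IsRel S (chiJ ch p) b}.Finite ∧
      {b | IsRel S (chiJ ch p) b}.ncard = Nat.card (SelpJ d p) := by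
  have h1 := bijOn_homJ_isRel h hc hp
  have hfin : (SelpJ d p).Finite := Set.toFinite _
  refine ⟨h1.finite_iff_finite.1 hfin, ?_⟩
  rw [← h1.image_eq, h1.injOn.ncard_image, ← Nat.card_coe_set_eq]

/-- The explicit Selmer conditions only depend on the degrees and on the symbols. -/
theorem condJ_congr [Finite k] (h2 : (2 : k) ≠ 0) {p' : J → k[X]} (hp : PVec d p) (hp' : PVec d p')
    (hs : SymEq d p p') (c : CodeJ d J) (j : J) : condJ d p c j = condJ d p' c j := by
  have hu : leg (p j) (C d.u) = leg (p' j) (C d.u) := by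
    rw [SmF.leg_const h2 (hp.irr j) (hp.monic j) ChOk.u_ne_zero,
      SmF.leg_const h2 (hp'.irr j) (hp'.monic j) ChOk.u_ne_zero, hs.deg]
  simp only [condJ, hu, hs.ell, hs.sym]

theorem selpJ_congr [Finite k] (h2 : (2 : k) ≠ 0) {p' : J → k[X]} (hp : PVec d p) (hp' : PVec d p')
    (hs : SymEq d p p') : SelpJ d p = SelpJ d p' := by
  ext c
  exact forall_congr' fun j => by rw [condJ_congr h2 hp hp' hs]

end Pool.Agent.SmH
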