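import Pool.Agent.Lib.SmH.I.DefsH
import Pool.Agent.Lib.SmH.I.CodeR
import Pool.Agent.Lib.SmJ.I.GridOk

/-!
# HEIGHTS, block I: the relaxed frame `FR`

The same as `SmJ/I/Frame` (section frame theorem) for the relaxed Selmer groups, and the relaxed frame
of the grid `gridG` of a vector of primes: it is the set of the codes of `SelpJ d p`.
-/

set_option autoImplicit false

open Finset

namespace Pool.Agent.SmH

open Pool.Agent.SmJ Pool.Agent.SmJ.IT Pool.Agent.SmJ.Grid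

section abstract

variable {G V V1 Pl : Type*} [Group G] [AddCommGroup V] [DistribMulAction G V]
  [AddCommGroup V1] [Module (ZMod 2) V1] {S : Sys G V V1 Pl}
variable {ι : Type*} [Fintype ι] {X : ι → Type*} {Γ : Grid S X}

/-- The relaxed condition at all points of `X^*` follows from the one at one point. -/
theorem rel_transfer (hS : S.Ok) (hΓ : Γ.Ok) {c : GCode G V1 ι} (hc : Γ.IsC c) {x y : ∀ i, X i}
    (hx : x ∈ Γ.Xs) (hy : y ∈ Γ.Xs) (h : IsRel S (Γ.chi x) (Γ.ch c x)) :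
    IsRel S (Γ.chi y) (Γ.ch c y) := by
  refine ⟨ch_hom hS hΓ hc y, fun v hg => ?_⟩
  by_cases hv : v ∈ Γ.bad
  · have h1 := h.2 v hg
    rw [wl_congr_iff hS (chi_bad hΓ x y hv)] at h1
    have h2 : S.loc v (Γ.ch c y) = S.loc v (Γ.ch c x) := by
      unfold Sys.loc
      rw [ch_bad hΓ c x y hv _ (hS.sg_mem v), ch_bad hΓ c x y hv _ (hS.phi_mem v)]
    rwa [h2]
  · by_cases hvi : ∃ i, v = Γ.pl i (y i)
    · obtain ⟨i, rfl⟩ := hvi
      exact cond_pl hS hΓ hc hx hy i (h.2 _ (hΓ.bad_good _ (hΓ.pl_bad i (x i))))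
    · have hvi' : ∀ i, v ≠ Γ.pl i (y i) := fun i hi => hvi ⟨i, hi⟩
      rw [Sys.mem_Wl_good hS (chi_hom hS hΓ y) (hΓ.bad_good v hv) (chi_sg_off hΓ y hv hvi')]
      exact ch_sg_off hΓ hc y hv hvi'

theorem mem_FR (hS : S.Ok) (hΓ : Γ.Ok) {x : ∀ i, X i} (hx : x ∈ Γ.Xs) (c : GCode G V1 ι) :
    c ∈ FR Γ ↔ Γ.IsC c ∧ IsRel S (Γ.chi x) (Γ.ch c x) :=
  ⟨fun h => ⟨h.1, h.2 x hx⟩, fun h => ⟨h.1, fun _ hy => rel_transfer hS hΓ h.1 hx hy h.2⟩⟩

omit [Fintype ι] in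
/-- A true Selmer element is in the relaxed group. -/
theorem isRel_of_sel1 {chi : G → ZMod 2} {b : G → V1} (hb : S.IsSel1 chi b) : IsRel S chi b :=
  ⟨hb.1, fun v _ => hb.2 v⟩

theorem FF_sub_FR : Γ.FF ⊆ FR Γ := fun _ hc => ⟨hc.1, fun x hx => isRel_of_sel1 (hc.2 x hx)⟩

/-- The elements of the relaxed group are unramified outside of the bad places and of the places of
the point. -/
theorem rel_unr (hS : S.Ok) (hΓ : Γ.Ok) {x : ∀ i, X i} {b : G → V1}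
    (hb : IsRel S (Γ.chi x) b) : ∀ v, v ∉ Γ.bad → (∀ i, v ≠ Γ.pl i (x i)) → b (S.sg v) = 0 := by
  intro v hv hvi
  have h1 := hb.2 v (hΓ.bad_good v hv)
  rw [Sys.mem_Wl_good hS (chi_hom hS hΓ x) (hΓ.bad_good v hv) (chi_sg_off hΓ x hv hvi)] at h1
  exact h1

/-- `c ↦ c (x)` is a bijection from the relaxed frame to the relaxed Selmer group of the point `x` of
`X^*`. -/
theorem bijOn_ch_FR (hS : S.Ok) (hΓ : Γ.Ok) {x : ∀ i, X i} (hx : x ∈ Γ.Xs) :
    Set.BijOn (fun c => Γ.ch c x) (FR Γ) {b | IsRel S (Γ.chi x) b} := by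
  refine ⟨fun c hc => hc.2 x hx, fun c hc d hd h => ch_inj hΓ x hc.1 hd.1 h, fun b hb => ?_⟩
  obtain ⟨c, hc, hcb⟩ := code_exists hS hΓ x hb.1 (rel_unr hS hΓ hb)
  refine ⟨c, (mem_FR hS hΓ hx c).2 ⟨hc, ?_⟩, hcb⟩
  rw [hcb]
  exact hb

theorem ncard_FR (hS : S.Ok) (hΓ : Γ.Ok) {x : ∀ i, X i} (hx : x ∈ Γ.Xs) :
    Set.ncard {b | IsRel S (Γ.chi x) b} = Set.ncard (FR Γ) := by
  rw [← (bijOn_ch_FR hS hΓ hx).image_eq, (bijOn_ch_FR hS hΓ hx).injOn.ncard_image]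

omit [Fintype ι] in
/-- The sum of two codes. -/
theorem isC_add (hS : S.Ok) {c c' : GCode G V1 ι} (hc : Γ.IsC c) (hc' : Γ.IsC c') :
    Γ.IsC (c + c') :=
  ⟨homG_add hS hc.1 hc'.1, fun v hv => by
    change c.1 (S.sg v) + c'.1 (S.sg v) = 0
    rw [hc.2 v hv, hc'.2 v hv, add_zero]⟩

theorem ch_add (c c' : GCode G V1 ι) (x : ∀ i, X i) :
    Γ.ch (c + c') x = Γ.ch c x + Γ.ch c' x := by
  funext s
  unfold Grid.ch
  simp only [Prod.fst_add, Prod.snd_add, Pi.add_apply, smul_add, sum_add_distrib]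
  abel

theorem isRel_add (hS : S.Ok) {chi : G → ZMod 2} {b b' : G → V1}
    (hb : IsRel S chi b) (hb' : IsRel S chi b') : IsRel S chi (b + b') :=
  ⟨homG_add hS hb.1 hb'.1, fun v hv => (S.W chi v).add_mem (hb.2 v hv) (hb'.2 v hv)⟩

theorem FR_add (hS : S.Ok) {c c' : GCode G V1 ι} (hc : c ∈ FR Γ) (hc' : c' ∈ FR Γ) :
    c + c' ∈ FR Γ :=
  ⟨isC_add hS hc.1 hc'.1, fun x hx => by
    rw [ch_add]
    exact isRel_add hS (hc.2 x hx) (hc'.2 x hx)⟩

end abstract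

section grid

open Pool.Agent.Sm (leg Irr Dir repl repl_dir repl_off N0)
open Polynomial

variable {k : Type} [Field k] [Finite k] {V1 : Type} [AddCommGroup V1] [Module (ZMod 2) V1]
  {d : TwData k V1} {J : Type} [Fintype J] {m : ℕ} {p : J → k[X]}
  {dir : Dir m ↪ J}
variable {G V Pl : Type} [Group G] [AddCommGroup V] [DistribMulAction G V]
variable {S : Sys G V V1 Pl} {ch : k[X] → G → ZMod 2} {pl : k[X] → Pl}

/-- The explicit Selmer group does not depend on the point of `X^*`. -/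
theorem selpJ_rx (h : ChOk S ch d pl) (hp : PVec d p) (hd : DegOk d p dir)
    {x : ∀ i, XG d p dir i} (hx : x ∈ (gridG d p dir S ch pl).Xs) :
    SelpJ d (rx d p dir x) = SelpJ d p :=
  selpJ_congr h.two (pvec_rx hp hd x) hp ((mem_Xs h hp hd x).1 hx)

/-- The relaxed frame in terms of the codes over `J`. -/
theorem gcode_mem_FR (h : ChOk S ch d pl) (hp : PVec d p) (hd : DegOk d p dir) (hS : S.Ok)
    {x : ∀ i, XG d p dir i} (hx : x ∈ (gridG d p dir S ch pl).Xs) (c : CodeJ d J) :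
    gcode d p dir ch c ∈ FR (gridG d p dir S ch pl) ↔ c ∈ SelpJ d p := by
  rw [mem_FR hS (gridG_ok h hp hd hS) hx, chi_gridG, ch_gridG,
    isRel_homJ_iff hS h (pvec_rx hp hd x), selpJ_rx h hp hd hx]
  exact ⟨fun h1 => h1.2, fun h1 => ⟨isC_gcode h hp hS c, h1⟩⟩

/-- The relaxed frame is the image of `SelpJ`. -/
theorem FR_eq_image (h : ChOk S ch d pl) (hp : PVec d p) (hd : DegOk d p dir) (hS : S.Ok)
    {x : ∀ i, XG d p dir i} (hx : x ∈ (gridG d p dir S ch pl).Xs) :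
    FR (gridG d p dir S ch pl) = gcode d p dir ch '' SelpJ d p := by
  ext c
  constructor
  · intro hc
    obtain ⟨c', rfl⟩ := exists_gcode h hp hS hc.1
    exact ⟨c', (gcode_mem_FR h hp hd hS hx c').1 hc, rfl⟩
  · rintro ⟨c', hc', rfl⟩
    exact (gcode_mem_FR h hp hd hS hx c').2 hc'

end grid

end Pool.Agent.SmH
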