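import Pool.Agent.Lib.SmH.I.ZVal
import Pool.Agent.Lib.SmH.I.ClaimA
import Pool.Agent.Lib.SmH.I.FrameR
import Pool.Agent.Lib.SmH.G.CritR
import Pool.Agent.Lib.SmH.H.ZeroQ
import Pool.Agent.Lib.SmH.C.TopQ
import Pool.Agent.Lib.SmH.Q.Main

/-!
# HEIGHTS, block I5: claim T

`kk = k + 1`, `a = c 0` is in the image of the elements of level `k + 1`. If `x` is good for `x0` then
`x` is a point of the type, and the sum over the cube `(x0, x)` of the signs of `q (k + 1)` of the lifts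
of the towers of `a` is a symbol of `Th`.
-/

set_option autoImplicit false

open Finset

namespace Pool.Agent.SmH

open Pool.Agent.SmJ

variable {G V V1 Pl M : Type*} [Group G] [AddCommGroup V] [DistribMulAction G V]
  [AddCommGroup V1] [Module (ZMod 2) V1] [AddCommGroup M] [DistribMulAction G M]
variable {S : Sys G V V1 Pl} {H : HData V M Pl}

/-- The hypotheses of theorem T: all the towers are supported in the direction `ia`; every code of the
relaxed frame is a torsion class up to the direction `ia`; the tower of `a` is orthogonal to the relaxed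
frame and the value of `q k` on it is `0`; the code `wc` is supported in the direction `ib` and
satisfies the local conditions of 4.2; the sign does not depend on the choices. -/
structure TwH.OkT {ι : Type*} [Fintype ι] {X : ι → Type*} {r : ℕ} (τ : TwH G V V1 Pl M ι r)
    (H : HData V M Pl) (Γ : Grid S X) (k : ℕ) (ia ib : ι) (wc : GCode G V1 ι) : Prop where
  ok : τ.Ok Γ k
  sig : ∀ l, τ.sig l ⊆ {ia}
  fr : ∀ d ∈ FR Γ, ∃ v : V1, ∀ i, i ≠ ia → d.2 i = v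
  fl0 : ∀ d ∈ FR Γ, τ.fl 0 d = 0
  q0 : τ.qd (Pi.single 0 1) 0 = 0
  w_isC : Γ.IsC wc
  w_supp : ∀ i, i ≠ ib → wc.2 i = 0
  w_loc : ∀ x ∈ Γ.Xs, ∀ v ∈ S.good, S.loc v (Γ.ch wc x) -
    (0, (H.deg v : ZMod 2) • Γ.ch (τ.c 0) x (S.sg v)) ∈ S.Wl (Γ.chi x) v
  wd : ∀ x ∈ τ.YH H Γ k (k + 1), ∀ y y', τ.IsSys H Γ k (k + 1) x y →
    τ.IsSys H Γ k (k + 1) x y' → ∀ yp yp', TwH.IsUp S (Γ.chi x) k (y 0) yp →
    TwH.IsUp S (Γ.chi x) k (y' 0) yp' →
    (q S H (Γ.chi x) (k + 1) yp = 0 ↔ q S H (Γ.chi x) (k + 1) yp' = 0)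

namespace IC

open Pool.Agent.SmJ.IT Pool.Agent.SmA
open Pool.Agent.SmJ.IC (exists_notMem subset_erase ch_congr phiC_congr)

/-- 3.1 for the families over a cube with the directions `I`. -/
theorem zeroQ_of (hS : S.Ok) (hH : HOk S H) (I : Type*) [Fintype I] [DecidableEq I] :
    ZeroQ S H I :=
  fun hC _ hi hI _ hy hst hbad => zero_q hS hH hC hi hI hy hst hbad

variable {ι : Type*} [Fintype ι] {X : ι → Type*} {r k : ℕ} {Γ : Grid S X}
  {τ : TwH G V V1 Pl M ι r} {x0 x : ∀ i, X i} {ia ib : ι} {wc : GCode G V1 ι}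

/-- The tower of `a` lifts at every point of the type. -/
theorem exists_up (hS : S.Ok) (hΓ : Γ.Ok) (hτ : τ.OkT H Γ k ia ib wc) (hx : x ∈ Γ.Xs)
    {y : Fin (r + 1) → (G → V) × (Pl → V)} (hy : τ.IsSys H Γ k (k + 1) x y) :
    ∃ yp, TwH.IsUp S (Γ.chi x) k (y 0) yp := by
  have hchi := Grid.chi_hom hS hΓ x
  have h0 := (hy.tow 0).pr
  rw [hτ.ok.jl_zero] at h0
  refine (ctr_crit hS hchi h0).2 fun b hb => ?_
  obtain ⟨d, hd, rfl⟩ := (bijOn_ch_FR hS hΓ hx).surjOn hb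
  rw [(hy.tow 0).val (by rw [hτ.ok.jl_zero]; exact Nat.lt_succ_self k) d hd]
  exact hτ.fl0 d hd

/-- The value of `q (k + 1)` on a lift is in `M[2]`. -/
theorem two_q_up (hS : S.Ok) (hH : HOk S H) (hΓ : Γ.Ok) (hτ : τ.OkT H Γ k ia ib wc)
    {y : Fin (r + 1) → (G → V) × (Pl → V)} (hy : τ.IsSys H Γ k (k + 1) x y)
    {yp : (G → V) × (Pl → V)} (hyp : TwH.IsUp S (Γ.chi x) k (y 0) yp) :
    (2 : ℕ) • q S H (Γ.chi x) (k + 1) yp = 0 := by
  have hchi := Grid.chi_hom hS hΓ x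
  rw [← q_two hS hH hchi hyp.1, hyp.2]
  have h1 := hy.qdat (Pi.single 0 1) 0 ⟨fun _ _ => rfl, fun _ _ _ _ => dl_zero _ _⟩
  have h2 : comb y (Pi.single 0 1) 0 = y 0 := by
    unfold comb
    rw [sum_eq_single (0 : Fin (r + 1))]
    · rw [Pi.single_eq_same, one_smul]
      exact add_zero _
    · intro l _ hl
      rw [Pi.single_eq_of_ne hl, zero_smul]
    · intro hn
      exact absurd (mem_univ _) hn
  rw [h2] at h1
  rw [h1, hτ.q0]

/-- `FT` by any system and any lift. -/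
theorem ft_eq (hS : S.Ok) (hH : HOk S H) (hΓ : Γ.Ok) (hτ : τ.OkT H Γ k ia ib wc)
    (hx : x ∈ τ.YH H Γ k (k + 1)) {y : Fin (r + 1) → (G → V) × (Pl → V)}
    (hy : τ.IsSys H Γ k (k + 1) x y) {yp : (G → V) × (Pl → V)}
    (hyp : TwH.IsUp S (Γ.chi x) k (y 0) yp) :
    q S H (Γ.chi x) (k + 1) yp = H.j (τ.FT H Γ k (k + 1) x) := by
  classical
  have hyy := yy_spec hx
  obtain ⟨yq, hyq⟩ := exists_up hS hΓ hτ hx.1 hyy
  have hw := hτ.wd x hx _ _ hy hyy
  by_cases h0 : q S H (Γ.chi x) (k + 1) yp = 0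
  · have h1 : τ.FT H Γ k (k + 1) x = 0 := by
      unfold TwH.FT
      rw [if_neg]
      rintro ⟨yr, hyr, hne⟩
      exact hne ((hw yp yr hyp hyr).1 h0)
    rw [h0, h1, map_zero]
  · have h1 : τ.FT H Γ k (k + 1) x = 1 := by
      unfold TwH.FT
      rw [if_pos]
      exact ⟨yq, hyq, fun hc => h0 ((hw yp yq hyp hyq).2 hc)⟩
    obtain ⟨a, ha⟩ := hH.two _ (two_q_up hS hH hΓ hτ hy hyp)
    have h2 : a ≠ 0 := by
      rintro rfl
      rw [map_zero] at ha
      exact h0 ha.symm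
    have h3 : a = 1 := (by decide : ∀ a : ZMod 2, a ≠ 0 → a = 1) a h2
    rw [h1, ← ha, h3]

variable [DecidableEq ι]

/-- The values of level `k` at the last vertex. -/
theorem good_val_okT (hS : S.Ok) (hH : HOk S H) (hR : S.RecipM H.j) (hΓ : Γ.Ok)
    (hτ : τ.OkT H Γ k ia ib wc) (hk : 1 ≤ k) (hI : Fintype.card ι = k + 2)
    (h : τ.GoodH H Γ k (k + 1) x0 x) (l : Fin (r + 1)) {d : GCode G V1 ι} (hd : d ∈ FR Γ) :
    CTr S (Γ.chi x) (lst τ H Γ k (k + 1) x0 x l univ) (Γ.ch d x) = τ.fl l d := by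
  obtain ⟨v, hv⟩ := hτ.fr d hd
  exact good_valT hS hH.weil hR hΓ hτ.ok hk hI h l (Nat.lt_succ_of_le (hτ.ok.jl_le l))
    (hτ.sig l) hd hv

/-- The completed families are a system at all the vertices. -/
theorem good_sysT (hS : S.Ok) (hH : HOk S H) (hR : S.RecipM H.j) (hΓ : Γ.Ok)
    (hτ : τ.OkT H Γ k ia ib wc) (hk : 1 ≤ k) (hI : Fintype.card ι = k + 2)
    (h : τ.GoodH H Γ k (k + 1) x0 x) (T : Finset ι) :
    mix T x0 x ∈ τ.YH H Γ k (k + 1) ∧
    τ.IsSys H Γ k (k + 1) (mix T x0 x) (fun l => lst τ H Γ k (k + 1) x0 x l T) := by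
  by_cases hT : T = univ
  · subst hT
    have hv : k < k + 1 → ∀ l, τ.jl l = k → ∀ d ∈ FR Γ,
        CTr S (Γ.chi x) (lst τ H Γ k (k + 1) x0 x l univ) (Γ.ch d x) = τ.fl l d :=
      fun _ l _ d hd => good_val_okT hS hH hR hΓ hτ hk hI h l hd
    rw [Grid.mix_univ]
    exact ⟨good_YH (zeroQ_of hS hH ι) hS hΓ hτ.ok hk hI h hv,
      good_sys (zeroQ_of hS hH ι) hS hΓ hτ.ok hk hI h hv⟩
  · have h1 := (good_vertex h hT).1
    refine ⟨h1, ?_⟩
    have h2 : (fun l => lst τ H Γ k (k + 1) x0 x l T) = τ.yy H Γ k (k + 1) (mix T x0 x) :=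
      funext fun l => lst_of_ne h l hT
    rw [h2]
    exact yy_spec h1

/-- The claim, second part: the sum of `FT` over the cube. -/
theorem good_sumT (hS : S.Ok) (hH : HOk S H) (hR : S.RecipM H.j) (hΓ : Γ.Ok)
    (hτ : τ.OkT H Γ k ia ib wc) (hab : ia ≠ ib) (hk : 1 ≤ k) (hI : Fintype.card ι = k + 2)
    (h : τ.GoodH H Γ k (k + 1) x0 x) {Th : G → V1} (htf : S.TF Th)
    (hrel : ThRel S k (Γ.del x0 x) (ps τ H Γ k (k + 1) x0 x 0) (univ.erase ib) Th)
    (hunr : ∀ v, v ≠ S.inf → Th (S.sg v) = 0) :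
    ∑ T : Finset ι, τ.FT H Γ k (k + 1) (mix T x0 x) =
      S.e (Th (S.phi (Γ.pl ib (x0 ib))) + Th (S.phi (Γ.pl ib (x ib)))) (wc.2 ib) := by
  have hC := good_cubeOk hS hΓ (by omega) h
  have hsys := good_sysT hS hH hR hΓ hτ hk hI h
  choose yp hyp using fun T => exists_up hS hΓ hτ (hsys T).1.1 (hsys T).2
  -- the lifts
  have h2 : ∀ T s, (2 : ℕ) • (yp T).1 s = (lst τ H Γ k (k + 1) x0 x 0 T).1 s := fun T s =>
    congrFun (congrArg Prod.fst (hyp T).2) s
  have h2' : ∀ T v, (2 : ℕ) • (yp T).2 v = (lst τ H Γ k (k + 1) x0 x 0 T).2 v := fun T v =>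
    congrFun (congrArg Prod.snd (hyp T).2) v
  have hfun : (fun P s => (2 : ℕ) • (yp P).1 s) =
      fun T => (lst τ H Γ k (k + 1) x0 x 0 T).1 := funext fun T => funext fun s => h2 T s
  have hsig : τ.sig 0 ⊆ {ia} := hτ.sig 0
  have htop := top_q (n := k) (ia := ia) (ib := ib) (y := yp) (z0 := Γ.ch (τ.c 0) x0)
    (zv := (τ.c 0).2) (w0 := Γ.ch wc x0) (wv := wc.2) (Th := Th) hS hH hC hk hI hab
    (fun P => by
      have h1 := (hyp P).1
      rwa [Grid.chi_mix] at h1)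
    (fun U P hUP hU hne hc => by
      rw [hfun]
      have h1 := (good_last hS hΓ hτ.ok hk hI h 0).2 U P hUP (hU.mono_right hsig) hne
        (by rw [hτ.ok.jl_zero]; exact hc)
      rwa [hτ.ok.jl_zero] at h1)
    (fun v _ P => by rw [h2', h2', lst_snd 0 P ∅])
    (fun i hi => hτ.ok.supp 0 i fun hc => hi (mem_singleton.1 (hsig hc)))
    (fun P s => by
      have h1 := ((hsys P).2.tow 0).base s
      rw [hτ.ok.jl_zero, Grid.ch_mix] at h1
      rw [← h1, ← h2]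
      rw [smul_smul, ← pow_succ, Nat.sub_add_cancel hk])
    hτ.w_supp (Grid.ch_hom hS hΓ hτ.w_isC x0)
    (fun P v hv => by
      have h1 := hτ.w_loc _ (good_mem_Xs (by omega) h P) v hv
      rwa [Grid.chi_mix, Grid.ch_mix, Grid.ch_mix] at h1)
    htf (by
      rw [hfun]
      exact lst_thRel hrel) hunr
  have h3 : (fun P => q S H (chiC (Γ.chi x0) (Γ.del x0 x) P) (k + 1) (yp P)) =
      fun P => H.j (τ.FT H Γ k (k + 1) (mix P x0 x)) := funext fun P => by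
    rw [← Grid.chi_mix]
    exact ft_eq hS hH hΓ hτ (hsys P).1 (hsys P).2 (hyp P)
  rw [h3, alt_map, alt_eq_sum_of_two CharTwo.add_self_eq_zero] at htop
  simp only [empty_union, powerset_univ] at htop
  exact hH.inj htop

/-- The claim T for the generic grid theorem. -/
theorem claimT {X : Option (Option (Fin k)) → Type*} {Γ : Grid S X}
    {τ : TwH G V V1 Pl M (Option (Option (Fin k))) r}
    {wc : GCode G V1 (Option (Option (Fin k)))} (hS : S.Ok) (hH : HOk S H)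
    (hR : S.RecipM H.j) (hΓ : Γ.Ok) (hτ : τ.OkT H Γ k (some none) none wc) (hk : 1 ≤ k) :
    (τ.cor H Γ k (k + 1)).Claim Γ (τ.FT H Γ k (k + 1)) (wc.2 none) := by
  intro x0 x h
  have h' : τ.GoodH H Γ k (k + 1) x0 x := cor_good.1 h
  have hI : Fintype.card (Option (Option (Fin k))) = k + 2 := by simp
  have h1 := (good_sysT hS hH hR hΓ hτ hk hI h' univ).1
  rw [Grid.mix_univ] at h1
  exact ⟨h1, fun Th hTh => good_sumT hS hH hR hΓ hτ (by simp) hk hI h' hTh.1 hTh.2.1 hTh.2.2⟩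

end IC

end Pool.Agent.SmH
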