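import Pool.Agent.Lib.SmH.I.DefsH
import Pool.Agent.Lib.SmH.L.StmtI
import Pool.Agent.Lib.SmH.G.Pr
import Pool.Agent.Lib.SmJ.I.TypeInst

/-!
# HEIGHTS, block I: the type data of a grid

`BasH` = the common part of `Supp` (theorem A) and `SuppT` (theorem T). `AdpH cc jl` : `cc` is a basis
of `FJ` modulo the torsion, adapted to the flag, `jl l` is the maximal level of `cc l` (at most `m`).
`exists_bas`: the subfamily of the codes in `FJ`, with `cc 0 = a`. `mkTwH`: the type data of a system of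
rigid towers at the base point.
-/

set_option autoImplicit false

open Polynomial Finset

namespace Pool.Agent.SmH

open Pool.Agent.Sm (leg Irr Dir repl repl_dir repl_off N0 Tower Adapted)

open Pool.Agent.SmJ Pool.Agent.SmJ.IT

variable {k : Type} [Field k] {V1 : Type} [AddCommGroup V1] [Module (ZMod 2) V1]
  {d : TwData k V1} {J : Type} [Fintype J] {m : ℕ} {p : J → k[X]}
  {dir : Dir m ↪ J}
variable {G V Pl M : Type} [Group G] [AddCommGroup V] [DistribMulAction G V]
  [AddCommGroup M] [DistribMulAction G M]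
variable {S : Sys G V V1 Pl} {H : HData V M Pl} {ch : k[X] → G → ZMod 2} {pl : k[X] → Pl}

/-- A basis with supports: the common part of `Supp` and `SuppT`. -/
structure BasH (d : TwData k V1) {J : Type} (F : Set (CodeJ d J)) (L : ℕ → Set (CodeJ d J))
    (m : ℕ) (a : CodeJ d J) (dir : Dir m ↪ J) where
  r : ℕ
  c : Fin r → CodeJ d J
  l1 : Fin r
  e : V1
  c_l1 : c l1 = a
  mem : ∀ l, c l ∈ F
  indep : ∀ (α : Fin r → ZMod 2) (v : V1), ∑ l, α l • c l = kapJ d J v → α = 0
  span : ∀ x ∈ F, ∃ (α : Fin r → ZMod 2) (v : V1), x = kapJ d J v + ∑ l, α l • c l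
  adapted : ∀ i, 1 ≤ i → i ≤ m → ∀ x ∈ L i, ∃ (α : Fin r → ZMod 2) (v : V1),
    x = kapJ d J v + ∑ l, α l • c l ∧ ∀ l, α l ≠ 0 → c l ∈ L i
  sg : Fin r → Finset (Dir m)
  sg_card : ∀ l, (sg l).card ≤ 1
  sg_l1 : sg l1 = {some none}
  sg_supp : ∀ l i, i ∉ sg l → (c l).2.2 (dir i) = 0
  suppa : a.2.2 (dir (some none)) = e

omit [Fintype J] in
/-- The basis of theorem A. -/
def _root_.Pool.Agent.SmJ.Supp.toBas {F : Set (CodeJ d J)} {L : ℕ → Set (CodeJ d J)}
    {a b : CodeJ d J} (su : Supp d F L m a b dir) : BasH d F L m a dir where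
  r := su.r
  c := su.c
  l1 := su.l1
  e := su.e
  c_l1 := su.c_l1
  mem := su.mem
  indep := su.indep
  span := su.span
  adapted := su.adapted
  sg l := if l = su.l1 then {some none} else if l = su.l0 then {none} else ∅
  sg_card l := by
    split_ifs
    · exact (card_singleton _).le
    · exact (card_singleton _).le
    · exact (card_empty).le.trans (Nat.zero_le 1)
  sg_l1 := if_pos rfl
  sg_supp l i hi := by
    rcases i with _ | _ | i
    · rw [su.suppb, if_neg]
      intro hl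
      have hl0 : l ≠ su.l1 := fun h => su.ne (hl.symm.trans h)
      rw [if_neg hl0, if_pos hl] at hi
      exact hi (mem_singleton_self _)
    · rw [su.suppa, if_neg]
      intro hl
      rw [if_pos hl] at hi
      exact hi (mem_singleton_self _)
    · exact su.supp0 _ i
  suppa := by
    have h := su.suppa su.l1
    rw [if_pos rfl, su.c_l1] at h
    exact h

omit [Fintype J] in
/-- The basis of theorem T. -/
def SuppT.toBas {F : Set (CodeJ d J)} {L : ℕ → Set (CodeJ d J)} {a w : CodeJ d J}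
    (su : SuppT d F L m a w dir) : BasH d F L m a dir where
  r := su.r
  c := su.c
  l1 := su.l1
  e := su.e
  c_l1 := su.c_l1
  mem := su.mem
  indep := su.indep
  span := su.span
  adapted := su.adapted
  sg l := if l = su.l1 then {some none} else ∅
  sg_card l := by
    split_ifs
    · exact (card_singleton _).le
    · exact (card_empty).le.trans (Nat.zero_le 1)
  sg_l1 := if_pos rfl
  sg_supp l i hi := by
    rcases i with _ | _ | i
    · exact su.suppb l
    · rw [su.suppa, if_neg]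
      intro hl
      rw [if_pos hl] at hi
      exact hi (mem_singleton_self _)
    · exact su.supp0 _ i
  suppa := by
    have h := su.suppa su.l1
    rw [if_pos rfl, su.c_l1] at h
    exact h

/-- `cc` is a basis of `FJ` modulo the torsion, adapted to the flag, `jl l` the maximal level of
`cc l`. -/
structure AdpH (S : Sys G V V1 Pl) (hS : S.Ok) (ch : k[X] → G → ZMod 2) (d : TwData k V1)
    (p : J → k[X]) (m : ℕ) {n : ℕ} (cc : Fin (n + 1) → CodeJ d J) (jl : Fin (n + 1) → ℕ) :
    Prop where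
  adp : Adapted (twJ S hS ch d p).Fs (twJ S hS ch d p).L (twJ S hS ch d p).Kp m cc
  pos : ∀ l, 1 ≤ jl l
  le : ∀ l, jl l ≤ m
  mem : ∀ l, cc l ∈ (twJ S hS ch d p).L (jl l)
  max : ∀ l, jl l < m → cc l ∉ (twJ S hS ch d p).L (jl l + 1)
  zero : jl 0 = m

/-- The subfamily of the basis which lies in `FJ`. -/
theorem exists_bas (hS : S.Ok) (hc : CodeOk S ch d p) (hm : 1 ≤ m)
    (hF : FJ S ch d p ⊆ SelpJ d p) {a : CodeJ d J}
    (su : BasH d (SelpJ d p : Set (CodeJ d J)) (LH S ch d p) m a dir)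
    (ha : a ∈ LH S ch d p m) :
    ∃ (n : ℕ) (cc : Fin (n + 1) → CodeJ d J) (jl : Fin (n + 1) → ℕ)
      (sig : Fin (n + 1) → Finset (Dir m)), 2 ^ (n + 1) ≤ Nat.card (SelpJ d p) ∧
      AdpH S hS ch d p m cc jl ∧ cc 0 = a ∧ (∀ l, cc l ∈ FJ S ch d p) ∧
      (∀ l, (sig l).card ≤ 1) ∧ sig 0 = {some none} ∧
      ∀ l i, i ∉ sig l → (cc l).2.2 (dir i) = 0 := by
  classical
  have hLF : ∀ x, x ∈ LH S ch d p 1 ↔ x ∈ FJ S ch d p := by
    intro x
    rw [mem_Lfl_iff_tw hS hc le_rfl, Tower.L_one (twJ_ok hS hc), mem_twJ_Fs]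
  have haF : a ∈ FJ S ch d p := by
    rw [← mem_twJ_Fs S hS]
    exact Tower.L_le_Fs (twJ_ok hS hc) hm ((mem_Lfl_iff_tw hS hc hm a).1 ha)
  set I : Type := {l : Fin su.r // su.c l ∈ FJ S ch d p} with hI
  have hl1 : su.c su.l1 ∈ FJ S ch d p := by
    rw [su.c_l1]
    exact haF
  let i1 : I := ⟨su.l1, hl1⟩
  obtain ⟨n, hn⟩ : ∃ n, n + 1 = Fintype.card I := ⟨Fintype.card I - 1, by
    have : 0 < Fintype.card I := Fintype.card_pos_iff.2 ⟨i1⟩
    omega⟩
  obtain ⟨e, he⟩ : ∃ e : Fin (n + 1) ≃ I, e 0 = i1 := by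
    have e0 : Fin (n + 1) ≃ I := (Fintype.equivFinOfCardEq hn.symm).symm
    exact ⟨e0.trans (Equiv.swap (e0 0) i1), by
      rw [Equiv.trans_apply, Equiv.swap_apply_left]⟩
  let cc : Fin (n + 1) → CodeJ d J := fun l => su.c (e l).1
  -- extension of coefficients by zero
  let ext : (Fin (n + 1) → ZMod 2) → Fin su.r → ZMod 2 := fun x l =>
    if h : su.c l ∈ FJ S ch d p then x (e.symm ⟨l, h⟩) else 0
  have hext : ∀ x l, ext x (e l).1 = x l := by
    intro x l
    change (if h : su.c (e l).1 ∈ FJ S ch d p then x (e.symm ⟨(e l).1, h⟩) else 0) = x l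
    rw [dif_pos (e l).2]
    congr 1
    exact e.symm_apply_apply l
  have hsumI : ∀ F : Fin su.r → CodeJ d J, (∀ l, su.c l ∉ FJ S ch d p → F l = 0) →
      ∑ l, F l = ∑ l : Fin (n + 1), F (e l).1 := by
    intro F hF0
    have h1 : ∑ l : Fin (n + 1), F (e l).1 = ∑ i : I, F i.1 := Equiv.sum_comp e (fun i => F i.1)
    have h2 : ∑ i : I, F i.1 = ∑ l ∈ univ.filter (fun l => su.c l ∈ FJ S ch d p), F l :=
      (Finset.sum_subtype (univ.filter fun l => su.c l ∈ FJ S ch d p) (by simp) F).symm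
    rw [h1, h2, sum_filter]
    refine sum_congr rfl fun l _ => ?_
    split_ifs with hl
    · rfl
    · exact hF0 l hl
  have hsum : ∀ x : Fin (n + 1) → ZMod 2, ∑ l, x l • cc l = ∑ l, ext x l • su.c l := by
    intro x
    rw [hsumI (fun l => ext x l • su.c l)]
    · exact sum_congr rfl fun l _ => by rw [hext]
    · intro l hl
      have : ext x l = 0 := dif_neg hl
      rw [this, zero_smul]
  have hcc : ∀ l, cc l ∈ FJ S ch d p := fun l => (e l).2
  have hadp : Adapted (twJ S hS ch d p).Fs (twJ S hS ch d p).L (twJ S hS ch d p).Kp m cc := by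
    refine ⟨fun l => (mem_twJ_Fs S hS ch d p _).2 (hcc l), fun x hx => ?_, fun b hb => ?_,
      fun j hj hjm x hx i hi => ?_⟩
    · obtain ⟨w, hw⟩ := (mem_twJ_Kp hS hc _).1 hx
      rw [hsum] at hw
      have h1 := su.indep _ w hw
      funext l
      rw [← hext x l, h1]
      rfl
    · have hb' := (mem_twJ_Fs S hS ch d p b).1 hb
      obtain ⟨α, w, hw, hα⟩ := su.adapted 1 le_rfl hm b ((hLF b).2 hb')
      refine ⟨fun l => α (e l).1, (mem_twJ_Kp hS hc _).2 ⟨w, ?_⟩⟩
      have h1 : ∑ l, α (e l).1 • cc l = ∑ l, α l • su.c l := by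
        rw [hsumI (fun l => α l • su.c l)]
        intro l hl
        have h2 : α l = 0 := by
          by_contra h3
          exact hl ((hLF _).1 (hα l h3))
        rw [h2, zero_smul]
      rw [h1, hw, add_sub_cancel_right]
    · have h1 : ∑ l, ext x l • su.c l ∈ LH S ch d p j := by
        rw [← hsum, mem_Lfl_iff_tw hS hc hj]
        exact hx
      obtain ⟨α, w, hw, hα⟩ := su.adapted j hj hjm _ h1
      have h2 : ∑ l, (ext x l - α l) • su.c l = kapJ d J w := by
        simp only [sub_smul, sum_sub_distrib]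
        rw [hw, add_sub_cancel_right]
      have h3 := congrFun (su.indep (fun l => ext x l - α l) w h2) (e i).1
      have h4 : x i = α (e i).1 := by
        have h5 : ext x (e i).1 - α (e i).1 = 0 := h3
        rw [hext] at h5
        exact sub_eq_zero.1 h5
      rw [← mem_Lfl_iff_tw hS hc hj]
      exact hα _ (h4 ▸ hi)
  obtain ⟨jl, f, h1, h2, h3, h4, -, h6⟩ := Tower.exists_jl (twJ_ok hS hc) hm (cc := cc) hadp.mem
  have hcc0 : cc 0 = a := by
    change su.c (e 0).1 = a
    rw [he]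
    exact su.c_l1
  refine ⟨n, cc, jl, fun l => su.sg (e l).1, ?_, ⟨hadp, h1, h2, h3, h4, ?_⟩, hcc0, hcc,
    fun l => su.sg_card _, ?_, fun l i hi => su.sg_supp _ i hi⟩
  · -- the number of elements
    have := hS.fin1
    let g : (Fin (n + 1) → ZMod 2) → SelpJ d p := fun x => ⟨∑ l, x l • cc l, by
      apply hF
      rw [← mem_twJ_Fs S hS]
      exact Submodule.sum_mem _ fun l _ => Submodule.smul_mem _ _
        ((mem_twJ_Fs S hS ch d p _).2 (hcc l))⟩
    have hg : Function.Injective g := by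
      intro x y hxy
      have e1 : ∑ l, x l • cc l = ∑ l, y l • cc l := congrArg Subtype.val hxy
      have e2 : ∑ l, (x l - y l) • cc l ∈ (twJ S hS ch d p).Kp := by
        simp only [sub_smul, sum_sub_distrib]
        rw [e1, sub_self]
        exact Submodule.zero_mem _
      have e3 := hadp.indep (fun l => x l - y l) e2
      funext l
      exact sub_eq_zero.1 (congrFun e3 l)
    have h1 := Nat.card_le_card_of_injective g hg
    rwa [Nat.card_fun, Nat.card_zmod, Nat.card_eq_fintype_card, Fintype.card_fin] at h1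
  · apply h6
    rw [hcc0, ← mem_Lfl_iff_tw hS hc hm]
    exact ha
  · change su.sg (e 0).1 = _
    rw [he]
    exact su.sg_l1

/-! ### rigid towers -/

/-- Every Selmer cocycle is the first component of a rigid one. -/
theorem exists_rigid {chi : G → ZMod 2} {i : ℕ} {Psi : G → V} (h : S.IsSel chi i Psi) :
    ∃ y, IsPr S chi i y ∧ y.1 = Psi := by
  classical
  choose Q hQ using h.loc
  refine ⟨(Psi, fun v => if v ∈ S.good then 0 else Q v), ⟨h, fun v hv s hs => ?_, fun v hv => ?_⟩,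
    rfl⟩
  · change Psi s = dl chi (if v ∈ S.good then 0 else Q v) s
    rw [if_neg hv]
    exact hQ v s hs
  · exact if_pos hv

/-- There is a rigid Selmer element of level `i` above `a ∈ LH i`. -/
theorem exists_abvH (hS : S.Ok) (hc : CodeOk S ch d p) {i : ℕ} (hi : 1 ≤ i) {a : CodeJ d J}
    (ha : a ∈ LH S ch d p i) : ∃ y, AbvH S ch d p i a y := by
  obtain ⟨Psi, h1, h2⟩ := (mem_Lfl_iff hS hc hi a).1 ha
  obtain ⟨y, hy, rfl⟩ := exists_rigid h1
  exact ⟨y, hy, h2⟩

/-! ### The type data -/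

section twr

variable [Finite k]

/-- The type data of the system `y` at the base point. -/
noncomputable def mkTwH (H : HData V M Pl) (hp : PVec d p) (dir : Dir m ↪ J) (S : Sys G V V1 Pl)
    (ch : k[X] → G → ZMod 2) (pl : k[X] → Pl) {n : ℕ} (cc : Fin (n + 1) → CodeJ d J)
    (jl : Fin (n + 1) → ℕ) (sig : Fin (n + 1) → Finset (Dir m))
    (y : Fin (n + 1) → (G → V) × (Pl → V)) : TwH G V V1 Pl M (Dir m) n where
  c l := gcode d p dir ch (cc l)
  jl := jl
  fl l g := CTr S (chiJ ch p) (y l) ((gridG d p dir S ch pl).ch g (IT2.xp hp dir))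
  sig := sig
  qd n w := q S H (chiJ ch p) m (comb y n w)

/-- The base point is of the type of `mkTwH`. -/
theorem mkTwH_sys (h : ChOk S ch d pl) (hp : PVec d p) (hd : DegOk d p dir) {n : ℕ}
    {cc : Fin (n + 1) → CodeJ d J} {jl : Fin (n + 1) → ℕ}
    {sig : Fin (n + 1) → Finset (Dir m)} {y : Fin (n + 1) → (G → V) × (Pl → V)}
    (hy : ∀ l, AbvH S ch d p (jl l) (cc l) (y l)) (kk : ℕ) :
    (mkTwH H hp dir S ch pl cc jl sig y).IsSys H (gridG d p dir S ch pl) m kk
      (IT2.xp hp dir) y where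
  tow l := by
    refine ⟨?_, fun s => ?_, fun _ g _ => ?_⟩
    · rw [chi_gridG, IT2.rx_xp]
      exact (hy l).1
    · change _ = S.iota ((gridG d p dir S ch pl).ch (gcode d p dir ch (cc l)) _ s)
      rw [ch_gridG, IT2.rx_xp]
      exact (hy l).2 s
    · rw [chi_gridG, IT2.rx_xp]
      rfl
  qdat n w _ := by
    rw [chi_gridG, IT2.rx_xp]
    rfl

theorem mkTwH_mem (h : ChOk S ch d pl) (hp : PVec d p) (hd : DegOk d p dir) {n : ℕ}
    {cc : Fin (n + 1) → CodeJ d J} {jl : Fin (n + 1) → ℕ}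
    {sig : Fin (n + 1) → Finset (Dir m)} {y : Fin (n + 1) → (G → V) × (Pl → V)}
    (hy : ∀ l, AbvH S ch d p (jl l) (cc l) (y l)) (kk : ℕ) :
    IT2.xp hp dir ∈ (mkTwH H hp dir S ch pl cc jl sig y).YH H (gridG d p dir S ch pl) m kk :=
  ⟨IT2.xp_mem h hp hd, y, mkTwH_sys h hp hd hy kk⟩

/-- `mkTwH` satisfies the hypotheses. -/
theorem mkTwH_ok (hS : S.Ok) (h : ChOk S ch d pl) (hp : PVec d p) (hd : DegOk d p dir) {n : ℕ}
    {cc : Fin (n + 1) → CodeJ d J} {jl : Fin (n + 1) → ℕ}
    {sig : Fin (n + 1) → Finset (Dir m)} (y : Fin (n + 1) → (G → V) × (Pl → V))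
    (hA : AdpH S hS ch d p m cc jl) (hF : ∀ l, cc l ∈ FJ S ch d p)
    (hs1 : ∀ l, (sig l).card ≤ 1) (hs2 : ∀ l i, i ∉ sig l → (cc l).2.2 (dir i) = 0) :
    (mkTwH H hp dir S ch pl cc jl sig y).Ok (gridG d p dir S ch pl) m where
  c_mem l := by
    change gcode d p dir ch (cc l) ∈ _
    rw [gcode_mem_FF h hp hd hS (IT2.xp_mem (S := S) h hp hd), IT2.rx_xp]
    exact hF l
  jl_pos := hA.pos
  jl_le := hA.le
  jl_zero := hA.zero
  sig_card := hs1
  supp := hs2

end twr

end Pool.Agent.SmH
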