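import Pool.Agent.Lib.SmH.I.BdD
import Pool.Agent.Lib.SmH.I.TypeH
import Pool.Agent.Lib.SmH.I.FrameR
import Pool.Agent.Lib.SmJ.I.GridThm

/-!
# HEIGHTS, block I: from the sums over vectors of primes to the sums over the grid

`finsum_gridP`: the sum over the vectors of primes with a property which implies `SymEq` is a sum over
the grid. `sum_sign_bound`: the final estimate. `nah_le`, `nth_le`: trivial bounds.
-/

set_option autoImplicit false

open Polynomial Finset

namespace Pool.Agent.SmH

open Pool.Agent.Sm (leg Irr Dir repl repl_dir repl_off N0 Q.irr_finite)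

open Pool.Agent.SmJ Pool.Agent.SmJ.IT

variable {k : Type} [Field k] {V1 : Type} [AddCommGroup V1] [Module (ZMod 2) V1]
  {d : TwData k V1} {J : Type} [Fintype J] {m : ℕ} {p : J → k[X]} {dir : Dir m ↪ J}

theorem symEq_symm' {p p' : J → k[X]} (h : SymEq d p p') : SymEq d p' p := by
  constructor
  · exact fun j => (h.deg j).symm
  · exact fun j l => (h.ell j l).symm
  · exact fun j j' => (h.sym j j').symm

open Classical in
/-- The sum over the vectors of primes with the property `P` as a sum over the grid. -/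
theorem finsum_gridP [Finite k] [∀ i, Fintype (XG d p dir i)] (P : (J → k[X]) → Prop)
    (hP : ∀ q, P q → SymEq d q p) (f : (J → k[X]) → ℝ) :
    ∑ᶠ x : (i : Dir m) → Irr k (p (dir i)).natDegree,
        (if P (repl p dir fun i => (x i).1) then f (repl p dir fun i => (x i).1) else 0) =
      ∑ x : ∀ i, XG d p dir i, if P (rx d p dir x) then f (rx d p dir x) else 0 := by
  have : ∀ i, Finite (Irr k (p (dir i)).natDegree) := fun i => (Q.irr_finite _).to_subtype
  let _ := Fintype.ofFinite ((i : Dir m) → Irr k (p (dir i)).natDegree)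
  rw [finsum_eq_sum_of_fintype, ← sum_filter, ← sum_filter]
  symm
  refine sum_bij (fun x _ => fun i => (x i).1) ?_ ?_ ?_ ?_
  · intro x hx
    rw [mem_filter] at hx ⊢
    exact ⟨mem_univ _, hx.2⟩
  · intro x _ y _ hxy
    funext i
    exact Subtype.ext (congrFun hxy i)
  · intro y hy
    rw [mem_filter] at hy
    have h := hP _ hy.2
    refine ⟨fun i => ⟨y i, fun l => ?_, fun j hj => ?_⟩, ?_, rfl⟩
    · have h1 := h.ell (dir i) l
      rw [repl_dir] at h1
      exact h1
    · have h1 := h.sym (dir i) j
      rw [repl_dir, repl_off _ _ _ hj] at h1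
      exact h1
    · rw [mem_filter]
      exact ⟨mem_univ _, hy.2⟩
  · intro x _
    rfl

variable {G V Pl M : Type} [Group G] [AddCommGroup V] [DistribMulAction G V]
  [AddCommGroup M] [DistribMulAction G M]
variable {S : Sys G V V1 Pl} {H : HData V M Pl} {ch : k[X] → G → ZMod 2} {pl : k[X] → Pl}

/-- A sum of signs over a finite subtype of the rigid Selmer elements. -/
theorem abs_finsum_le {α : Type} [Finite α] (f : α → ℝ) (hf : ∀ x, |f x| ≤ 1) :
    |∑ᶠ x, f x| ≤ Nat.card α := by
  have := Fintype.ofFinite α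
  rw [finsum_eq_sum_of_fintype, Nat.card_eq_fintype_card]
  refine (abs_sum_le_sum_abs _ _).trans ?_
  calc ∑ x, |f x| ≤ ∑ x : α, (1 : ℝ) := sum_le_sum fun x _ => hf x
    _ = Fintype.card α := by rw [sum_const, card_univ, nsmul_eq_mul, mul_one]

theorem nah_le (j : ℕ) (a b : CodeJ d J)
    (hfin : Finite {y : (G → V) × (Pl → V) // IsPr S (chiJ ch p) j y}) :
    |NAH S H ch d p j a b| ≤ Nat.card {y : (G → V) × (Pl → V) // IsPr S (chiJ ch p) j y} := by
  let f : {y : (G → V) × (Pl → V) // AbvH S ch d p j a y ∧ q S H (chiJ ch p) j y = 0} →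
      {y : (G → V) × (Pl → V) // IsPr S (chiJ ch p) j y} := fun y => ⟨y.1, y.2.1.1⟩
  have hf : Function.Injective f := fun y y' h => Subtype.ext (congrArg (fun z => z.1) h)
  have : Finite {y : (G → V) × (Pl → V) // AbvH S ch d p j a y ∧
      q S H (chiJ ch p) j y = 0} := Finite.of_injective f hf
  unfold NAH
  refine (abs_finsum_le _ fun y => ?_).trans (by exact_mod_cast Nat.card_le_card_of_injective f hf)
  rw [abs_pow, abs_neg, abs_one, one_pow]

theorem nth_le (j : ℕ) (a : CodeJ d J)
    (hfin : Finite {y : (G → V) × (Pl → V) // IsPr S (chiJ ch p) (j + 1) y}) :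
    |NTH S H ch d p j a| ≤
      Nat.card {y : (G → V) × (Pl → V) // IsPr S (chiJ ch p) (j + 1) y} := by
  let f : {y : (G → V) × (Pl → V) // AbvH S ch d p (j + 1) a y ∧
      q S H (chiJ ch p) j ((2 : ℕ) • y) = 0} →
      {y : (G → V) × (Pl → V) // IsPr S (chiJ ch p) (j + 1) y} := fun y => ⟨y.1, y.2.1.1⟩
  have hf : Function.Injective f := fun y y' h => Subtype.ext (congrArg (fun z => z.1) h)
  have : Finite {y : (G → V) × (Pl → V) // AbvH S ch d p (j + 1) a y ∧
      q S H (chiJ ch p) j ((2 : ℕ) • y) = 0} := Finite.of_injective f hf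
  unfold NTH
  refine (abs_finsum_le _ fun y => ?_).trans (by exact_mod_cast Nat.card_le_card_of_injective f hf)
  split_ifs <;> simp

theorem sign_eq' (x : ZMod 2) : (-1 : ℝ) ^ x.val = if x = 0 then 1 else -1 := by
  have key : x = 0 ∨ x = 1 := by
    revert x
    decide
  rcases key with rfl | rfl
  · simp
  · have : (1 : ZMod 2).val = 1 := rfl
    rw [this, pow_one, if_neg (by decide)]

end Pool.Agent.SmH
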