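import Pool.Agent.Lib.SmH.I.FrameR
import Pool.Agent.Lib.SmH.G.ExW

/-!
# HEIGHTS, block I: the code `w` of theorem T over the grid

If `condJ d p w l = deg (p l) • a_l` for the vector `p`, then the local conditions of 4.2 hold at all
the points of `X^*`.
-/

set_option autoImplicit false

open Finset

namespace Pool.Agent.SmH

open Pool.Agent.SmJ Pool.Agent.SmJ.IT Pool.Agent.SmJ.Grid
open Pool.Agent.Sm (leg Irr Dir repl repl_dir repl_off N0)
open Polynomial

variable {k : Type} [Field k] [Finite k] {V1 : Type} [AddCommGroup V1] [Module (ZMod 2) V1]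
  {d : TwData k V1} {J : Type} [Fintype J] {m : ℕ} {p : J → k[X]}
  {dir : Dir m ↪ J}
variable {G V Pl : Type} [Group G] [AddCommGroup V] [DistribMulAction G V]
variable {S : Sys G V V1 Pl} {ch : k[X] → G → ZMod 2} {pl : k[X] → Pl}

/-- The explicit conditions of the code `w` hold at all the points of `X^*`. -/
theorem wcond_grid (h : ChOk S ch d pl) (hp : PVec d p) (hd : DegOk d p dir)
    {a w : CodeJ d J} (hw : ∀ l, condJ d p w l = (p l).natDegree • a.2.2 l)
    {x : ∀ i, XG d p dir i} (hx : x ∈ (gridG d p dir S ch pl).Xs) :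
    ∀ l, condJ d (rx d p dir x) w l = (rx d p dir x l).natDegree • a.2.2 l := by
  intro l
  have h1 := (mem_Xs h hp hd x).1 hx
  rw [condJ_congr h.two (pvec_rx hp hd x) hp h1, hw l, h1.deg]

/-- The local conditions of the code `w` at all the points of `X^*`. -/
theorem wcode_grid (hS : S.Ok) (h : ChOk S ch d pl) (hp : PVec d p) (hd : DegOk d p dir)
    {deg : Pl → ℕ} (hdeg : ∀ P : k[X], P.Monic → Irreducible P → deg (pl P) = P.natDegree)
    {a w : CodeJ d J} (hw : ∀ l, condJ d p w l = (p l).natDegree • a.2.2 l)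
    {x : ∀ i, XG d p dir i} (hx : x ∈ (gridG d p dir S ch pl).Xs) :
    ∀ v ∈ S.good, S.loc v ((gridG d p dir S ch pl).ch (gcode d p dir ch w) x) -
      (0, (deg v : ZMod 2) • (gridG d p dir S ch pl).ch (gcode d p dir ch a) x (S.sg v)) ∈
        S.Wl ((gridG d p dir S ch pl).chi x) v := by
  rw [chi_gridG, ch_gridG, ch_gridG]
  exact ExW.wcode_loc hS h (pvec_rx hp hd x) hdeg (wcond_grid h hp hd hw hx)

end Pool.Agent.SmH
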