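import Pool.Agent.Lib.SmH.I.FinH
import Pool.Agent.Lib.SmH.I.FinS
import Pool.Agent.Lib.SmH.I.ClaimT
import Pool.Agent.Lib.SmH.I.WGrid
import Pool.Agent.Lib.SmH.L.BasH

/-!
# HEIGHTS, block I: Theorem T over a vector of primes

`GenT`: what is needed from the generation of the rigid Selmer elements by the towers.
`nth_zero_of_typ`: if no element `yp` of level `m + 1` above `a` has `q m (2 yp) = 0`, then
`NTH = 0` on the whole class. `gridThmT_of`: Theorem T.
-/

set_option autoImplicit false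

open Polynomial Finset

namespace Pool.Agent.SmH

open Pool.Agent.Sm (leg Irr Dir repl repl_dir repl_off N0 ChebOdd Q.irr_finite)

open Pool.Agent.SmJ Pool.Agent.SmJ.IT

variable {k : Type} [Field k] {V1 : Type} [AddCommGroup V1] [Module (ZMod 2) V1]
variable {G V Pl M : Type} [Group G] [AddCommGroup V] [DistribMulAction G V]
  [AddCommGroup M] [DistribMulAction G M]

/-- The sign of `q (k + 1)` of the lifts of the tower of `a` does not depend on the choices. -/
def WdT {S : Sys G V V1 Pl} {ι : Type} [Fintype ι] {X : ι → Type} {r : ℕ}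
    (τ : TwH G V V1 Pl M ι r) (H : HData V M Pl) (Γ : Grid S X) (k : ℕ) : Prop :=
  ∀ x ∈ τ.YH H Γ k (k + 1), ∀ y y', τ.IsSys H Γ k (k + 1) x y →
    τ.IsSys H Γ k (k + 1) x y' → ∀ yp yp', TwH.IsUp S (Γ.chi x) k (y 0) yp →
    TwH.IsUp S (Γ.chi x) k (y' 0) yp' →
    (q S H (Γ.chi x) (k + 1) yp = 0 ↔ q S H (Γ.chi x) (k + 1) yp' = 0)

/-- The generation part for theorem T, as a statement. -/
def GenT (S : Sys G V V1 Pl) (hS : S.Ok) (H : HData V M Pl) (ch : k[X] → G → ZMod 2)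
    (d : TwData k V1) (pl : k[X] → Pl) (m : ℕ) : Prop :=
  ∀ (J : Type) (_ : Fintype J) (p : J → k[X]) (dir : Dir m ↪ J) (hp : PVec d p), DegOk d p dir →
    ∀ (n : ℕ) (cc : Fin (n + 1) → CodeJ d J) (jl : Fin (n + 1) → ℕ)
      (sig : Fin (n + 1) → Finset (Dir m)) (y : Fin (n + 1) → (G → V) × (Pl → V)),
      AdpH S hS ch d p m cc jl → (∀ l, cc l ∈ FJ S ch d p) →
      (∀ l, AbvH S ch d p (jl l) (cc l) (y l)) →
      (∃ yp, IsPr S (chiJ ch p) (m + 1) yp ∧ (2 : ℕ) • yp = y 0) →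
      q S H (chiJ ch p) m (y 0) = 0 →
      (∀ x, x ∈ (mkTwH H hp dir S ch pl cc jl sig y).YH H (gridG d p dir S ch pl) m (m + 1) ↔
        TypEqH S H ch d m m p (rx d p dir x)) ∧
      ∃ N0 : ℝ,
        (∀ x ∈ (mkTwH H hp dir S ch pl cc jl sig y).YH H (gridG d p dir S ch pl) m (m + 1),
          NTH S H ch d (rx d p dir x) m (cc 0) =
            (-1) ^ ((mkTwH H hp dir S ch pl cc jl sig y).FT H (gridG d p dir S ch pl) m
              (m + 1) x).val * N0) ∧
        (N0 ≠ 0 → WdT (mkTwH H hp dir S ch pl cc jl sig y) H (gridG d p dir S ch pl) m)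

section zero

variable [Finite k] {d : TwData k V1} {J : Type} [Fintype J] {m : ℕ} {p p' : J → k[X]}
variable {S : Sys G V V1 Pl} {H : HData V M Pl} {ch : k[X] → G → ZMod 2} {pl : k[X] → Pl}

/-- If at `p` no element `yp` of level `m + 1` above `a` has `q m (2 yp) = 0`, then `NTH = 0` at all
the vectors of the class. -/
theorem nth_zero_of_typ (hS : S.Ok) (h : ChOk S ch d pl) (hp : PVec d p) (hp' : PVec d p')
    (hm : 1 ≤ m) (hT : TypEqH S H ch d m m p p') {a : CodeJ d J}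
    (hno : ¬ ∃ yp, AbvH S ch d p (m + 1) a yp ∧ q S H (chiJ ch p) m ((2 : ℕ) • yp) = 0) :
    NTH S H ch d p' m a = 0 := by
  have : IsEmpty {y : (G → V) × (Pl → V) // AbvH S ch d p' (m + 1) a y ∧
      q S H (chiJ ch p') m ((2 : ℕ) • y) = 0} := by
    refine ⟨fun ⟨y', hy', hq'⟩ => hno ?_⟩
    obtain ⟨hsym, Th, hTh⟩ := hT
    have hchi : S.HomG (chiJ ch p) := Code.homG_chiJ hS h hp
    have hchi' : S.HomG (chiJ ch p') := Code.homG_chiJ hS h hp'
    have hm1 : 2 ^ (m + 1 - 1) = 2 ^ (m - 1) * 2 := by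
      obtain ⟨m, rfl⟩ := Nat.exists_eq_add_of_le' hm
      rw [Nat.add_sub_cancel, Nat.add_sub_cancel, pow_succ]
    have h2 : IsPr S (chiJ ch p') m ((2 : ℕ) • y') := hy'.1.two
    obtain ⟨y, hy⟩ := hTh.right _ h2
    have h3 : IsPr S (chiJ ch p) m y := (hTh.lev _ _ hy m le_rfl).2 h2
    have h4 : AbvH S ch d p' m a ((2 : ℕ) • y') := ⟨h2, fun s => by
      rw [← hy'.2 s, hm1, mul_smul]
      rfl⟩
    have h5 : AbvH S ch d p m a y := (hTh.top _ _ hy m hm le_rfl a).2 h4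
    obtain ⟨yp, h6, h7⟩ := (ctr_crit hS hchi h3).2 fun b hb => by
      obtain ⟨c, hc, rfl⟩ := exists_code_of_isRel hS h hp hb
      rw [← hTh.pair _ _ hy h3 c hc]
      refine (ctr_crit hS hchi' h2).1 ⟨y', hy'.1, rfl⟩ _ ?_
      rw [isRel_homJ_iff hS h hp', ← selpJ_congr h.two hp hp' hsym]
      exact hc
    refine ⟨yp, ⟨h6, fun s => ?_⟩, ?_⟩
    · rw [← h5.2 s, ← h7, hm1, mul_smul]
      rfl
    · rw [h7, ← hTh.qq _ _ hy h3, hq']
  unfold NTH
  exact finsum_of_isEmpty _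

end zero

/-- **Theorem T.** -/
theorem gridThmT_of [Finite k] {S : Sys G V V1 Pl} {H : HData V M Pl} {ch : k[X] → G → ZMod 2}
    {d : TwData k V1} {pl : k[X] → Pl} (hS : S.Ok) (hH : HOk S H) (hR : S.RecipM H.j)
    (h : ChOk S ch d pl)
    (hdeg : ∀ P : k[X], P.Monic → Irreducible P → H.deg (pl P) = P.natDegree) {a0 C : ℕ}
    (hC : ChebOdd S.NN (fun P => S.sg (pl P)) (fun P => S.phi (pl P)) (Nat.card k) a0 C)
    (m : ℕ) (hm : 1 ≤ m) (hG : GenT S hS H ch d pl m) : GridThmT S H ch d m := by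
  classical
  intro R η hη
  have := hS.fin1
  have hcV : 0 < Nat.card V1 := Nat.card_pos
  obtain ⟨B, hB0, hB⟩ := exists_bd hS
  -- the bound for `NTH`
  set Bd : ℕ := (2 ^ R) ^ (m + 1) * (Nat.card V1 ^ (m + 1) * B) ^ nBad hS with hBd
  obtain ⟨n₀, hn₀⟩ := fin_core (H := H) hS h hC m hm R Bd (Nat.cast_nonneg _) η hη
  refine ⟨n₀, fun J _ p a w dir hp hn hJ hdg hdist h4 hF hw hsu ha => ?_⟩
  obtain ⟨su⟩ := hsu
  obtain ⟨hd, hmain⟩ := hn₀ J _ p dir hp hn hJ hdg hdist (h4 none) hF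
  have hne : Nonempty J := ⟨dir none⟩
  have hcp : CodeOk S ch d p := Code.codeOk hS h hp
  have hchi : S.HomG (chiJ ch p) := hcp.chi
  have hT : ∀ q, TypEqH S H ch d m m p q → SymEq d p q := fun q hq => hq.1
  -- no lift with `q m (2 yp) = 0`
  by_cases hex : ∃ yp, AbvH S ch d p (m + 1) a yp ∧ q S H (chiJ ch p) m ((2 : ℕ) • yp) = 0
  swap
  · have hfI : ∀ D : ℕ, Finite (Irr k D) := fun D => (Q.irr_finite _).to_subtype
    let _ : ∀ i, Fintype (XG d p dir i) := fun i => Fintype.ofFinite _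
    rw [finsum_gridH hT (fun q => NTH S H ch d q m a), sum_eq_zero, abs_zero]
    · positivity
    · intro x hx
      exact nth_zero_of_typ hS h hp (pvec_rx hp hd x) hm (mem_filter.1 hx).2 hex
  obtain ⟨yp, hyp, hq0⟩ := hex
  have haM : a ∈ LH S ch d p m := Lfl_anti hS hcp hm (Nat.le_succ m) ha
  obtain ⟨n, cc, jl, sig, hn1, hA, hcc0, hccF, hs1, -, hs2⟩ := exists_bas hS hcp hm
    (Code.FJ_sub_SelpJ hS h hp) su.toBas haM
  have hnR : n + 1 ≤ R := (Nat.pow_le_pow_iff_right (by norm_num)).1 (hn1.trans hF)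
  -- the codes of the relaxed group
  have hfr : ∀ x ∈ SelpJ d p, ∃ v : V1, ∀ i, i ≠ some none → x.2.2 (dir i) = v := by
    intro x hx
    obtain ⟨α, v, hv⟩ := su.span x hx
    refine ⟨v, fun i hi => ?_⟩
    have h0 : ∀ l, (su.c l).2.2 (dir i) = 0 := by
      intro l
      rcases i with _ | _ | i
      · exact su.suppb l
      · exact absurd rfl hi
      · exact su.supp0 l i
    rw [hv]
    have e1 : (kapJ d J v + ∑ l, α l • su.c l).2.2 (dir i) =
        v + ∑ l, α l • (su.c l).2.2 (dir i) := by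
      rw [Prod.snd_add, Prod.snd_add, Pi.add_apply, Prod.snd_sum, Prod.snd_sum, Finset.sum_apply]
      rfl
    rw [e1, sum_eq_zero fun l _ => by rw [h0 l, smul_zero], add_zero]
  have hs2' : ∀ l i, i ∉ ({some none} : Finset (Dir m)) → (cc l).2.2 (dir i) = 0 := by
    intro l i hi
    obtain ⟨v, hv⟩ := hfr (cc l) (Code.FJ_sub_SelpJ hS h hp (hccF l))
    have hi' : i ≠ some none := fun hc => hi (mem_singleton.2 hc)
    rw [hv i hi']
    -- one of two other directions is not in `sig l`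
    have hex : ∃ i0 : Dir m, i0 ≠ some none ∧ i0 ∉ sig l := by
      by_contra hc
      push Not at hc
      have e1 := hc none (by simp)
      have e2 := hc (some (some ⟨0, hm⟩)) (by simp)
      have e3 := card_le_one.1 (hs1 l) _ e1 _ e2
      exact absurd e3 (by simp)
    obtain ⟨i0, h1, h2⟩ := hex
    rw [← hv i0 h1]
    exact hs2 l i0 h2
  -- the towers
  have hy0 : AbvH S ch d p (jl 0) (cc 0) ((2 : ℕ) • yp) := by
    rw [hA.zero, hcc0]
    refine ⟨hyp.1.two, fun s => ?_⟩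
    rw [← hyp.2 s]
    have hm1 : 2 ^ (m + 1 - 1) = 2 ^ (m - 1) * 2 := by
      obtain ⟨m, rfl⟩ := Nat.exists_eq_add_of_le' hm
      rw [Nat.add_sub_cancel, Nat.add_sub_cancel, pow_succ]
    rw [hm1, mul_smul]
    rfl
  have hmem : ∀ l, ∃ y, AbvH S ch d p (jl l) (cc l) y ∧ (l = 0 → y = (2 : ℕ) • yp) := by
    intro l
    by_cases hl : l = 0
    · subst hl
      exact ⟨_, hy0, fun _ => rfl⟩
    · obtain ⟨y, hy⟩ := exists_abvH hS hcp (hA.pos l)
        ((mem_Lfl_iff_tw hS hcp (hA.pos l) _).2 (hA.mem l))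
      exact ⟨y, hy, fun hh => absurd hh hl⟩
  choose y hy hyz using hmem
  have hy00 : y 0 = (2 : ℕ) • yp := hyz 0 rfl
  set Γ := gridG d p dir S ch pl with hΓdef
  have hΓ : Γ.Ok := gridG_ok h hp hd hS
  have hxp : IT2.xp hp dir ∈ Γ.Xs := IT2.xp_mem h hp hd
  set τ := mkTwH H hp dir S ch pl cc jl (fun _ => {some none}) y with hτdef
  have hτ : τ.Ok Γ m := mkTwH_ok hS h hp hd y hA hccF (fun l => (card_singleton _).le) hs2'
  obtain ⟨hY, N0', hN0, hwd⟩ := hG J _ p dir hp hd n cc jl (fun _ => {some none}) y hA hccF hy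
    ⟨yp, hyp.1, hy00.symm⟩ (by rw [hy00]; exact hq0)
  -- the bound for `N0'`
  have hN0le : |N0'| ≤ Bd := by
    have h1 := hN0 _ (mkTwH_mem (H := H) (pl := pl) h hp hd hy (m + 1))
    rw [IT2.rx_xp] at h1
    obtain ⟨g1, g2⟩ := card_RS_le hS h hp hB hF (m + 1)
    have h2 := nth_le (H := H) m (cc 0) g1
    rw [h1, abs_mul, abs_pow, abs_neg, abs_one, one_pow, one_mul] at h2
    refine h2.trans ?_
    rw [hBd]
    exact_mod_cast g2
  have hwe : (gcode d p dir ch w).2 none = su.e' := su.wb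
  refine hmain n τ (m + 1) (by omega) hτ rfl (τ.FT H Γ m (m + 1)) su.e' ?_
    (fun q => TypEqH S H ch d m m p q) (fun q => NTH S H ch d q m a) N0' hN0le (fun hN => ?_) hY
    hT (fun x hx => ?_)
  · rw [h.e_eq]
    change d.e ((cc 0).2.2 (dir (some none))) su.e' = 1
    rw [hcc0, su.toBas.suppa]
    exact su.pair
  · rw [← hwe]
    refine IC.claimT hS hH hR hΓ (wc := gcode d p dir ch w) ?_ hm
    refine ⟨hτ, fun l => Subset.refl _, fun c hc => ?_, fun c hc => ?_, ?_, isC_gcode h hp hS w,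
      fun i hi => ?_, fun x hx => ?_, hwd hN⟩
    · obtain ⟨c', rfl⟩ := exists_gcode h hp hS hc.1
      exact hfr c' ((gcode_mem_FR h hp hd hS hxp c').1 hc)
    · change CTr S (chiJ ch p) (y 0) (Γ.ch c (IT2.xp hp dir)) = 0
      have h1 : IsRel S (Γ.chi (IT2.xp hp dir)) (Γ.ch c (IT2.xp hp dir)) := hc.2 _ hxp
      rw [hΓdef, chi_gridG, IT2.rx_xp] at h1
      have h2 := (hy 0).1
      rw [hA.zero] at h2
      exact (ctr_crit hS hchi h2).1 ⟨yp, hyp.1, hy00.symm⟩ _ h1
    · change q S H (chiJ ch p) m (comb y (Pi.single 0 1) 0) = 0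
      have h2 : comb y (Pi.single 0 1) 0 = y 0 := by
        unfold comb
        rw [sum_eq_single (0 : Fin (n + 1))]
        · rw [Pi.single_eq_same, one_smul]
          exact add_zero _
        · intro l _ hl
          rw [Pi.single_eq_of_ne hl, zero_smul]
        · intro hn
          exact absurd (mem_univ _) hn
      rw [h2, hy00]
      exact hq0
    · change w.2.2 (dir i) = 0
      rcases i with _ | _ | i
      · exact absurd rfl hi
      · exact su.wa
      · exact su.w0 i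
    · change ∀ v ∈ S.good, S.loc v (Γ.ch (gcode d p dir ch w) x) -
        (0, (H.deg v : ZMod 2) • Γ.ch (gcode d p dir ch (cc 0)) x (S.sg v)) ∈ S.Wl (Γ.chi x) v
      rw [hcc0]
      exact wcode_grid hS h hp hd hdeg hw hx
  · rw [← hcc0]
    exact hN0 x hx

end Pool.Agent.SmH
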