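import Pool.Agent.Lib.SmH.I.GenA
import Pool.Agent.Lib.SmH.I.Few17
import Pool.Agent.Lib.SmH.I.ThmT
import Pool.Agent.Lib.SmH.L.LevelH

/-!
# HEIGHTS, block I_gen: the exported statements `GenT` and `EqvH`
-/

set_option autoImplicit false

open Polynomial Finset

namespace Pool.Agent.SmH

open Pool.Agent.Sm (leg Irr Dir repl repl_dir repl_off N0)

open Pool.Agent.SmJ

variable {k : Type} [Field k] {G V V1 Pl M : Type} [Group G] [AddCommGroup V]
  [DistribMulAction G V] [AddCommGroup V1] [Module (ZMod 2) V1] [AddCommGroup M]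
  [DistribMulAction G M]
variable {S : Sys G V V1 Pl} {H : HData V M Pl} {ch : k[X] → G → ZMod 2} {d : TwData k V1}
  {pl : k[X] → Pl}

/-- The generation part of theorem T. -/
theorem genT_holds [Finite k] (hS : S.Ok) (hH : HOk S H) (hc : ChOk S ch d pl) {m : ℕ}
    (hm : 1 ≤ m) : GenT S hS H ch d pl m := by
  intro J _ p dir hp hd n cc jl sig y hA _ hy hyp hq0
  obtain ⟨yp, hyp1, hyp2⟩ := hyp
  have hyp' : AbvH S ch d p (m + 1) (cc 0) yp := by
    refine ⟨hyp1, fun s => ?_⟩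
    have h1 := (hy 0).2 s
    rw [hA.zero, ← hyp2, Prod.smul_fst, Pi.smul_apply, smul_smul, ← pow_succ,
      Nat.sub_add_cancel hm] at h1
    rw [Nat.add_sub_cancel]
    exact h1
  obtain ⟨h1, N0, -, h2, h3⟩ := genT hS hH hc hp hd hm hA hy hyp' hyp2.symm hq0 (sig := sig)
  exact ⟨h1, N0, h2, h3⟩

/-- `TypEqH` is an equivalence relation. -/
theorem eqvH [Finite k] (hS : S.Ok) (hc : ChOk S ch d pl) {j jp : ℕ} (hjp : jp ≤ j) :
    EqvH S H ch d j jp where
  refl _ _ _ p _ := typEqH_refl S H ch d j jp p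
  symm _ _ _ _ _ hp hp' h := typEqH_symm hS hc hp hp' hjp h
  trans _ _ _ _ _ _ hp hp' _ h h' := typEqH_trans hS hc hp hp' hjp h h'

end Pool.Agent.SmH
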