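import Pool.Agent.Lib.SmH.I.FinS
import Pool.Agent.Lib.SmH.I.ClaimA
import Pool.Agent.Lib.SmH.I.NumH
import Pool.Agent.Lib.SmH.I.Core.InvB

/-!
# HEIGHTS, block I: Theorem A over a vector of primes
-/

set_option autoImplicit false

open Polynomial Finset

namespace Pool.Agent.SmH

open Pool.Agent.Sm (leg Irr Dir repl repl_dir repl_off N0 ChebOdd Q.irr_finite)

open Pool.Agent.SmJ Pool.Agent.SmJ.IT

variable {k : Type} [Field k] {V1 : Type} [AddCommGroup V1] [Module (ZMod 2) V1]
variable {G V Pl M : Type} [Group G] [AddCommGroup V] [DistribMulAction G V]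
  [AddCommGroup M] [DistribMulAction G M]

section selp

variable {d : TwData k V1} {J : Type} [Fintype J] {p : J → k[X]}

private theorem thmA_condJ_add (a b : CodeJ d J) (j : J) : condJ d p (a + b) j = condJ d p a j + condJ d p b j := by
  simp only [condJ, Prod.fst_add, Prod.snd_add, Pi.add_apply, map_add]
  have e1 : ∀ (s : ZMod 2) (x y z w : V1),
      s • (x + y + (z + w)) = s • (x + z) + s • (y + w) := by
    intro s x y z w
    rw [← smul_add]
    congr 1
    abel
  simp only [e1, Finset.sum_add_distrib]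
  abel

/-- `SelpJ` as a subspace. -/
private def thmA_SelpM (d : TwData k V1) {J : Type} [Fintype J] (p : J → k[X]) :
    Submodule (ZMod 2) (CodeJ d J) where
  carrier := SelpJ d p
  add_mem' := fun {a b} ha hb j => by rw [thmA_condJ_add, ha j, hb j, add_zero]
  zero_mem' := fun j => by simp [condJ]
  smul_mem' := by
    intro s a ha j
    have h : condJ d p (s • a) j = s • condJ d p a j := by
      simp only [condJ, Prod.smul_fst, Prod.smul_snd, Pi.smul_apply, map_smul, smul_add,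
        Finset.smul_sum, smul_comm s]
    rw [h, ha j, smul_zero]

end selp

open Classical in
/-- The generation part for theorem A, as a statement. -/
def GenA (S : Sys G V V1 Pl) (hS : S.Ok) (H : HData V M Pl) (ch : k[X] → G → ZMod 2)
    (d : TwData k V1) (pl : k[X] → Pl) (m : ℕ) : Prop :=
  ∀ (J : Type) (_ : Fintype J) (p : J → k[X]) (dir : Dir m ↪ J) (hp : PVec d p), DegOk d p dir →
    ∀ (n : ℕ) (cc : Fin (n + 1) → CodeJ d J) (jl : Fin (n + 1) → ℕ)
      (sig : Fin (n + 1) → Finset (Dir m)) (y : Fin (n + 1) → (G → V) × (Pl → V)),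
      AdpH S hS ch d p m cc jl → (∀ l, cc l ∈ FJ S ch d p) →
      (∀ l, AbvH S ch d p (jl l) (cc l) (y l)) → ∀ b ∈ SelpJ d p,
      (∀ x, x ∈ (mkTwH H hp dir S ch pl cc jl sig y).YH H (gridG d p dir S ch pl) m m ↔
        TypEqH S H ch d m (m - 1) p (rx d p dir x)) ∧
      ∃ N0 : ℝ, (∀ x ∈ (mkTwH H hp dir S ch pl cc jl sig y).YH H (gridG d p dir S ch pl) m m,
          NAH S H ch d (rx d p dir x) m (cc 0) b =
            (-1) ^ ((mkTwH H hp dir S ch pl cc jl sig y).FA H (gridG d p dir S ch pl) m m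
              (gcode d p dir ch b) x).val * N0) ∧
        (N0 ≠ 0 → IC.Wd (mkTwH H hp dir S ch pl cc jl sig y) H (gridG d p dir S ch pl) m m
          (gcode d p dir ch b))

theorem gridThmA_of [Finite k] {S : Sys G V V1 Pl} {H : HData V M Pl} {ch : k[X] → G → ZMod 2}
    {d : TwData k V1} {pl : k[X] → Pl} (hS : S.Ok) (h : ChOk S ch d pl) {a0 C : ℕ}
    (hC : ChebOdd S.NN (fun P => S.sg (pl P)) (fun P => S.phi (pl P)) (Nat.card k) a0 C)
    (m : ℕ) (hm : 1 ≤ m) (h31 : ZeroQ S H (Option (Option (Fin m))))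
    (hG : GenA S hS H ch d pl m) : GridThmA S H ch d m := by
  classical
  intro R η hη
  have := hS.fin1
  have hcV : 0 < Nat.card V1 := Nat.card_pos
  obtain ⟨B, hB0, hB⟩ := exists_bd hS
  obtain ⟨L, hL0, hL⟩ := exists_L hS m
  -- the number of colours
  set K : ℕ := (Nat.card V1 ^ m) ^ ((R + 1) * (m + 2)) * L ^ (R + 1) with hK
  have hK0 : 0 < K := by positivity
  -- the bound for `NAH`
  set Bd : ℕ := (2 ^ R) ^ m * (Nat.card V1 ^ m * B) ^ nBad hS + 1 with hBd
  have hBd0 : (0 : ℝ) < Bd := by positivity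
  obtain ⟨n₀, hn₀⟩ := grid_thm_core hS h hC m hm R K hK0 (η / Bd) (by positivity)
  refine ⟨n₀, fun J _ p a b dir hp hn hJ hdeg hdist h4 hF hsu ha => ?_⟩
  obtain ⟨su⟩ := hsu
  obtain ⟨hd, hmain⟩ := hn₀ J _ p dir hp hn hJ hdeg hdist (h4 none) hF
  have hne : Nonempty J := ⟨dir none⟩
  have hcp : CodeOk S ch d p := Code.codeOk hS h hp
  obtain ⟨n, cc, jl, sig, hn1, hA, hcc0, hccF, hs1, hs0, hs2⟩ := exists_bas hS hcp hm
    (Code.FJ_sub_SelpJ hS h hp) su.toBas ha
  have hnR : n + 1 ≤ R := (Nat.pow_le_pow_iff_right (by norm_num)).1 (hn1.trans hF)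
  have hmem : ∀ l, ∃ y, AbvH S ch d p (jl l) (cc l) y := fun l =>
    exists_abvH hS hcp (hA.pos l) ((mem_Lfl_iff_tw hS hcp (hA.pos l) _).2 (hA.mem l))
  choose y hy using hmem
  -- the right code
  have hbdir : ∀ i, b.2.2 (dir i) = ∑ l, su.β l • (su.c l).2.2 (dir i) := by
    intro i
    conv_lhs => rw [su.b_eq]
    rw [Prod.snd_sum, Prod.snd_sum, Finset.sum_apply]
    rfl
  have hbS : b ∈ SelpJ d p := by
    rw [su.b_eq]
    exact Submodule.sum_mem (thmA_SelpM d p) fun l _ => Submodule.smul_mem _ _ (su.mem l)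
  have hb0 : ∀ i, i ≠ none → (gcode d p dir ch b).2 i = 0 := by
    intro i hi
    change b.2.2 (dir i) = 0
    rw [hbdir]
    rcases i with _ | _ | i
    · exact absurd rfl hi
    · rw [sum_eq_single su.l1]
      · rw [su.β_l1, zero_smul]
      · intro l _ hl
        rw [su.suppa, if_neg hl, smul_zero]
      · exact fun hh => absurd (mem_univ _) hh
    · exact sum_eq_zero fun l _ => by rw [su.supp0, smul_zero]
  have hbe : (gcode d p dir ch b).2 none = su.e' := by
    change b.2.2 (dir none) = su.e'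
    rw [hbdir, sum_eq_single su.l0]
    · rw [su.β_l0, one_smul, su.suppb, if_pos rfl]
    · intro l _ hl
      rw [su.suppb, if_neg hl, smul_zero]
    · exact fun hh => absurd (mem_univ _) hh
  set Γ := gridG d p dir S ch pl with hΓdef
  have hΓ : Γ.Ok := gridG_ok h hp hd hS
  set τ := mkTwH H hp dir S ch pl cc jl sig y with hτdef
  have hτ : τ.Ok Γ m := mkTwH_ok hS h hp hd y hA hccF hs1 hs2
  obtain ⟨hY, N0', hN0, hwd⟩ := hG J _ p dir hp hd n cc jl sig y hA hccF hy b hbS
  have hfI : ∀ D : ℕ, Finite (Irr k D) := fun D => (Q.irr_finite _).to_subtype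
  let _ : ∀ i, Fintype (XG d p dir i) := fun i => Fintype.ofFinite _
  -- the sum over the grid
  set W : ℝ := (∏ i, (Nat.card (Irr k (p (dir i)).natDegree) : ℝ)) /
    2 ^ ((m + 2) * (d.h + (Nat.card J - (m + 2)))) with hW
  have hW0 : 0 ≤ W := by positivity
  have hL1 : ∑ᶠ x : (i : Dir m) → Irr k (p (dir i)).natDegree,
      (if TypEqH S H ch d m (m - 1) p (repl p dir fun i => (x i).1) then
        NAH S H ch d (repl p dir fun i => (x i).1) m a b else 0) =
      N0' * ∑ x ∈ univ with x ∈ τ.YH H Γ m m,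
        (if τ.FA H Γ m m (gcode d p dir ch b) x = 0 then (1 : ℝ) else -1) := by
    rw [finsum_gridP (P := fun q => TypEqH S H ch d m (m - 1) p q)
      (fun q hq => symEq_symm' hq.1) (fun q => NAH S H ch d q m a b), mul_sum, ← sum_filter]
    refine sum_congr (filter_congr fun x _ => (hY x).symm) fun x hx => ?_
    rw [← hcc0, hN0 x (mem_filter.1 hx).2, sign_eq', mul_comm]
  have hN0le : |N0'| ≤ Bd := by
    have h1 := hN0 _ (mkTwH_mem (H := H) (pl := pl) h hp hd hy m)
    rw [IT2.rx_xp] at h1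
    obtain ⟨g1, g2⟩ := card_RS_le hS h hp hB hF m
    have h2 := nah_le (H := H) m (cc 0) b g1
    rw [h1, abs_mul, abs_pow, abs_neg, abs_one, one_pow, one_mul] at h2
    refine h2.trans ?_
    rw [hBd]
    push_cast
    have h3 : (Nat.card {y : (G → V) × (Pl → V) // IsPr S (chiJ ch p) m y} : ℝ) ≤
        (((2 ^ R) ^ m * (Nat.card V1 ^ m * B) ^ nBad hS : ℕ) : ℝ) := by exact_mod_cast g2
    push_cast at h3
    linarith
  rw [hL1]
  by_cases hN : N0' = 0
  · rw [hN, zero_mul, abs_zero]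
    positivity
  -- the number of colours
  obtain ⟨Co, hCo, hCo'⟩ := card_colH (H := H) (kk := m) hS hΓ hτ (IT2.xp hp dir)
  have hCoK : #Co ≤ K := by
    refine hCo.trans ?_
    have h1 := hL _ (Grid.chi_hom hS hΓ (IT2.xp hp dir))
    have hcard : Fintype.card (Dir m) = m + 2 := by simp
    rw [hcard, hK]
    refine Nat.mul_le_mul (Nat.pow_le_pow_right (by positivity) (Nat.mul_le_mul_right _
      (by omega))) ((Nat.pow_le_pow_left h1 _).trans (Nat.pow_le_pow_right hL0 (by omega)))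
  have hcl := IC.claimA h31 hS hΓ hτ hm
    ((gcode_mem_FR h hp hd hS (IT2.xp_mem (S := S) h hp hd) b).2 hbS) (hwd hN) hb0
  have hend := hmain _ n (τ.cor H Γ m m) (by omega) (cor_ok hτ) hs0 _ _ (by
    rw [hbe, h.e_eq]
    change d.e ((cc 0).2.2 (dir (some none))) su.e' = 1
    rw [hcc0, su.toBas.suppa]
    exact su.pair) hcl Co hCoK hCo' (univ.filter fun x => x ∈ τ.YH H Γ m m) (fun x => by
      rw [mem_filter]
      exact ⟨fun hx => hx.2, fun hx => ⟨mem_univ x, hx⟩⟩)
  rw [abs_mul]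
  calc |N0'| * |∑ x ∈ univ with x ∈ τ.YH H Γ m m,
        (if τ.FA H Γ m m (gcode d p dir ch b) x = 0 then (1 : ℝ) else -1)|
      ≤ Bd * (η / Bd * W) := mul_le_mul hN0le hend (abs_nonneg _) hBd0.le
    _ = η * W := by field_simp

end Pool.Agent.SmH
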