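import Pool.Agent.Lib.SmH.Defs
import Pool.Agent.Lib.SmJ.I.Cube

/-!
# HEIGHTS, block I: rigid towers with q-data over a grid

`FR Γ`: the relaxed frame (codes of the elements of the relaxed Selmer groups). `TwH`: type data: codes
`c l`, levels `jl l`, supports `sig l`, values `fl l` of the rigid pairing (used for `jl l < kk`), and
the q-data `qd n w` = value of the height form of level `k` at `∑ n_l y_l + (0, w)`, `w` pure local.
`YH`: the points of this type; `yy`: the chosen rigid towers; `colH`: the colour of a point.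
`FaceOkH`, `GoodH`: as in `SmJ.Twr`.
`kk = k` in theorem A, `kk = k + 1` in theorem T.
-/

set_option autoImplicit false

open Finset

namespace Pool.Agent.SmH

open Pool.Agent.SmJ

variable {G V V1 Pl M : Type*} [Group G] [AddCommGroup V] [DistribMulAction G V]
  [AddCommGroup V1] [Module (ZMod 2) V1] [AddCommGroup M] [DistribMulAction G M]

/-- Pure local elements `(0, w)` for the twist `chi`. -/
def IsLoc (S : Sys G V V1 Pl) (chi : G → ZMod 2) (w : Pl → V) : Prop :=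
  (∀ v ∈ S.good, w v = 0) ∧ ∀ v, v ∉ S.good → ∀ s ∈ S.D v, dl chi (w v) s = 0

/-- The relaxed frame. -/
def FR {S : Sys G V V1 Pl} {ι : Type*} [Fintype ι] {X : ι → Type*} (Γ : Grid S X) :
    Set (GCode G V1 ι) := {c | Γ.IsC c ∧ ∀ x ∈ Γ.Xs, IsRel S (Γ.chi x) (Γ.ch c x)}

/-- The combination `∑ n_l y_l + (0, w)`. -/
def comb {r : ℕ} (y : Fin (r + 1) → (G → V) × (Pl → V)) (n : Fin (r + 1) → ℤ) (w : Pl → V) :
    (G → V) × (Pl → V) := ∑ l, n l • y l + (0, w)

/-- The type data. -/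
structure TwH (G V V1 Pl M : Type*) (ι : Type*) (r : ℕ) where
  c : Fin (r + 1) → GCode G V1 ι
  jl : Fin (r + 1) → ℕ
  fl : Fin (r + 1) → GCode G V1 ι → ZMod 2
  sig : Fin (r + 1) → Finset ι
  qd : (Fin (r + 1) → ℤ) → (Pl → V) → M

namespace TwH

variable {S : Sys G V V1 Pl} {ι : Type*} [Fintype ι] {X : ι → Type*} {r : ℕ}

/-- `y` is a top of the rigid tower number `l` at the point `x`. -/
structure IsTow (τ : TwH G V V1 Pl M ι r) (Γ : Grid S X) (kk : ℕ) (x : ∀ i, X i) (l : Fin (r + 1))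
    (y : (G → V) × (Pl → V)) : Prop where
  pr : IsPr S (Γ.chi x) (τ.jl l) y
  base : ∀ s, (2 : ℕ) ^ (τ.jl l - 1) • y.1 s = S.iota (Γ.ch (τ.c l) x s)
  val : τ.jl l < kk → ∀ d ∈ FR Γ, CTr S (Γ.chi x) y (Γ.ch d x) = τ.fl l d

/-- `y` is a system of rigid towers with the given q-data at the point `x`. -/
structure IsSys (τ : TwH G V V1 Pl M ι r) (H : HData V M Pl) (Γ : Grid S X) (k kk : ℕ)
    (x : ∀ i, X i) (y : Fin (r + 1) → (G → V) × (Pl → V)) : Prop where
  tow : ∀ l, τ.IsTow Γ kk x l (y l)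
  qdat : ∀ n w, IsLoc S (Γ.chi x) w → q S H (Γ.chi x) k (comb y n w) = τ.qd n w

/-- The points of the given type. -/
def YH (τ : TwH G V V1 Pl M ι r) (H : HData V M Pl) (Γ : Grid S X) (k kk : ℕ) :
    Set (∀ i, X i) := {x | x ∈ Γ.Xs ∧ ∃ y, τ.IsSys H Γ k kk x y}

open Classical in
/-- The chosen rigid towers. -/
noncomputable def yy (τ : TwH G V V1 Pl M ι r) (H : HData V M Pl) (Γ : Grid S X) (k kk : ℕ)
    (x : ∀ i, X i) : Fin (r + 1) → (G → V) × (Pl → V) :=
  if h : ∃ y, τ.IsSys H Γ k kk x y then h.choose else 0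

/-- The colour of a point: the values at the tame generators of the primes of the point and the local
points at the bad places. -/
noncomputable def colH (τ : TwH G V V1 Pl M ι r) (H : HData V M Pl) (Γ : Grid S X) (k kk : ℕ)
    (x : ∀ i, X i) : (Fin (r + 1) → ι → V) × (Fin (r + 1) → Pl → V) :=
  (fun l i => (τ.yy H Γ k kk x l).1 (S.sg (Γ.pl i (x i))), fun l => (τ.yy H Γ k kk x l).2)

/-- The hypotheses on the type data: the codes are in the frame, `c l` is supported in `sig l` (at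
most one direction), `c 0 = a` has a tower of level `k`. -/
structure Ok (τ : TwH G V V1 Pl M ι r) (Γ : Grid S X) (k : ℕ) : Prop where
  c_mem : ∀ l, τ.c l ∈ Γ.FF
  jl_pos : ∀ l, 1 ≤ τ.jl l
  jl_le : ∀ l, τ.jl l ≤ k
  jl_zero : τ.jl 0 = k
  sig_card : ∀ l, (τ.sig l).card ≤ 1
  supp : ∀ l i, i ∉ τ.sig l → (τ.c l).2 i = 0

/-- The value of the right code `b` on the tower of `a` (theorem A). -/
noncomputable def FA (τ : TwH G V V1 Pl M ι r) (H : HData V M Pl) (Γ : Grid S X) (k kk : ℕ)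
    (b : GCode G V1 ι) (x : ∀ i, X i) : ZMod 2 :=
  CTr S (Γ.chi x) (τ.yy H Γ k kk x 0) (Γ.ch b x)

/-- `yp` is a rigid lift of `y` to the level `k + 1`. -/
def IsUp (S : Sys G V V1 Pl) (chi : G → ZMod 2) (k : ℕ) (y yp : (G → V) × (Pl → V)) : Prop :=
  IsPr S chi (k + 1) yp ∧ (2 : ℕ) • yp = y

open Classical in
/-- The sign of `q_(k+1)` of a lift of the tower of `a` (theorem T): `0` if the value is `0`. -/
noncomputable def FT (τ : TwH G V V1 Pl M ι r) (H : HData V M Pl) (Γ : Grid S X) (k kk : ℕ)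
    (x : ∀ i, X i) : ZMod 2 :=
  if ∃ yp, IsUp S (Γ.chi x) k (τ.yy H Γ k kk x 0) yp ∧ q S H (Γ.chi x) (k + 1) yp ≠ 0 then 1 else 0

variable [DecidableEq ι]

/-- The rigid towers on the vertices of the cube `(y, z)`. -/
noncomputable def fam (τ : TwH G V V1 Pl M ι r) (H : HData V M Pl) (Γ : Grid S X) (k kk : ℕ)
    (y z : ∀ i, X i) (l : Fin (r + 1)) (T : Finset ι) : (G → V) × (Pl → V) :=
  τ.yy H Γ k kk (SmA.mix T y z) l

/-- I5: the conditions on the faces of the cube `(x0, x)` inside the face with directions `U` at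
the position `∅`: the vertices are in `YH`, with the colour of `x0`, and the faces are minimal. -/
def FaceOkH (τ : TwH G V V1 Pl M ι r) (H : HData V M Pl) (Γ : Grid S X) (k kk : ℕ)
    (U : Finset ι) (x0 x : ∀ i, X i) : Prop :=
  (∀ i ∈ U, x0 i ≠ x i) ∧
  (∀ T, T ⊆ U → SmA.mix T x0 x ∈ τ.YH H Γ k kk ∧
    τ.colH H Γ k kk (SmA.mix T x0 x) = τ.colH H Γ k kk x0) ∧
    ∀ l, ∀ W, W ⊆ U → W.Nonempty → W.card ≤ τ.jl l → Disjoint W (τ.sig l) →
      ∀ T, T ⊆ U \ W → Mn (τ.jl l) (fun T => (τ.fam H Γ k kk x0 x l T).1) W T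

/-- `x` is good for `x0`: the conditions hold on all the faces `{eps_i = 0}`. -/
def GoodH (τ : TwH G V V1 Pl M ι r) (H : HData V M Pl) (Γ : Grid S X) (k kk : ℕ)
    (x0 x : ∀ i, X i) : Prop :=
  ∀ i : ι, τ.FaceOkH H Γ k kk (univ.erase i) x0 x

end TwH

end Pool.Agent.SmH
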