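import Pool.Agent.Lib.SmH.I.NumH
import Pool.Agent.Lib.SmH.I.TypeH
import Pool.Agent.Lib.SmH.I.Core.InvB

/-!
# HEIGHTS, block I: the common last step of the grid theorems A and T

`fin_core`: the generic grid theorem over a vector of primes (`NumH`), for the rigid towers of a type
`τ : TwH`, whose points are those of a predicate `Typ` on vectors of primes, and a function `NN` on
vectors which is `± N1` at these points.
-/

set_option autoImplicit false

open Polynomial Finset

namespace Pool.Agent.SmH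

open Pool.Agent.SmJ Pool.Agent.SmJ.IT Pool.Agent.SmA

open Pool.Agent.Sm (leg Irr Dir repl repl_dir repl_off N0 ChebOdd Q.irr_finite)

section tools

variable {k : Type} [Field k] {V1 : Type} [AddCommGroup V1] [Module (ZMod 2) V1]
  {d : TwData k V1} {J : Type} [Fintype J] {m : ℕ} {p : J → k[X]}
  {dir : Dir m ↪ J}

omit [Fintype J] in
open Classical in
/-- The sum over the primes of the degrees of the directions as a sum over the points of the grid. -/
theorem finsum_gridH [Finite k] [∀ i, Fintype (XG d p dir i)] {Typ : (J → k[X]) → Prop}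
    (hT : ∀ q, Typ q → SymEq d p q) (F : (J → k[X]) → ℝ) :
    ∑ᶠ x : (i : Dir m) → Irr k (p (dir i)).natDegree,
        (if Typ (repl p dir fun i => (x i).1) then F (repl p dir fun i => (x i).1) else 0) =
      ∑ x : ∀ i, XG d p dir i with Typ (rx d p dir x), F (rx d p dir x) := by
  have : ∀ i, Finite (Irr k (p (dir i)).natDegree) := fun i => (Q.irr_finite _).to_subtype
  let _ := Fintype.ofFinite ((i : Dir m) → Irr k (p (dir i)).natDegree)
  rw [finsum_eq_sum_of_fintype, ← sum_filter]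
  symm
  refine sum_bij (fun x _ => fun i => (x i).1) ?_ ?_ ?_ ?_
  · intro x hx
    rw [mem_filter] at hx ⊢
    exact ⟨mem_univ _, hx.2⟩
  · intro x _ y _ hxy
    funext i
    exact Subtype.ext (congrFun hxy i)
  · intro y hy
    rw [mem_filter] at hy
    have h := hT _ hy.2
    refine ⟨fun i => ⟨y i, fun l => ?_, fun j hj => ?_⟩, ?_, rfl⟩
    · have h1 := h.ell (dir i) l
      rw [repl_dir] at h1
      exact h1.symm
    · have h1 := h.sym (dir i) j
      rw [repl_dir, repl_off _ _ _ hj] at h1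
      exact h1.symm
    · rw [mem_filter]
      exact ⟨mem_univ _, hy.2⟩
  · intro x _
    rfl

end tools

section main

variable {k : Type} [Field k] [Finite k] {V1 : Type} [AddCommGroup V1] [Module (ZMod 2) V1]
  {d : TwData k V1} {G V Pl M : Type} [Group G] [AddCommGroup V] [DistribMulAction G V]
  [AddCommGroup M] [DistribMulAction G M] {S : Sys G V V1 Pl} {H : HData V M Pl}
  {ch : k[X] → G → ZMod 2} {pl : k[X] → Pl}

private theorem nColH_le {vc L m r R n : ℕ} (hv : 0 < vc) (hL : 0 < L) (hr : r ≤ R) :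
    nColH vc L m r n ≤ nColH vc L m R n := by
  unfold nColH
  refine Nat.mul_le_mul (Nat.pow_le_pow_right (by positivity) ?_)
    (Nat.pow_le_pow_right hL (by omega))
  exact Nat.mul_le_mul (by omega) le_rfl

private theorem sgn_eq (x : ZMod 2) : (-1 : ℝ) ^ x.val = if x = 0 then 1 else -1 := by
  have key : x = 0 ∨ x = 1 := by
    revert x
    decide
  rcases key with rfl | rfl
  · simp
  · have : (1 : ZMod 2).val = 1 := rfl
    rw [this, pow_one, if_neg (by decide)]

open Classical in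
/-- The common last step of the grid theorems A and T. -/
theorem fin_core (hS : S.Ok) (h : ChOk S ch d pl) {a C : ℕ}
    (hC : ChebOdd S.NN (fun P => S.sg (pl P)) (fun P => S.phi (pl P)) (Nat.card k) a C)
    (m : ℕ) (hm : 1 ≤ m) (R : ℕ) (B : ℝ) (hB : 0 ≤ B) (η : ℝ) (hη : 0 < η) :
    ∃ n₀ : ℕ, ∀ (J : Type) (_ : Fintype J) (p : J → k[X]) (dir : Dir m ↪ J), PVec d p →
    n₀ ≤ (∏ j, p j).natDegree →
    (Nat.card J : ℝ) ≤ 2 * Real.log (∏ j, p j).natDegree →
    (∀ i, N0 (∏ j, p j).natDegree ≤ (p (dir i)).natDegree) →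
    (∀ i j, (p j).natDegree = (p (dir i)).natDegree → j = dir i) →
    4 ∣ (p (dir none)).natDegree →
    Nat.card (SelpJ d p) ≤ 2 ^ R →
    DegOk d p dir ∧
    ∀ (r : ℕ) (τ : TwH G V V1 Pl M (Dir m) r) (kk : ℕ), r ≤ R →
    τ.Ok (gridG d p dir S ch pl) m → τ.sig 0 = {some none} →
    ∀ (Fn : (∀ i, XG d p dir i) → ZMod 2) (be : V1), S.e ((τ.c 0).2 (some none)) be = 1 →
    ∀ (Typ : (J → k[X]) → Prop) (NN : (J → k[X]) → ℝ) (N1 : ℝ), |N1| ≤ B →
    (N1 ≠ 0 → (τ.cor H (gridG d p dir S ch pl) m kk).Claim (gridG d p dir S ch pl) Fn be) →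
    (∀ x, x ∈ τ.YH H (gridG d p dir S ch pl) m kk ↔ Typ (rx d p dir x)) →
    (∀ q, Typ q → SymEq d p q) →
    (∀ x ∈ τ.YH H (gridG d p dir S ch pl) m kk,
      NN (rx d p dir x) = (-1 : ℝ) ^ (Fn x).val * N1) →
    |∑ᶠ x : (i : Dir m) → Irr k (p (dir i)).natDegree,
        if Typ (repl p dir fun i => (x i).1) then NN (repl p dir fun i => (x i).1) else 0| ≤
      η * ((∏ i, (Nat.card (Irr k (p (dir i)).natDegree) : ℝ)) /
        2 ^ ((m + 2) * (d.h + (Nat.card J - (m + 2))))) := by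
  have := hS.fin1
  have hV1 : 0 < Nat.card V1 := Nat.card_pos
  obtain ⟨L, hL0, hL⟩ := exists_L hS m
  obtain ⟨n₀, hn₀⟩ := grid_thm_core hS h hC m hm R (nColH (Nat.card V1) L m R (m + 2))
    (by unfold nColH; positivity) (η / (B + 1)) (by positivity)
  refine ⟨n₀, fun J _ p dir hp hn hJ hdeg hdist h4 hF => ?_⟩
  obtain ⟨hd, hmain⟩ := hn₀ J _ p dir hp hn hJ hdeg hdist h4 hF
  refine ⟨hd, fun r τ kk hr hτ hσ Fn be hee Typ NN N1 hN1 hcl hY hT hNN => ?_⟩
  set Γ := gridG d p dir S ch pl with hΓdef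
  have hΓ : Γ.Ok := gridG_ok h hp hd hS
  have hfI : ∀ D : ℕ, Finite (Irr k D) := fun D => (Q.irr_finite _).to_subtype
  let _ : ∀ i, Fintype (XG d p dir i) := fun i => Fintype.ofFinite _
  rw [finsum_gridH hT NN]
  set Y : Finset (∀ i, XG d p dir i) := univ.filter fun x => Typ (rx d p dir x) with hYdef
  have hYm : ∀ x, x ∈ Y ↔ x ∈ τ.YH H Γ m kk := fun x => by
    rw [hYdef, mem_filter, hY x]
    simp
  have hsum : ∑ x ∈ Y, NN (rx d p dir x) =
      (∑ x ∈ Y, (if Fn x = 0 then (1 : ℝ) else -1)) * N1 := by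
    rw [sum_mul]
    refine sum_congr rfl fun x hx => ?_
    rw [hNN x ((hYm x).1 hx), sgn_eq]
  rw [hsum]
  have hP0 : 0 ≤ (∏ i, (Nat.card (Irr k (p (dir i)).natDegree) : ℝ)) /
        2 ^ ((m + 2) * (d.h + (Nat.card J - (m + 2)))) := by positivity
  by_cases hN0 : N1 = 0
  · rw [hN0, mul_zero, abs_zero]
    positivity
  -- the colours
  obtain ⟨Co, hCo1, hCo2⟩ := card_colH (H := H) (kk := kk) hS hΓ hτ (IT2.xp hp dir)
  have hcardD : Fintype.card (Dir m) = m + 2 := by simp [Dir]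
  have hCo3 : #Co ≤ nColH (Nat.card V1) L m R (m + 2) := by
    refine (hCo1.trans ?_).trans (nColH_le (n := m + 2) (r := r) hV1 hL0 hr)
    rw [hcardD]
    unfold nColH
    gcongr
    exact hL _ (Grid.chi_hom hS hΓ _)
  have h1 := hmain _ r (τ.cor H Γ m kk) hr (cor_ok hτ) hσ Fn be hee (hcl hN0) Co hCo3 hCo2 Y hYm
  rw [abs_mul]
  calc |∑ x ∈ Y, (if Fn x = 0 then (1 : ℝ) else -1)| * |N1|
      ≤ (η / (B + 1) * ((∏ i, (Nat.card (Irr k (p (dir i)).natDegree) : ℝ)) /
        2 ^ ((m + 2) * (d.h + (Nat.card J - (m + 2)))))) * (B + 1) := by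
        refine mul_le_mul h1 (by linarith) (abs_nonneg _) (by positivity)
    _ = η * ((∏ i, (Nat.card (Irr k (p (dir i)).natDegree) : ℝ)) /
        2 ^ ((m + 2) * (d.h + (Nat.card J - (m + 2))))) := by
        field_simp

end main

end Pool.Agent.SmH
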