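import Pool.Agent.Lib.SmH.I.GenV

/-!
# HEIGHTS, block I_gen: the equivalence relation `TypEqH`, and the sums `NAH`, `NTH` on its classes

`isoH_iff`: `IsoH` = `RT.IsCor` for the rigid towers of the two vectors. `typEqH_refl`, `typEqH_symm`,
`typEqH_trans`. `NAH_eq_NA`, `NTH_eq_NT`; `rtJ_okQ`.
-/

set_option autoImplicit false

open Polynomial Finset

namespace Pool.Agent.SmH

open Pool.Agent.Sm (leg Irr)

open Pool.Agent.SmJ

variable {k : Type} [Field k] {G V V1 Pl M : Type} [Group G] [AddCommGroup V]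
  [DistribMulAction G V] [AddCommGroup V1] [Module (ZMod 2) V1] [AddCommGroup M]
  [DistribMulAction G M]
variable {S : Sys G V V1 Pl} {H : HData V M Pl} {ch : k[X] → G → ZMod 2} {d : TwData k V1}
  {pl : k[X] → Pl} {J : Type} [Fintype J] {p p' p'' : J → k[X]}

/-- `AbvH` in terms of the rigid tower. -/
theorem abvH_iff (hS : S.Ok) (i : ℕ) (a : CodeJ d J) (y : (G → V) × (Pl → V)) :
    AbvH S ch d p i a y ↔ y ∈ (rtJ S hS H ch d p).Z i ∧
      (2 : ℕ) ^ (i - 1) • y.1 = (rtJ S hS H ch d p).c a :=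
  ⟨fun h => ⟨h.1, funext h.2⟩, fun h => ⟨h.1, fun s => congrFun h.2 s⟩⟩

/-- `IsoH` is the relation of the rigid towers. -/
theorem isoH_iff (hS : S.Ok) (hc : ChOk S ch d pl) (hp : PVec d p) (hp' : PVec d p')
    [Nonempty J] {j jp : ℕ}
    {Θ : (G → V) × (Pl → V) → (G → V) × (Pl → V) → Prop} :
    IsoH S H ch d j jp p p' Θ ↔
      RT.IsCor (rtJ S hS H ch d p) (rtJ S hS H ch d p') (SelpJ d p) (plJ S ch p) j jp Θ := by
  have hW := rtJ_ok (H := H) hS hc hp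
  have hW' := rtJ_ok (H := H) hS hc hp'
  constructor
  · intro h
    refine ⟨h.lev, fun y hy => ?_, fun y' hy' => ?_, h.add, fun z hz => ?_, fun w hw => ?_,
      fun y y' hyy i hi hij a hy => ?_, h.pair, h.qq⟩
    · exact h.left y hy
    · exact h.right y' hy'
    · exact h.tor z ((rtJ_tmem hS hc hp j z).mp hz)
    · exact h.loc (0, w) (hW.loc_mem hw j) rfl
    · have h1 := h.top y y' hyy i hi hij a
      rw [abvH_iff (H := H) hS, abvH_iff (H := H) hS] at h1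
      have hy' : y' ∈ (rtJ S hS H ch d p').Z i := (h.lev y y' hyy i hij).mp hy
      exact ⟨fun h2 => (h1.mp ⟨hy, h2⟩).2, fun h2 => (h1.mpr ⟨hy', h2⟩).2⟩
  · intro h
    refine ⟨h.lev, fun y hy => ?_, fun y' hy' => ?_, h.add, fun z hz => ?_, fun y hy h0 => ?_,
      fun y y' hyy i hi hij a => ?_, h.pair, h.q⟩
    · exact h.left y hy
    · exact h.right y' hy'
    · exact h.tor z ((rtJ_tmem hS hc hp j z).mpr hz)
    · have h1 : y ∈ (rtJ S hS H ch d p).Z 0 := hW.low 0 j y hy (by rw [h0, smul_zero])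
      have h2 := ((hW.zero y).mp h1).2
      have h3 := h.loc y.2 h2
      rwa [show ((0 : G → V), y.2) = y from Prod.ext h0.symm rfl] at h3
    · rw [abvH_iff (H := H) hS, abvH_iff (H := H) hS]
      constructor
      · rintro ⟨h1, h2⟩
        exact ⟨(h.lev y y' hyy i hij).mp h1, (h.top y y' hyy i hi hij a h1).mp h2⟩
      · rintro ⟨h1, h2⟩
        have h3 := (h.lev y y' hyy i hij).mpr h1
        exact ⟨h3, (h.top y y' hyy i hi hij a h3).mpr h2⟩

/-! ### The equivalence relation -/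

theorem typEqH_refl (S : Sys G V V1 Pl) (H : HData V M Pl) (ch : k[X] → G → ZMod 2)
    (d : TwData k V1) (j jp : ℕ) (p : J → k[X]) : TypEqH S H ch d j jp p p := by
  refine ⟨symEq_refl d p, fun y y' => y = y', ?_, fun y _ => ⟨y, rfl⟩, fun y _ => ⟨y, rfl⟩, ?_,
    fun z _ => rfl, fun y _ _ => rfl, ?_, ?_, ?_⟩
  · rintro y _ rfl i _
    exact Iff.rfl
  · rintro y1 _ y2 _ rfl rfl
    rfl
  · rintro y _ rfl i _ _ a
    exact Iff.rfl
  · rintro y _ rfl _ b _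
    rfl
  · rintro y _ rfl _
    rfl

theorem typEqH_symm [Finite k] (hS : S.Ok) (hc : ChOk S ch d pl) (hp : PVec d p)
    (hp' : PVec d p') {j jp : ℕ} (hjp : jp ≤ j) (h : TypEqH S H ch d j jp p p') :
    TypEqH S H ch d j jp p' p := by
  obtain ⟨hs, Θ, hΘ⟩ := h
  refine ⟨symEq_symm hs, fun y y' => Θ y' y, ?_, fun y hy => ?_, fun y hy => ?_, ?_,
    fun z hz => hΘ.tor z hz, fun y hy h0 => ?_, ?_, ?_, ?_⟩
  · intro y y' hyy i hi
    exact (hΘ.lev y' y hyy i hi).symm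
  · exact hΘ.right y hy
  · exact hΘ.left y hy
  · intro y1 y1' y2 y2' h1 h2
    exact hΘ.add _ _ _ _ h1 h2
  · have hw : IsLoc S (chiJ ch p') y.2 := by
      refine ⟨hy.off, fun v hv s hs' => ?_⟩
      rw [← hy.loc v hv s hs', h0, Pi.zero_apply]
    have hw' := (isLoc_iff hS hc hp hp' hs y.2).mpr hw
    refine hΘ.loc y ⟨?_, fun v hv s hs' => ?_, hw'.1⟩ h0
    · rw [h0]
      exact Sys.IsSel.zero hS _ _
    · rw [h0, Pi.zero_apply, hw'.2 v hv s hs']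
  · intro y y' hyy i hi hij a
    exact (hΘ.top y' y hyy i hi hij a).symm
  · intro y y' hyy hy b hb
    have hy' : IsPr S (chiJ ch p) jp y' := (hΘ.lev y' y hyy jp hjp).mpr hy
    rw [← selpJ_congr hc.two hp hp' hs] at hb
    exact (hΘ.pair y' y hyy hy' b hb).symm
  · intro y y' hyy hy
    exact (hΘ.qq y' y hyy ((hΘ.lev y' y hyy j le_rfl).mpr hy)).symm

theorem typEqH_trans [Finite k] (_hS : S.Ok) (hc : ChOk S ch d pl) (hp : PVec d p)
    (hp' : PVec d p') {j jp : ℕ} (hjp : jp ≤ j) (h : TypEqH S H ch d j jp p p')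
    (h' : TypEqH S H ch d j jp p' p'') : TypEqH S H ch d j jp p p'' := by
  obtain ⟨hs, Θ, hΘ⟩ := h
  obtain ⟨hs', Θ', hΘ'⟩ := h'
  refine ⟨symEq_trans hs hs', fun y y'' => ∃ y', Θ y y' ∧ Θ' y' y'', ?_, fun y hy => ?_,
    fun y hy => ?_, ?_, fun z hz => ⟨_, hΘ.tor z hz, hΘ'.tor z hz⟩, fun y hy h0 => ?_, ?_, ?_, ?_⟩
  · rintro y y'' ⟨y', h1, h2⟩ i hi
    exact (hΘ.lev _ _ h1 i hi).trans (hΘ'.lev _ _ h2 i hi)
  · obtain ⟨y', h1⟩ := hΘ.left y hy
    obtain ⟨y'', h2⟩ := hΘ'.left y' ((hΘ.lev _ _ h1 j le_rfl).mp hy)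
    exact ⟨y'', y', h1, h2⟩
  · obtain ⟨y', h2⟩ := hΘ'.right y hy
    obtain ⟨y0, h1⟩ := hΘ.right y' ((hΘ'.lev _ _ h2 j le_rfl).mpr hy)
    exact ⟨y0, y', h1, h2⟩
  · rintro y1 y1'' y2 y2'' ⟨y1', h1, h1'⟩ ⟨y2', h2, h2'⟩
    exact ⟨y1' + y2', hΘ.add _ _ _ _ h1 h2, hΘ'.add _ _ _ _ h1' h2'⟩
  · have h1 := hΘ.loc y hy h0
    exact ⟨y, h1, hΘ'.loc y ((hΘ.lev _ _ h1 j le_rfl).mp hy) h0⟩
  · rintro y y'' ⟨y', h1, h2⟩ i hi hij a
    exact (hΘ.top _ _ h1 i hi hij a).trans (hΘ'.top _ _ h2 i hi hij a)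
  · rintro y y'' ⟨y', h1, h2⟩ hy b hb
    rw [hΘ'.pair _ _ h2 ((hΘ.lev _ _ h1 jp hjp).mp hy) b
      (by rw [← selpJ_congr hc.two hp hp' hs]; exact hb), hΘ.pair _ _ h1 hy b hb]
  · rintro y y'' ⟨y', h1, h2⟩ hy
    rw [hΘ'.qq _ _ h2 ((hΘ.lev _ _ h1 j le_rfl).mp hy), hΘ.qq _ _ h1 hy]

/-! ### The sums -/

theorem NAH_eq_NA (hS : S.Ok) (j : ℕ) (a b : CodeJ d J) :
    NAH S H ch d p j a b = (rtJ S hS H ch d p).NA j a b := by
  unfold NAH RT.NA
  rw [← finsum_comp_equiv (Equiv.subtypeEquivRight fun y =>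
    and_congr_left' (abvH_iff (H := H) (p := p) (ch := ch) hS j a y))]
  rfl

theorem NTH_eq_NT (hS : S.Ok) (j : ℕ) (a : CodeJ d J) :
    NTH S H ch d p j a = (rtJ S hS H ch d p).NT j a := by
  classical
  unfold NTH RT.NT
  have e : ∀ y : (G → V) × (Pl → V), (AbvH S ch d p (j + 1) a y ∧
      q S H (chiJ ch p) j ((2 : ℕ) • y) = 0) ↔
      ((y ∈ (rtJ S hS H ch d p).Z (j + 1) ∧ (2 : ℕ) ^ j • y.1 = (rtJ S hS H ch d p).c a) ∧
        (rtJ S hS H ch d p).q j ((2 : ℕ) • y) = 0) := by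
    intro y
    have h1 := abvH_iff (H := H) (p := p) (ch := ch) hS (j + 1) a y
    rw [Nat.add_sub_cancel] at h1
    exact and_congr_left' h1
  rw [← finsum_comp_equiv (Equiv.subtypeEquivRight e)]
  rfl

/-- The facts on the height form. -/
theorem rtJ_okQ (hS : S.Ok) (hH : HOk S H) (hc : ChOk S ch d pl) (hp : PVec d p) [Nonempty J]
    (j : ℕ) : (rtJ S hS H ch d p).OkQ j := by
  have hco : CodeOk S ch d p := Code.codeOk hS hc hp
  refine ⟨fun y hy => ?_, fun y hy θ hθ => ?_, fun m m' hm hm' h1 h2 => ?_⟩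
  · exact q_two hS hH hco.chi (show IsPr S (chiJ ch p) (j + 1) y from hy)
  · have hy' : IsPr S (chiJ ch p) (j + 1) y := hy
    have hθ' : IsPr S (chiJ ch p) j θ := hθ
    change q S H (chiJ ch p) (j + 1) (y + θ) = q S H (chiJ ch p) (j + 1) y +
      (q S H (chiJ ch p) j ((2 : ℕ) • y + θ) - q S H (chiJ ch p) j ((2 : ℕ) • y) -
        q S H (chiJ ch p) j θ) + (2 : ℕ) • q S H (chiJ ch p) j θ
    rw [q_add (S := S) y θ, ← bb_two_left hS hH hco.chi hy' hθ', bb,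
      q_succ hS hH hco.chi hθ']
    abel
  · obtain ⟨a, rfl⟩ := hH.two m hm
    obtain ⟨b, rfl⟩ := hH.two m' hm'
    have h3 : ∀ a b : ZMod 2, a ≠ 0 → b ≠ 0 → a = b := by decide
    rw [h3 a b (fun h => h1 (by rw [h, map_zero])) (fun h => h2 (by rw [h, map_zero]))]

/-- The rigid elements of a given level form a finite group. -/
theorem finite_rtJ (hS : S.Ok) (hc : ChOk S ch d pl) (hp : PVec d p) [Nonempty J] (j : ℕ) :
    Finite ((rtJ S hS H ch d p).Z j) := by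
  have := hS.fin1
  have hco : CodeOk S ch d p := Code.codeOk hS hc hp
  have hf : Finite {b : G → V1 // IsRel S (chiJ ch p) b} :=
    (card_isRel hS hc hp).1.to_subtype
  exact finite_RS hS hco.chi hf j

end Pool.Agent.SmH
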