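import Pool.Agent.Lib.SmH.I.GenE
import Pool.Agent.Lib.SmH.I.FrameR
import Pool.Agent.Lib.SmH.I.ThmA
import Pool.Agent.Lib.SmH.I.ClaimT

/-!
# HEIGHTS, block I_gen: the classes of `TypEqH` over the grid

`yh_iff`: the points of the type `mkTwH` form the class of the base point. `genA`, `genT`: the sums `NAH`,
`NTH` at the points of the class.
-/

set_option autoImplicit false

open Polynomial Finset

namespace Pool.Agent.SmH

open Pool.Agent.Sm (leg Irr Dir repl repl_dir repl_off N0 Tower Adapted)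

open Pool.Agent.SmJ

variable {k : Type} [Field k] {G V V1 Pl M : Type} [Group G] [AddCommGroup V]
  [DistribMulAction G V] [AddCommGroup V1] [Module (ZMod 2) V1] [AddCommGroup M]
  [DistribMulAction G M]
variable {S : Sys G V V1 Pl} {H : HData V M Pl} {ch : k[X] → G → ZMod 2} {d : TwData k V1}
  {pl : k[X] → Pl} {J : Type} [Fintype J] {p : J → k[X]} {m : ℕ} {dir : Dir m ↪ J}

section base

variable {n : ℕ} {cc : Fin (n + 1) → CodeJ d J} {jl : Fin (n + 1) → ℕ}
  {sig : Fin (n + 1) → Finset (Dir m)} {y : Fin (n + 1) → (G → V) × (Pl → V)}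

theorem towJ {hS : S.Ok} (hc : ChOk S ch d pl) (hp : PVec d p) [Nonempty J]
    (hA : AdpH S hS ch d p m cc jl) (hy : ∀ l, AbvH S ch d p (jl l) (cc l) (y l)) :
    (rtJ S hS H ch d p).Tow m cc jl y where
  pos := hA.pos
  le := hA.le
  mem l := (hy l).1
  top l := funext (hy l).2
  indep x hx := by
    obtain ⟨z, hz⟩ := hx
    obtain ⟨w, -, hw⟩ := (rtJ_kz hS hc hp z _).mp hz
    exact hA.adp.indep x ((mem_twJ_Kp hS (Code.codeOk hS hc hp) _).2 ⟨w, hw⟩)

theorem spanJ {hS : S.Ok} (hc : ChOk S ch d pl) (hp : PVec d p) [Nonempty J]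
    (hA : AdpH S hS ch d p m cc jl) {i : ℕ} (hi : 1 ≤ i) (him : i ≤ m) :
    (rtJ S hS H ch d p).Span cc jl i := by
  have hco : CodeOk S ch d p := Code.codeOk hS hc hp
  have hW := twJ_ok hS hco
  intro u hu a ha
  have hu' : IsPr S (chiJ ch p) i u := hu
  have haL : a ∈ (twJ S hS ch d p).L i := by
    rw [← mem_Lfl_iff_tw hS hco hi, mem_Lfl_iff hS hco hi]
    exact ⟨u.1, hu'.sel, fun s => congrFun ha s⟩
  have haF : a ∈ (twJ S hS ch d p).Fs := Tower.L_le_Fs hW hi haL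
  obtain ⟨x, hx⟩ := hA.adp.span a haF
  obtain ⟨w, hw⟩ := (mem_twJ_Kp hS hco _).1 hx
  obtain ⟨z, hz⟩ := hS.half (S.iota w)
  refine ⟨x, ⟨z, (rtJ_kz hS hc hp z _).mpr ⟨w, hz, hw⟩⟩, fun l hl => ?_⟩
  have hK : kapJ d J w ∈ (twJ S hS ch d p).L i :=
    Tower.kp_le_L hW hi ((mem_twJ_Kp hS hco _).2 ⟨w, rfl⟩)
  have hsum : ∑ l, x l • cc l ∈ (twJ S hS ch d p).L i := by
    have e : ∑ l, x l • cc l = a - kapJ d J w := by rw [← hw, sub_sub_cancel]
    rw [e]
    exact Submodule.sub_mem _ haL hK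
  have hcc := hA.adp.adapt i hi him x hsum l hl
  by_contra hlt
  push Not at hlt
  exact hA.max l (by omega) (Tower.L_anti hW (by omega) (by omega : jl l + 1 ≤ i) hcc)

end base

section grid

variable [Finite k] {n : ℕ} {cc : Fin (n + 1) → CodeJ d J} {jl : Fin (n + 1) → ℕ}
  {sig : Fin (n + 1) → Finset (Dir m)} {y : Fin (n + 1) → (G → V) × (Pl → V)}
  {x : ∀ i, XG d p dir i}

/-- The systems of the type `mkTwH` at the point `x`. -/
theorem mkTwH_isSys_iff (hS : S.Ok) (hc : ChOk S ch d pl) (hp : PVec d p) (hd : DegOk d p dir)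
    (hx : x ∈ (gridG d p dir S ch pl).Xs) {kk : ℕ} {u : Fin (n + 1) → (G → V) × (Pl → V)} :
    (mkTwH H hp dir S ch pl cc jl sig y).IsSys H (gridG d p dir S ch pl) m kk x u ↔
      (∀ l, u l ∈ (rtJ S hS H ch d (rx d p dir x)).Z (jl l)) ∧
      (∀ l, (2 : ℕ) ^ (jl l - 1) • (u l).1 = (rtJ S hS H ch d (rx d p dir x)).c (cc l)) ∧
      (∀ l, jl l < kk → ∀ b ∈ SelpJ d p, (rtJ S hS H ch d (rx d p dir x)).P (u l) b =
        (rtJ S hS H ch d p).P (y l) b) ∧
      ∀ n' : Fin (n + 1) → ℤ, ∀ w ∈ plJ S ch p, (rtJ S hS H ch d (rx d p dir x)).q m (∑ l, n' l • u l + (0, w)) =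
        (rtJ S hS H ch d p).q m (∑ l, n' l • y l + (0, w)) := by
  have hs := (mem_Xs hc hp hd x).1 hx
  have hpx := pvec_rx hp hd x
  have hchi := chi_gridG (d := d) (p := p) (dir := dir) (S := S) (ch := ch) (pl := pl) x
  have hchg : ∀ c, (gridG d p dir S ch pl).ch (gcode d p dir ch c) x =
      homJ ch d (rx d p dir x) c := fun c => ch_gridG c x
  have hchp : ∀ c, (gridG d p dir S ch pl).ch (gcode d p dir ch c) (IT2.xp hp dir) =
      homJ ch d p c := fun c => by rw [ch_gridG, IT2.rx_xp]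
  have hloc : ∀ w, w ∈ plJ S ch p ↔ IsLoc S (chiJ ch (rx d p dir x)) w := fun w =>
    isLoc_iff hS hc hp hpx (symEq_symm hs) w
  constructor
  · intro h
    refine ⟨fun l => ?_, fun l => ?_, fun l hl b hb => ?_, fun n' w hw => ?_⟩
    · have h1 := (h.tow l).pr
      rw [hchi] at h1
      exact h1
    · funext s
      have h1 := (h.tow l).base s
      change (2 : ℕ) ^ (jl l - 1) • (u l).1 s = S.iota ((gridG d p dir S ch pl).ch
        (gcode d p dir ch (cc l)) x s) at h1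
      rw [hchg] at h1
      exact h1
    · have h1 := (h.tow l).val hl (gcode d p dir ch b) ((gcode_mem_FR hc hp hd hS hx b).2 hb)
      change CTr S _ (u l) _ = CTr S (chiJ ch p) (y l) ((gridG d p dir S ch pl).ch
        (gcode d p dir ch b) (IT2.xp hp dir)) at h1
      rw [hchi, hchg, hchp] at h1
      exact h1
    · have h1 := h.qdat n' w (by rw [hchi]; exact (hloc w).1 hw)
      rw [hchi] at h1
      exact h1
  · rintro ⟨h1, h2, h3, h4⟩
    refine ⟨fun l => ⟨?_, fun s => ?_, fun hl b hb => ?_⟩, fun n' w hw => ?_⟩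
    · rw [hchi]
      exact h1 l
    · change (2 : ℕ) ^ (jl l - 1) • (u l).1 s = S.iota ((gridG d p dir S ch pl).ch
        (gcode d p dir ch (cc l)) x s)
      rw [hchg]
      exact congrFun (h2 l) s
    · rw [FR_eq_image hc hp hd hS hx] at hb
      obtain ⟨b, hb, rfl⟩ := hb
      change CTr S _ (u l) _ = CTr S (chiJ ch p) (y l) ((gridG d p dir S ch pl).ch
        (gcode d p dir ch b) (IT2.xp hp dir))
      rw [hchi, hchg, hchp]
      exact h3 l hl b hb
    · rw [hchi] at hw ⊢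
      exact h4 n' w ((hloc w).2 hw)

/-- A system at `x` gives a relation. -/
theorem exists_cor_of_isSys (hS : S.Ok) (hH : HOk S H) (hc : ChOk S ch d pl) (hp : PVec d p)
    (hd : DegOk d p dir) (hm : 1 ≤ m) (hA : AdpH S hS ch d p m cc jl)
    (hy : ∀ l, AbvH S ch d p (jl l) (cc l) (y l)) {jp kk : ℕ} (hkk : kk = jp + 1)
    (hmj : m ≤ jp + 1) (hx : x ∈ (gridG d p dir S ch pl).Xs)
    {u : Fin (n + 1) → (G → V) × (Pl → V)}
    (hu : (mkTwH H hp dir S ch pl cc jl sig y).IsSys H (gridG d p dir S ch pl) m kk x u) :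
    ∃ Θ, RT.IsCor (rtJ S hS H ch d p) (rtJ S hS H ch d (rx d p dir x)) (SelpJ d p)
      (plJ S ch p) m jp Θ ∧ ∀ l, Θ (y l) (u l) := by
  have hne : Nonempty J := ⟨dir none⟩
  have hs := (mem_Xs hc hp hd x).1 hx
  have hpx := pvec_rx hp hd x
  obtain ⟨h1, h2, h3, h4⟩ := (mkTwH_isSys_iff hS hc hp hd hx).1 hu
  have hco : CodeOk S ch d p := Code.codeOk hS hc hp
  have hco' : CodeOk S ch d (rx d p dir x) := Code.codeOk hS hc hpx
  have hW := rtJ_ok (H := H) hS hc hp
  have hW' := rtJ_ok (H := H) hS hc hpx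
  have hsame := rtJ_same (H := H) hS hc hp hpx (symEq_symm hs)
  have hSel := selpJ_rx (S := S) hc hp hd hx
  have hPL : plJ S ch (rx d p dir x) = plJ S ch p := by
    ext w
    exact (isLoc_iff hS hc hp hpx (symEq_symm hs) w).symm
  rw [hSel, hPL] at hW'
  have htow := towJ (H := H) hc hp hA hy
  obtain ⟨Θ, hΘ, hl, -⟩ := RT.exists_cor (kk := jp) hW hW' hsame hm htow
    (fun i hi him => spanJ hc hp hA hi him) h1 h2
    (fun l hl => h3 l (by omega)) hmj (fun α hα => by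
      have e : ∀ (q : J → k[X]) (u : Fin (n + 1) → (G → V) × (Pl → V)),
          (rtJ S hS H ch d q).phi u α =
            (∑ l, α.1 l • u l + (0, α.2.2)) + tor S (chiJ ch q) α.2.1 := by
        intro q u
        rw [RT.phi_apply, rtJ_t]
        abel
      have hz : (2 : ℕ) ^ (m + 1) • α.2.1 = 0 := (rtJ_tmem hS hc hp m _).1 hα.1
      have hz' : tor S (chiJ ch p) α.2.1 ∈ (rtJ S hS H ch d p).Z m := hα.1
      have hz'' : tor S (chiJ ch (rx d p dir x)) α.2.1 ∈ (rtJ S hS H ch d (rx d p dir x)).Z m :=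
        (rtJ_tmem (H := H) hS hc hpx m _).2 hz
      have hm1 := RT.phi_mem hW htow hα
      have hα' : α ∈ (rtJ S hS H ch d (rx d p dir x)).Par (plJ S ch p) m (n + 1) := by
        rw [RT.Par_eq hW hW' hsame]
        exact hα
      have hm2 : (rtJ S hS H ch d (rx d p dir x)).phi u α ∈
          (rtJ S hS H ch d (rx d p dir x)).Z m :=
        RT.phi_mem hW' ⟨htow.pos, htow.le, h1, h2, fun x' ⟨z, hz⟩ =>
          htow.indep x' ⟨z, (hsame.kz z _).mp hz⟩⟩ hα'
      rw [e] at hm1 hm2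
      have hq1 : IsPr S (chiJ ch p) m (∑ l, α.1 l • y l + (0, α.2.2)) := by
        have := ((rtJ S hS H ch d p).Z m).sub_mem hm1 hz'
        rwa [add_sub_cancel_right] at this
      have hq2 : IsPr S (chiJ ch (rx d p dir x)) m (∑ l, α.1 l • u l + (0, α.2.2)) := by
        have := ((rtJ S hS H ch d (rx d p dir x)).Z m).sub_mem hm2 hz''
        rwa [add_sub_cancel_right] at this
      rw [e, e]
      change q S H (chiJ ch (rx d p dir x)) m _ = q S H (chiJ ch p) m _
      rw [q_add_tor hS hH hco'.chi hq2 hz, q_add_tor hS hH hco.chi hq1 hz]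
      exact h4 _ _ hα.2)
  exact ⟨Θ, hΘ, hl⟩

/-- The points of the type `mkTwH` form the class of the base point. -/
theorem yh_iff (hS : S.Ok) (hH : HOk S H) (hc : ChOk S ch d pl) (hp : PVec d p)
    (hd : DegOk d p dir) (hm : 1 ≤ m) (hA : AdpH S hS ch d p m cc jl)
    (hy : ∀ l, AbvH S ch d p (jl l) (cc l) (y l)) {jp kk : ℕ} (hkk : kk = jp + 1)
    (hmj : m ≤ jp + 1) (x : ∀ i, XG d p dir i) :
    x ∈ (mkTwH H hp dir S ch pl cc jl sig y).YH H (gridG d p dir S ch pl) m kk ↔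
      TypEqH S H ch d m jp p (rx d p dir x) := by
  have hne : Nonempty J := ⟨dir none⟩
  have hpx := pvec_rx hp hd x
  constructor
  · rintro ⟨hx, u, hu⟩
    have hs := (mem_Xs hc hp hd x).1 hx
    obtain ⟨Θ, hΘ, -⟩ := exists_cor_of_isSys hS hH hc hp hd hm hA hy hkk hmj hx hu
    exact ⟨symEq_symm hs, Θ, (isoH_iff hS hc hp hpx).2 hΘ⟩
  · rintro ⟨hs, Θ, hΘ⟩
    have hx : x ∈ (gridG d p dir S ch pl).Xs := (mem_Xs hc hp hd x).2 (symEq_symm hs)
    have hΘ' := (isoH_iff hS hc hp hpx).1 hΘ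
    have := finite_rtJ (H := H) hS hc hp m
    have := finite_rtJ (H := H) hS hc hpx m
    obtain ⟨u, -, h1, h2, h3, h4⟩ := hΘ'.exists_tow (cc := cc) (rtJ_ok (H := H) hS hc hp) hA.pos hA.le
      (fun l => (hy l).1) (fun l => funext (hy l).2)
    exact ⟨hx, u, (mkTwH_isSys_iff hS hc hp hd hx).2
      ⟨h1, h2, fun l hl => h3 l (by omega), h4⟩⟩

end grid

end Pool.Agent.SmH
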