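import Pool.Agent.Lib.SmH.I.RTSum
import Pool.Agent.Lib.SmH.I.CodeR
import Pool.Agent.Lib.SmH.I.TypeH
import Pool.Agent.Lib.SmH.L.StmtI
import Pool.Agent.Lib.SmH.G.CritR
import Pool.Agent.Lib.SmH.G.CTrAdd
import Pool.Agent.Lib.SmJ.G.TowerJ
import Pool.Agent.Lib.SmJ.I.GridOk
import Pool.Agent.Lib.SmH.Q.Tor

/-!
# HEIGHTS, block I_gen: the rigid tower of the twist by a vector of primes

`rtJ S hS H ch d p` is the abstract rigid tower (`RT`) of the twist by `∏ j, p j`; `rtJ_ok`, `rtJ_okQ`: it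
has all the properties; `rtJ_same`: vectors of primes with the same symbols have the same torsion data.
`isoH_iff`: `IsoH` = `RT.IsCor`. `typEqH_refl`, `typEqH_symm`, `typEqH_trans`.
-/

set_option autoImplicit false

open Polynomial Finset

namespace Pool.Agent.SmH

open Pool.Agent.Sm (leg Irr)

open Pool.Agent.SmJ

variable {k : Type} [Field k] {G V V1 Pl M : Type} [Group G] [AddCommGroup V]
  [DistribMulAction G V] [AddCommGroup V1] [Module (ZMod 2) V1] [AddCommGroup M]
  [DistribMulAction G M]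
variable {S : Sys G V V1 Pl} {H : HData V M Pl} {ch : k[X] → G → ZMod 2} {d : TwData k V1}
  {pl : k[X] → Pl} {J : Type} [Fintype J] {p p' : J → k[X]}

/-! ### The bad places -/

section bad

variable [Finite k]

private theorem GenV_add_self (a : ZMod 2) : a + a = 0 := by revert a; decide

private theorem GenV_eq_of_add {a b : ZMod 2} (h : a + b = 0) : a = b := by
  revert a b; decide

omit [Fintype J] [AddCommGroup M] [DistribMulAction G M] in
/-- The characters of vectors with the same symbols agree at the bad places. -/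
theorem ch_bad_eq (hS : S.Ok) (hc : ChOk S ch d pl) (hp : PVec d p) (hp' : PVec d p')
    (hs : SymEq d p p') {v : Pl} (hv : v ∉ S.good) (j : J) :
    ∀ s ∈ S.D v, ch (p j) s = ch (p' j) s := by
  intro s hs'
  have key : ch (p j) (S.sg v) = ch (p' j) (S.sg v) ∧ ch (p j) (S.phi v) = ch (p' j) (S.phi v) := by
    rcases hc.pl_cases v with rfl | ⟨P, hP, hP', rfl⟩
    · exact ⟨hc.inf_sg _ _ (hp.monic j) (hp'.monic j) (hs.deg j),
        hc.inf_phi _ _ (hp.monic j) (hp'.monic j) (hs.deg j)⟩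
    · have h1 : ∃ i, P = d.ell i := by
        by_contra h2
        push Not at h2
        exact hv ((hc.good P hP hP').mpr h2)
      obtain ⟨l, rfl⟩ := h1
      refine ⟨?_, ?_⟩
      · rw [hc.sg_ne (d.ell_monic l) (d.ell_irr l) (hp.monic j) (hp.irr j) (hp.ne j l).symm,
          hc.sg_ne (d.ell_monic l) (d.ell_irr l) (hp'.monic j) (hp'.irr j) (hp'.ne j l).symm]
      · rw [hc.ph _ _ (d.ell_monic l) (d.ell_irr l) (SmF.not_dvd_of_ne (d.ell_irr l)
            (d.ell_monic l) (hp.irr j) (hp.monic j) (hp.ne j l).symm),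
          hc.ph _ _ (d.ell_monic l) (d.ell_irr l) (SmF.not_dvd_of_ne (d.ell_irr l)
            (d.ell_monic l) (hp'.irr j) (hp'.monic j) (hp'.ne j l).symm)]
        rw [← leg_symm_eq hc.two (hp.monic j) (hp.irr j) (hp'.monic j) (hp'.irr j)
          (d.ell_monic l) (d.ell_irr l) (hp.ne j l) (hp'.ne j l) (hs.deg j)]
        exact hs.ell j l
  have h1 := IT.homG_D hS (IT.homG_add hS (hc.hom _ (hp.monic j).ne_zero)
    (hc.hom _ (hp'.monic j).ne_zero)) v
    (by rw [key.1]; exact GenV_add_self _) (by rw [key.2]; exact GenV_add_self _) s hs'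
  exact GenV_eq_of_add h1

omit [AddCommGroup M] [DistribMulAction G M] in
theorem chiJ_bad_eq (hS : S.Ok) (hc : ChOk S ch d pl) (hp : PVec d p) (hp' : PVec d p')
    (hs : SymEq d p p') {v : Pl} (hv : v ∉ S.good) :
    ∀ s ∈ S.D v, chiJ ch p s = chiJ ch p' s := fun s hs' =>
  Finset.sum_congr rfl fun j _ => ch_bad_eq hS hc hp hp' hs hv j s hs'

omit [AddCommGroup M] [DistribMulAction G M] in
theorem homJ_bad_eq (hS : S.Ok) (hc : ChOk S ch d pl) (hp : PVec d p) (hp' : PVec d p')
    (hs : SymEq d p p') {v : Pl} (hv : v ∉ S.good) (c : CodeJ d J) :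
    ∀ s ∈ S.D v, homJ ch d p c s = homJ ch d p' c s := fun s hs' => by
  unfold homJ
  congr 1
  exact Finset.sum_congr rfl fun j _ => by rw [ch_bad_eq hS hc hp hp' hs hv j s hs']

omit [Fintype J] [Finite k] in
theorem symEq_symm (hs : SymEq d p p') : SymEq d p' p :=
  ⟨fun j => (hs.deg j).symm, fun j i => (hs.ell j i).symm, fun i j => (hs.sym i j).symm⟩

omit [Fintype J] [Finite k] in
theorem symEq_trans {p'' : J → k[X]} (hs : SymEq d p p') (hs' : SymEq d p' p'') : SymEq d p p'' :=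
  ⟨fun j => (hs.deg j).trans (hs'.deg j), fun j i => (hs.ell j i).trans (hs'.ell j i),
    fun i j => (hs.sym i j).trans (hs'.sym i j)⟩

omit [Fintype J] [Finite k] in
theorem symEq_refl (d : TwData k V1) (p : J → k[X]) : SymEq d p p :=
  ⟨fun _ => rfl, fun _ _ => rfl, fun _ _ => rfl⟩

omit [AddCommGroup M] [DistribMulAction G M] in
/-- The pure local elements are the same. -/
theorem isLoc_iff (hS : S.Ok) (hc : ChOk S ch d pl) (hp : PVec d p) (hp' : PVec d p')
    (hs : SymEq d p p') (w : Pl → V) : IsLoc S (chiJ ch p) w ↔ IsLoc S (chiJ ch p') w := by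
  have key : ∀ v, v ∉ S.good → ∀ s ∈ S.D v, dl (chiJ ch p) (w v) s = dl (chiJ ch p') (w v) s := by
    intro v hv s hs'
    rw [dl, dl, tw, tw, chiJ_bad_eq hS hc hp hp' hs hv s hs']
  constructor
  · rintro ⟨h1, h2⟩
    exact ⟨h1, fun v hv s hs' => by rw [← key v hv s hs']; exact h2 v hv s hs'⟩
  · rintro ⟨h1, h2⟩
    exact ⟨h1, fun v hv s hs' => by rw [key v hv s hs']; exact h2 v hv s hs'⟩

omit [AddCommGroup M] [DistribMulAction G M] in
/-- The codes of the 2-Selmer group are the same. -/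
theorem FJ_congr (hS : S.Ok) (hc : ChOk S ch d pl) (hp : PVec d p) (hp' : PVec d p')
    (hs : SymEq d p p') : FJ S ch d p = FJ S ch d p' := by
  have key : ∀ q q' : J → k[X], PVec d q → PVec d q' → SymEq d q q' →
      FJ S ch d q ⊆ FJ S ch d q' := by
    intro q q' hq hq' hqq a ha
    have h1 : a ∈ SelpJ d q' := by
      rw [← selpJ_congr hc.two hq hq' hqq]
      exact Code.FJ_sub_SelpJ hS hc hq ha
    have h2 := (isRel_homJ_iff hS hc hq' a).mpr h1
    refine ⟨h2.1, fun v => ?_⟩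
    by_cases hv : v ∈ S.good
    · exact h2.2 v hv
    · obtain ⟨Q, h3, h4, h5⟩ := ha.2 v
      have hdl : ∀ s ∈ S.D v, dl (chiJ ch q) Q s = dl (chiJ ch q') Q s := by
        intro s hs'
        rw [dl, dl, tw, tw, chiJ_bad_eq hS hc hq hq' hqq hv s hs']
      refine ⟨Q, fun s hs' => by rw [← hdl s hs']; exact h3 s hs', ?_, ?_⟩
      · rw [← hdl _ (hS.sg_mem v), h4]
        change S.iota (homJ ch d q a (S.sg v)) = S.iota (homJ ch d q' a (S.sg v))
        rw [homJ_bad_eq hS hc hq hq' hqq hv a _ (hS.sg_mem v)]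
      · rw [← hdl _ (hS.phi_mem v), h5]
        change S.iota (homJ ch d q a (S.phi v)) = S.iota (homJ ch d q' a (S.phi v))
        rw [homJ_bad_eq hS hc hq hq' hqq hv a _ (hS.phi_mem v)]
  exact Set.Subset.antisymm (key p p' hp hp' hs) (key p' p hp' hp (symEq_symm hs))

end bad

/-! ### The rigid tower -/

omit [AddCommGroup M] [DistribMulAction G M] in
/-- The pure local elements. -/
def plJ (S : Sys G V V1 Pl) (ch : k[X] → G → ZMod 2) (p : J → k[X]) : AddSubgroup (Pl → V) where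
  carrier := {w | IsLoc S (chiJ ch p) w}
  zero_mem' := ⟨fun _ _ => rfl, fun v _ s _ => by rw [Pi.zero_apply, dl_zero]⟩
  add_mem' := fun {a b} ha hb => ⟨fun v hv => by rw [Pi.add_apply, ha.1 v hv, hb.1 v hv, add_zero],
    fun v hv s hs => by rw [Pi.add_apply, dl_add, ha.2 v hv s hs, hb.2 v hv s hs, add_zero]⟩
  neg_mem' := fun {a} ha => ⟨fun v hv => by rw [Pi.neg_apply, ha.1 v hv, neg_zero],
    fun v hv s hs => by rw [Pi.neg_apply, dl_neg, ha.2 v hv s hs, neg_zero]⟩

theorem mem_plJ {w : Pl → V} : w ∈ plJ S ch p ↔ IsLoc S (chiJ ch p) w := Iff.rfl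

/-- The rigid tower of the twist by `∏ j, p j`. -/
noncomputable def rtJ (S : Sys G V V1 Pl) (hS : S.Ok) (H : HData V M Pl) (ch : k[X] → G → ZMod 2)
    (d : TwData k V1) (p : J → k[X]) : RT (CodeJ d J) V (Pl → V) (G → V) M where
  Z i := RS S hS (chiJ ch p) i
  t := torHom S (chiJ ch p)
  c := (twJ S hS ch d p).c
  P y b := CTr S (chiJ ch p) y (homJ ch d p b)
  q i y := q S H (chiJ ch p) i y

section rtJ

variable (hS : S.Ok)

theorem rtJ_Z (i : ℕ) (y : (G → V) × (Pl → V)) :
    y ∈ (rtJ S hS H ch d p).Z i ↔ IsPr S (chiJ ch p) i y := Iff.rfl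

theorem rtJ_t (z : V) : (rtJ S hS H ch d p).t z = tor S (chiJ ch p) z := rfl

theorem rtJ_c (a : CodeJ d J) :
    (rtJ S hS H ch d p).c a = fun s => S.iota (homJ ch d p a s) := rfl

/-- The facts for one twist. -/
theorem rtJ_ok (hc : ChOk S ch d pl) (hp : PVec d p) [Nonempty J] :
    (rtJ S hS H ch d p).Ok (SelpJ d p) (plJ S ch p) := by
  have hco : CodeOk S ch d p := Code.codeOk hS hc hp
  have hR : ∀ {b : CodeJ d J}, b ∈ SelpJ d p → IsRel S (chiJ ch p) (homJ ch d p b) :=
    fun {b} hb => (isRel_homJ_iff hS hc hp b).mpr hb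
  refine ⟨fun y => ?_, fun i => RS_mono hS _ (Nat.le_succ i), fun i y hy => ?_,
    fun i j y hy h0 => ?_, fun i z hz => ?_, hS.half, fun i y hy h2 => ?_,
    fun i y hy y' hy' b hb => ?_, fun i z _ b hb => ?_, fun i y hy b hb => ?_,
    fun i y hy h0 => ?_⟩
  · constructor
    · intro hy
      have hy' : IsPr S (chiJ ch p) 0 y := hy
      have h1 : y.1 = 0 := by
        funext s
        have := hy'.sel.lev s
        rwa [pow_zero, one_smul] at this
      refine ⟨h1, fun v hv => hy'.off v hv, fun v hv s hs => ?_⟩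
      rw [← hy'.loc v hv s hs, h1, Pi.zero_apply]
    · rintro ⟨h1, h2⟩
      have h3 : IsLoc S (chiJ ch p) y.2 := h2
      refine ⟨?_, fun v hv s hs => ?_, h3.1⟩
      · rw [h1]
        exact Sys.IsSel.zero hS _ _
      · rw [h1, Pi.zero_apply, h3.2 v hv s hs]
  · funext s
    exact (show IsPr S (chiJ ch p) i y from hy).sel.lev s
  · exact IsPr.of_lev (show IsPr S (chiJ ch p) j y from hy) fun s => congrFun h0 s
  · exact isPr_tor' hS hco.chi fun s => congrFun hz s
  · -- the codes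
    have hy' : IsPr S (chiJ ch p) i y := hy
    have h3 : ∀ s, (2 : ℕ) • y.1 s = 0 := fun s => congrFun h2 s
    have h4 : y.1 = fun s => S.iota (S.un (y.1 s)) := funext fun s => (Sys.iota_un hS (h3 s)).symm
    have h5 : S.IsSel (chiJ ch p) 1 (fun s => S.iota (S.un (y.1 s))) := by
      rw [← h4]
      exact hy'.sel.of_lev fun s => by rw [pow_one]; exact h3 s
    obtain ⟨a, -, ha⟩ := exists_code_of_isRel hS hc hp
      (isRel_of_isSel1 (Sys.isSel1_of hS h5))
    refine ⟨a, ?_⟩
    rw [rtJ_c, ha]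
    exact h4
  · exact CTr_add_left hS hco.chi (show IsPr S (chiJ ch p) i y from hy)
      (show IsPr S (chiJ ch p) i y' from hy') (hR hb)
  · exact CTr_tor hS hco.chi z (hR hb)
  · exact CTr_two hS hco.chi (show IsPr S (chiJ ch p) (i + 1) y from hy) (hR hb)
  · refine (ctr_crit hS hco.chi (show IsPr S (chiJ ch p) i y from hy)).mpr fun b hb => ?_
    obtain ⟨c, hc1, rfl⟩ := exists_code_of_isRel hS hc hp hb
    exact h0 c hc1

/-- `t z ∈ Z j` iff `2 ^ (j + 1) z = 0`. -/
theorem rtJ_tmem (hc : ChOk S ch d pl) (hp : PVec d p) [Nonempty J] (j : ℕ) (z : V) :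
    (rtJ S hS H ch d p).t z ∈ (rtJ S hS H ch d p).Z j ↔ (2 : ℕ) ^ (j + 1) • z = 0 := by
  have hco : CodeOk S ch d p := Code.codeOk hS hc hp
  constructor
  · intro h1
    have h2 : IsPr S (chiJ ch p) j (tor S (chiJ ch p) z) := h1
    rw [pow_succ', mul_smul]
    refine hco.inv hS fun s => ?_
    rw [dl_nsmul]
    exact h2.sel.lev s
  · intro h1
    exact isPr_tor hS hco.chi h1

/-- The codes of the torsion elements. -/
theorem rtJ_kz (hc : ChOk S ch d pl) (hp : PVec d p) [Nonempty J] (z : V) (a : CodeJ d J) :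
    (rtJ S hS H ch d p).c a = ((rtJ S hS H ch d p).t z).1 ↔
      ∃ w, (2 : ℕ) • z = S.iota w ∧ a = kapJ d J w := by
  have hco : CodeOk S ch d p := Code.codeOk hS hc hp
  constructor
  · intro h1
    have h1' : (fun s => S.iota (homJ ch d p a s)) = dl (chiJ ch p) z := h1
    have h2 : (2 : ℕ) • ((2 : ℕ) • z) = 0 := by
      refine hco.inv hS fun s => ?_
      rw [dl_nsmul, ← congrFun h1' s]
      exact Sys.two_iota S _
    obtain ⟨w, hw⟩ := hS.iota_range _ h2
    refine ⟨w, hw.symm, hco.inj (funext fun s => hS.iota_inj ?_)⟩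
    rw [hco.kap w z hw.symm s]
    exact congrFun h1' s
  · rintro ⟨w, h1, rfl⟩
    exact funext fun s => hco.kap w z h1 s

include hS in
/-- The pairing of a pure local element. -/
private theorem GenV_CTr_loc [Finite k] (hc : ChOk S ch d pl) (hp : PVec d p) (hp' : PVec d p')
    (hs : SymEq d p p') [Nonempty J] {w : Pl → V} (hw : IsLoc S (chiJ ch p) w)
    {b : CodeJ d J} (hb : b ∈ SelpJ d p) :
    CTr S (chiJ ch p') (0, w) (homJ ch d p' b) = CTr S (chiJ ch p) (0, w) (homJ ch d p b) := by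
  classical
  have hco : CodeOk S ch d p := Code.codeOk hS hc hp
  have hco' : CodeOk S ch d p' := Code.codeOk hS hc hp'
  have hw' : IsLoc S (chiJ ch p') w := (isLoc_iff hS hc hp hp' hs w).mp hw
  have hb' : b ∈ SelpJ d p' := by rw [← selpJ_congr hc.two hp hp' hs]; exact hb
  choose hf hhf using hS.half
  let Q : Pl → V := fun v => if v ∈ S.good then 0 else hf (w v)
  have hQ : ∀ chi : G → ZMod 2, IsLoc S chi w → RLift S chi ((0 : G → V), w) 0 Q := by
    intro chi hl
    refine ⟨⟨⟨⊤, hS.top_mem, fun _ _ _ => rfl⟩, fun s t => ?_, fun s => ?_, fun v s hs' => ?_⟩,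
      fun v hv => ?_⟩
    · change (0 : V) = 0 + tw chi s 0
      rw [tw_zero, add_zero]
    · exact smul_zero _
    · change (0 : V) = (2 : ℕ) • dl chi (if v ∈ S.good then 0 else hf (w v)) s
      split_ifs with hv
      · rw [dl_zero, smul_zero]
      · rw [← dl_nsmul, hhf, hl.2 v hv s hs']
    · change (2 : ℕ) • (if v ∈ S.good then 0 else hf (w v)) = w v
      rw [if_neg hv, hhf]
  rw [CTr_of_rlift hS hco'.chi (hQ _ hw') ((isRel_homJ_iff hS hc hp' b).mpr hb'),
    CTr_of_rlift hS hco.chi (hQ _ hw) ((isRel_homJ_iff hS hc hp b).mpr hb)]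
  refine finsum_congr fun v => ?_
  by_cases hv : v ∈ S.good
  · have h1 : ∀ chi : G → ZMod 2, S.xi chi (0 : G → V) Q v = (0, 0) := by
      intro chi
      have h2 : Q v = 0 := if_pos hv
      rw [Sys.xi, h2, dl_zero, dl_zero, Pi.zero_apply, Pi.zero_apply, sub_zero, Sys.un_zero hS]
    rw [h1, h1]
    simp only [Sys.sy, sym, map_zero, LinearMap.zero_apply, mul_zero, add_zero]
  · have h1 : S.xi (chiJ ch p') (0 : G → V) Q v = S.xi (chiJ ch p) (0 : G → V) Q v := by
      rw [Sys.xi, Sys.xi]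
      have h2 : ∀ s ∈ S.D v, dl (chiJ ch p') (Q v) s = dl (chiJ ch p) (Q v) s := by
        intro s hs'
        rw [dl, dl, tw, tw, chiJ_bad_eq hS hc hp hp' hs hv s hs']
      rw [h2 _ (hS.sg_mem v), h2 _ (hS.phi_mem v)]
    have h3 : S.loc v (homJ ch d p' b) = S.loc v (homJ ch d p b) := by
      unfold Sys.loc
      rw [homJ_bad_eq hS hc hp hp' hs hv b _ (hS.sg_mem v),
        homJ_bad_eq hS hc hp hp' hs hv b _ (hS.phi_mem v)]
    rw [h1, h3]

/-- Vectors with the same symbols have the same torsion data. -/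
theorem rtJ_same [Finite k] (hc : ChOk S ch d pl) (hp : PVec d p) (hp' : PVec d p')
    (hs : SymEq d p p') [Nonempty J] :
    RT.Same (rtJ S hS H ch d p) (rtJ S hS H ch d p') (SelpJ d p) (plJ S ch p) := by
  have hco : CodeOk S ch d p := Code.codeOk hS hc hp
  have hco' : CodeOk S ch d p' := Code.codeOk hS hc hp'
  refine ⟨fun z a => ?_, fun a => ?_, fun w hw b hb => ?_⟩
  · rw [rtJ_kz hS hc hp, rtJ_kz hS hc hp']
  · have key : ∀ q : J → k[X], PVec d q → CodeOk S ch d q →
        ((∃ m ∈ (rtJ S hS H ch d q).Z 1, m.1 = (rtJ S hS H ch d q).c a) ↔ a ∈ FJ S ch d q) := by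
      intro q hq hcq
      constructor
      · rintro ⟨m, hm, hma⟩
        have h1 : IsPr S (chiJ ch q) 1 m := hm
        have h2 := h1.sel
        rw [hma] at h2
        exact Sys.isSel1_of hS h2
      · intro ha
        obtain ⟨y, h1, h2⟩ := exists_rigid (Sys.isSel_iota hS hcq.chi ha)
        exact ⟨y, h1, h2⟩
    rw [key p' hp' hco', key p hp hco, FJ_congr hS hc hp hp' hs]
  · exact GenV_CTr_loc hS hc hp hp' hs hw hb

end rtJ

end Pool.Agent.SmH
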