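import Mathlib

/-!
# HEIGHTS, block I_gen: rigid towers (abstract)

`W : RT F V N M1 M` describes the rigid Selmer elements of one twist: `W.Z i ⊆ M1 × N` are the rigid
elements of level `i` (cochain part, local part), `W.t z` the torsion elements, `W.c a` the cochain of
the code `a`, `W.P y d` the rigid pairing and `W.q i` the height form of level `i`.

`RT.IsCor W W' Ft PL j kk Θ`: the relation `Θ` between the rigid elements of level `j` of the two twists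
respects everything (the pairing on level `kk`).
`exists_cor`: two twists with towers with the same data are related.
-/

set_option autoImplicit false

namespace Pool.Agent.SmH

/-- The rigid tower of a twist. -/
structure RT (F V N M1 M : Type*) [AddCommGroup F] [Module (ZMod 2) F] [AddCommGroup V]
    [AddCommGroup N] [AddCommGroup M1] [AddCommGroup M] where
  Z : ℕ → AddSubgroup (M1 × N)
  t : V →+ M1 × N
  c : F →+ M1
  P : M1 × N → F → ZMod 2
  q : ℕ → M1 × N → M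

namespace RT

variable {F V N M1 M : Type*} [AddCommGroup F] [Module (ZMod 2) F] [AddCommGroup V]
  [AddCommGroup N] [AddCommGroup M1] [AddCommGroup M]

/-- The facts for one twist: `Ft` = the codes of the relaxed group, `PL` = the pure local elements. -/
structure Ok (W : RT F V N M1 M) (Ft : Set F) (PL : AddSubgroup N) : Prop where
  zero : ∀ y, y ∈ W.Z 0 ↔ y.1 = 0 ∧ y.2 ∈ PL
  mono : ∀ i, W.Z i ≤ W.Z (i + 1)
  lev : ∀ i, ∀ y ∈ W.Z i, (2 : ℕ) ^ i • y.1 = 0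
  low : ∀ i j, ∀ y ∈ W.Z j, (2 : ℕ) ^ i • y.1 = 0 → y ∈ W.Z i
  tmem : ∀ i z, (2 : ℕ) ^ i • (W.t z).1 = 0 → W.t z ∈ W.Z i
  half : ∀ z : V, ∃ z', (2 : ℕ) • z' = z
  crange : ∀ i, ∀ y ∈ W.Z i, (2 : ℕ) • y.1 = 0 → ∃ a, y.1 = W.c a
  Padd : ∀ i, ∀ y ∈ W.Z i, ∀ y' ∈ W.Z i, ∀ d ∈ Ft, W.P (y + y') d = W.P y d + W.P y' d
  Ptor : ∀ i z, W.t z ∈ W.Z i → ∀ d ∈ Ft, W.P (W.t z) d = 0
  Ptwo : ∀ i, ∀ y ∈ W.Z (i + 1), ∀ d ∈ Ft, W.P ((2 : ℕ) • y) d = 0
  crit : ∀ i, ∀ y ∈ W.Z i, (∀ d ∈ Ft, W.P y d = 0) → ∃ y' ∈ W.Z (i + 1), (2 : ℕ) • y' = y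

/-- Towers `y l` of level `jl l` above the codes `cc l`, which are independent modulo the torsion
codes. -/
structure Tow (W : RT F V N M1 M) {r : ℕ} (j : ℕ) (cc : Fin r → F) (jl : Fin r → ℕ)
    (y : Fin r → M1 × N) : Prop where
  pos : ∀ l, 1 ≤ jl l
  le : ∀ l, jl l ≤ j
  mem : ∀ l, y l ∈ W.Z (jl l)
  top : ∀ l, (2 : ℕ) ^ (jl l - 1) • (y l).1 = W.c (cc l)
  indep : ∀ x : Fin r → ZMod 2, (∃ z, W.c (∑ l, x l • cc l) = (W.t z).1) → x = 0

/-- The codes of level `i` are spanned by the `cc l` with `i ≤ jl l` modulo the torsion codes. -/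
def Span (W : RT F V N M1 M) {r : ℕ} (cc : Fin r → F) (jl : Fin r → ℕ) (i : ℕ) : Prop :=
  ∀ m ∈ W.Z i, ∀ a, (2 : ℕ) ^ (i - 1) • m.1 = W.c a →
    ∃ x : Fin r → ZMod 2, (∃ z, W.c (a - ∑ l, x l • cc l) = (W.t z).1) ∧ ∀ l, x l ≠ 0 → i ≤ jl l

section gen

variable {W : RT F V N M1 M} {Ft : Set F} {PL : AddSubgroup N}

theorem Ok.Zmono (h : W.Ok Ft PL) {i j : ℕ} (hij : i ≤ j) : W.Z i ≤ W.Z j := by
  induction hij with
  | refl => exact le_rfl
  | step _ ih => exact ih.trans (h.mono _)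

theorem Ok.loc_mem (h : W.Ok Ft PL) {w : N} (hw : w ∈ PL) (i : ℕ) : ((0 : M1), w) ∈ W.Z i :=
  h.Zmono (Nat.zero_le i) ((h.zero _).mpr ⟨rfl, hw⟩)

theorem Ok.halfPow (h : W.Ok Ft PL) (n : ℕ) (z : V) : ∃ z', (2 : ℕ) ^ n • z' = z := by
  induction n with
  | zero => exact ⟨z, by rw [pow_zero, one_smul]⟩
  | succ n ih =>
    obtain ⟨z', hz'⟩ := ih
    obtain ⟨z'', hz''⟩ := h.half z'
    exact ⟨z'', by rw [pow_succ, mul_smul, hz'', hz']⟩

theorem two_F (a : F) : (2 : ℕ) • a = 0 := by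
  rw [← Nat.cast_smul_eq_nsmul (ZMod 2)]
  have : ((2 : ℕ) : ZMod 2) = 0 := by decide
  rw [this, zero_smul]

theorem c_two (W : RT F V N M1 M) (a : F) : (2 : ℕ) • W.c a = 0 := by
  rw [← map_nsmul, two_F, map_zero]

/-- The parameters: coefficients of the towers, a torsion point, a pure local element. -/
def Par (W : RT F V N M1 M) (PL : AddSubgroup N) (j r : ℕ) :
    AddSubgroup ((Fin r → ℤ) × (V × N)) where
  carrier := {α | W.t α.2.1 ∈ W.Z j ∧ α.2.2 ∈ PL}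
  zero_mem' := ⟨by simp, PL.zero_mem⟩
  add_mem' := by
    rintro a b ⟨h1, h2⟩ ⟨h3, h4⟩
    refine ⟨?_, PL.add_mem h2 h4⟩
    change W.t (a.2.1 + b.2.1) ∈ W.Z j
    rw [map_add]
    exact (W.Z j).add_mem h1 h3
  neg_mem' := by
    rintro a ⟨h1, h2⟩
    refine ⟨?_, PL.neg_mem h2⟩
    change W.t (-a.2.1) ∈ W.Z j
    rw [map_neg]
    exact (W.Z j).neg_mem h1

/-- The element with given parameters. -/
def phi (W : RT F V N M1 M) {r : ℕ} (y : Fin r → M1 × N) :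
    ((Fin r → ℤ) × (V × N)) →+ M1 × N where
  toFun α := ∑ l, α.1 l • y l + W.t α.2.1 + (0, α.2.2)
  map_zero' := by simp
  map_add' a b := by
    have h1 : ((0 : M1), (a + b).2.2) = (0, a.2.2) + (0, b.2.2) := by simp
    rw [h1]
    simp only [Prod.fst_add, Prod.snd_add, Pi.add_apply, add_smul, Finset.sum_add_distrib, map_add]
    abel

theorem phi_apply (W : RT F V N M1 M) {r : ℕ} (y : Fin r → M1 × N)
    (α : (Fin r → ℤ) × (V × N)) :
    W.phi y α = ∑ l, α.1 l • y l + W.t α.2.1 + (0, α.2.2) := rfl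

theorem phi_fst (W : RT F V N M1 M) {r : ℕ} (y : Fin r → M1 × N)
    (α : (Fin r → ℤ) × (V × N)) :
    (W.phi y α).1 = ∑ l, α.1 l • (y l).1 + (W.t α.2.1).1 := by
  rw [phi_apply, Prod.fst_add, Prod.fst_add, Prod.fst_sum, add_zero]
  rfl

theorem phi_snd (W : RT F V N M1 M) {r : ℕ} (y : Fin r → M1 × N)
    (α : (Fin r → ℤ) × (V × N)) :
    (W.phi y α).2 = ∑ l, α.1 l • (y l).2 + (W.t α.2.1).2 + α.2.2 := by
  rw [phi_apply, Prod.snd_add, Prod.snd_add, Prod.snd_sum]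
  rfl

theorem phi_mem (h : W.Ok Ft PL) {r j : ℕ} {cc : Fin r → F} {jl : Fin r → ℕ}
    {y : Fin r → M1 × N} (hy : W.Tow j cc jl y) {α : (Fin r → ℤ) × (V × N)}
    (hα : α ∈ W.Par PL j r) : W.phi y α ∈ W.Z j := by
  rw [phi_apply]
  exact (W.Z j).add_mem ((W.Z j).add_mem ((W.Z j).sum_mem fun l _ =>
    (W.Z j).zsmul_mem (h.Zmono (hy.le l) (hy.mem l)) _) hα.1) (h.loc_mem hα.2 j)

/-- GENERATION. -/
theorem phi_surj (h : W.Ok Ft PL) {r j : ℕ} {cc : Fin r → F} {jl : Fin r → ℕ}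
    {y : Fin r → M1 × N} (hy : W.Tow j cc jl y) (i : ℕ) (hi : i ≤ j)
    (hsp : ∀ i', 1 ≤ i' → i' ≤ i → W.Span cc jl i') :
    ∀ m ∈ W.Z i, ∃ α ∈ W.Par PL j r, W.phi y α = m := by
  induction i with
  | zero =>
    intro m hm
    obtain ⟨h1, h2⟩ := (h.zero m).mp hm
    refine ⟨(0, 0, m.2), ⟨by simp, h2⟩, ?_⟩
    rw [phi_apply]
    simp only [Pi.zero_apply, zero_smul, Finset.sum_const_zero, map_zero, zero_add]
    exact Prod.ext h1.symm rfl
  | succ i ih =>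
    intro m hm
    have hm2 : (2 : ℕ) • ((2 : ℕ) ^ i • m).1 = 0 := by
      have := h.lev _ m hm
      rw [pow_succ', mul_smul] at this
      exact this
    obtain ⟨a, ha⟩ := h.crange (i + 1) ((2 : ℕ) ^ i • m) ((W.Z _).nsmul_mem hm _) hm2
    have ha' : (2 : ℕ) ^ i • m.1 = W.c a := ha
    obtain ⟨x, ⟨z, hz⟩, hx⟩ := hsp (i + 1) (Nat.succ_pos i) le_rfl m hm a
      (by rw [Nat.add_sub_cancel]; exact ha')
    obtain ⟨z', hz'⟩ := h.halfPow i z
    have htz : (2 : ℕ) ^ i • (W.t z').1 = W.c (a - ∑ l, x l • cc l) := by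
      rw [hz, ← hz', map_nsmul]
      rfl
    have htz' : W.t z' ∈ W.Z (i + 1) := by
      refine h.tmem _ _ ?_
      rw [pow_succ', mul_smul, htz, c_two]
    let n : Fin r → ℤ := fun l => if x l = 0 then 0 else (2 : ℤ) ^ (jl l - (i + 1))
    let β : (Fin r → ℤ) × (V × N) := (n, z', 0)
    have hβ : β ∈ W.Par PL j r := ⟨h.Zmono hi htz', PL.zero_mem⟩
    have hterm : ∀ l, (2 : ℕ) ^ i • (n l • (y l).1) = W.c (x l • cc l) := by
      intro l
      by_cases hl : x l = 0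
      · simp only [n, if_pos hl, hl, zero_smul, smul_zero, map_zero]
      · have h1 : x l = 1 := by
          have : ∀ a : ZMod 2, a ≠ 0 → a = 1 := by decide
          exact this _ hl
        have hle := hx l hl
        simp only [n, if_neg hl, h1, one_smul]
        rw [← hy.top l]
        have h2 : ((2 : ℤ) ^ (jl l - (i + 1))) • (y l).1 = (2 : ℕ) ^ (jl l - (i + 1)) • (y l).1 := by
          rw [← natCast_zsmul]
          push_cast
          rfl
        rw [h2, smul_smul, ← pow_add]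
        congr 2
        omega
    have hm' : m - W.phi y β ∈ W.Z i := by
      refine h.low i j _ ((W.Z j).sub_mem (h.Zmono hi hm) (phi_mem h hy hβ)) ?_
      rw [Prod.fst_sub, smul_sub, ha', phi_fst, smul_add, Finset.smul_sum,
        Finset.sum_congr rfl fun l _ => hterm l, htz, ← map_sum, ← map_add, ← map_sub]
      simp
    obtain ⟨α, hα, hα'⟩ := ih (Nat.le_of_succ_le hi)
      (fun i' h1 h2 => hsp i' h1 (Nat.le_succ_of_le h2)) _ hm'
    exact ⟨α + β, (W.Par PL j r).add_mem hα hβ, by rw [map_add, hα', sub_add_cancel]⟩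

/-- The kernel of the parametrisation (first components). -/
theorem phi_ker {r j : ℕ} {cc : Fin r → F} {jl : Fin r → ℕ} {y : Fin r → M1 × N}
    (h : W.Ok Ft PL) (hy : W.Tow j cc jl y) (α : (Fin r → ℤ) × (V × N)) :
    (W.phi y α).1 = 0 ↔ (∀ l, (2 : ℤ) ^ jl l ∣ α.1 l) ∧ (W.t α.2.1).1 = 0 := by
  have hlev : ∀ l, ∀ n : ℤ, (2 : ℤ) ^ jl l ∣ n → n • (y l).1 = 0 := by
    rintro l n ⟨e, rfl⟩
    rw [mul_comm, mul_smul]
    have h1 : ((2 : ℤ) ^ jl l) • (y l).1 = (2 : ℕ) ^ jl l • (y l).1 := by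
      rw [← natCast_zsmul]
      push_cast
      rfl
    rw [h1, h.lev _ _ (hy.mem l), smul_zero]
  constructor
  · intro h0
    have hdiv : ∀ l, (2 : ℤ) ^ jl l ∣ α.1 l := by
      by_contra hcon
      have hex : ∃ e : ℕ, ∀ l, (2 : ℤ) ^ jl l ∣ 2 ^ e * α.1 l :=
        ⟨j, fun l => Dvd.dvd.mul_right (pow_dvd_pow 2 (hy.le l)) _⟩
      classical
      have hspec := Nat.find_spec hex
      set e := Nat.find hex with he
      have he0 : e ≠ 0 := by
        intro h1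
        apply hcon
        intro l
        have := hspec l
        rwa [h1, pow_zero, one_mul] at this
      obtain ⟨e', he'⟩ := Nat.exists_eq_succ_of_ne_zero he0
      have hmin : ¬ ∀ l, (2 : ℤ) ^ jl l ∣ 2 ^ e' * α.1 l :=
        Nat.find_min hex (by rw [← he, he']; exact Nat.lt_succ_self e')
      let x : Fin r → ZMod 2 := fun l => if (2 : ℤ) ^ jl l ∣ 2 ^ e' * α.1 l then 0 else 1
      have hterm : ∀ l, (2 ^ e' * α.1 l) • (y l).1 = W.c (x l • cc l) := by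
        intro l
        by_cases hl : (2 : ℤ) ^ jl l ∣ 2 ^ e' * α.1 l
        · simp only [x, if_pos hl, zero_smul, map_zero]
          exact hlev l _ hl
        · simp only [x, if_neg hl, one_smul]
          have h1 : (2 : ℤ) ^ jl l ∣ 2 * (2 ^ e' * α.1 l) := by
            have := hspec l
            rwa [he', pow_succ', mul_assoc] at this
          have hpos := hy.pos l
          obtain ⟨b, hb⟩ : ∃ b, jl l = b + 1 := ⟨jl l - 1, by omega⟩
          rw [hb, pow_succ'] at h1 hl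
          have h2 : (2 : ℤ) ^ b ∣ 2 ^ e' * α.1 l := by
            exact (mul_dvd_mul_iff_left (by norm_num : (2 : ℤ) ≠ 0)).mp h1
          obtain ⟨u, hu⟩ := h2
          have hodd : ¬ 2 ∣ u := by
            rintro ⟨v, hv⟩
            apply hl
            rw [hu, hv]
            exact ⟨v, by ring⟩
          obtain ⟨v, hv⟩ : ∃ v, u = 2 * v + 1 := ⟨u / 2, by omega⟩
          have htop := hy.top l
          rw [hb, Nat.add_sub_cancel] at htop
          have h3 : ((2 : ℤ) ^ b) • (y l).1 = W.c (cc l) := by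
            rw [← htop, ← natCast_zsmul]
            push_cast
            rfl
          rw [hu, mul_comm, mul_smul, h3, hv, add_smul, one_smul, mul_comm, mul_smul]
          have h4 : (2 : ℤ) • W.c (cc l) = 0 := by
            have := c_two W (cc l)
            rwa [← natCast_zsmul] at this
          rw [h4, smul_zero, zero_add]
      have hsum : W.c (∑ l, x l • cc l) = (W.t (-((2 : ℕ) ^ e' • α.2.1))).1 := by
        rw [map_sum, ← Finset.sum_congr rfl fun l _ => hterm l]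
        have h5 : (2 : ℕ) ^ e' • (W.phi y α).1 = 0 := by rw [h0, smul_zero]
        rw [phi_fst, smul_add, Finset.smul_sum] at h5
        have h6 : ∀ l, (2 : ℕ) ^ e' • (α.1 l • (y l).1) = (2 ^ e' * α.1 l) • (y l).1 := by
          intro l
          rw [mul_smul, ← natCast_zsmul]
          push_cast
          rfl
        rw [Finset.sum_congr rfl fun l _ => h6 l] at h5
        rw [map_neg, map_nsmul, Prod.fst_neg, Prod.smul_fst]
        exact eq_neg_of_add_eq_zero_left h5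
      have hx0 := hy.indep x ⟨_, hsum⟩
      apply hmin
      intro l
      by_contra hl
      have := congrFun hx0 l
      simp only [x, if_neg hl, Pi.zero_apply, one_ne_zero] at this
    refine ⟨hdiv, ?_⟩
    rw [phi_fst, Finset.sum_congr rfl fun l _ => hlev l _ (hdiv l), Finset.sum_const_zero,
      zero_add] at h0
    exact h0
  · rintro ⟨h1, h2⟩
    rw [phi_fst, h2, add_zero]
    exact Finset.sum_eq_zero fun l _ => hlev l _ (h1 l)

end gen

/-- The two twists have the same torsion data, the same codes of level `1` and the same pairing of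
the pure local elements. -/
structure Same (W W' : RT F V N M1 M) (Ft : Set F) (PL : AddSubgroup N) : Prop where
  kz : ∀ z a, W'.c a = (W'.t z).1 ↔ W.c a = (W.t z).1
  one : ∀ a, (∃ m ∈ W'.Z 1, m.1 = W'.c a) ↔ ∃ m ∈ W.Z 1, m.1 = W.c a
  ploc : ∀ w ∈ PL, ∀ d ∈ Ft, W'.P (0, w) d = W.P (0, w) d

/-- The relation `Θ` between the rigid elements of level `j` respects all their structure (the
pairing on level `kk`). -/
structure IsCor (W W' : RT F V N M1 M) (Ft : Set F) (PL : AddSubgroup N) (j kk : ℕ)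
    (Θ : M1 × N → M1 × N → Prop) : Prop where
  lev : ∀ y y', Θ y y' → ∀ i ≤ j, (y ∈ W.Z i ↔ y' ∈ W'.Z i)
  left : ∀ y ∈ W.Z j, ∃ y', Θ y y'
  right : ∀ y' ∈ W'.Z j, ∃ y, Θ y y'
  add : ∀ y1 y1' y2 y2', Θ y1 y1' → Θ y2 y2' → Θ (y1 + y2) (y1' + y2')
  tor : ∀ z, W.t z ∈ W.Z j → Θ (W.t z) (W'.t z)
  loc : ∀ w ∈ PL, Θ (0, w) (0, w)
  top : ∀ y y', Θ y y' → ∀ i, 1 ≤ i → i ≤ j → ∀ a, y ∈ W.Z i →
    ((2 : ℕ) ^ (i - 1) • y.1 = W.c a ↔ (2 : ℕ) ^ (i - 1) • y'.1 = W'.c a)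
  pair : ∀ y y', Θ y y' → y ∈ W.Z kk → ∀ d ∈ Ft, W'.P y' d = W.P y d
  q : ∀ y y', Θ y y' → y ∈ W.Z j → W'.q j y' = W.q j y

section cor

variable {W W' : RT F V N M1 M} {Ft : Set F} {PL : AddSubgroup N}

theorem Same.symm (hs : Same W W' Ft PL) : Same W' W Ft PL :=
  ⟨fun z a => (hs.kz z a).symm, fun a => (hs.one a).symm, fun w hw d hd => (hs.ploc w hw d hd).symm⟩

theorem t_mem_iff (h : W.Ok Ft PL) (j : ℕ) (z : V) :
    W.t z ∈ W.Z j ↔ W.c 0 = (W.t ((2 : ℕ) ^ j • z)).1 := by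
  rw [map_zero, map_nsmul, Prod.smul_fst]
  exact ⟨fun h1 => (h.lev _ _ h1).symm, fun h1 => h.tmem _ _ h1.symm⟩

theorem t_mem (h : W.Ok Ft PL) (h' : W'.Ok Ft PL) (hs : Same W W' Ft PL) (j : ℕ) (z : V) :
    W'.t z ∈ W'.Z j ↔ W.t z ∈ W.Z j := by
  rw [t_mem_iff h, t_mem_iff h', hs.kz]

theorem Par_eq (h : W.Ok Ft PL) (h' : W'.Ok Ft PL) (hs : Same W W' Ft PL) (j r : ℕ) :
    W'.Par PL j r = W.Par PL j r := by
  ext α
  change W'.t α.2.1 ∈ W'.Z j ∧ α.2.2 ∈ PL ↔ W.t α.2.1 ∈ W.Z j ∧ α.2.2 ∈ PL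
  rw [t_mem h h' hs]

/-- The kernels of the parametrisations agree. -/
theorem ker_iff (h : W.Ok Ft PL) (h' : W'.Ok Ft PL) (hs : Same W W' Ft PL) {r j : ℕ}
    {cc : Fin r → F} {jl : Fin r → ℕ} {y y' : Fin r → M1 × N} (hy : W.Tow j cc jl y)
    (hy' : W'.Tow j cc jl y') (α : (Fin r → ℤ) × (V × N)) :
    (W'.phi y' α).1 = 0 ↔ (W.phi y α).1 = 0 := by
  rw [phi_ker h hy, phi_ker h' hy']
  have h1 := hs.kz α.2.1 0
  rw [map_zero, map_zero, eq_comm, eq_comm (a := (0 : M1)) (b := (W.t α.2.1).1)] at h1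
  rw [h1]

/-- The levels agree. -/
theorem lev_iff (h : W.Ok Ft PL) (h' : W'.Ok Ft PL) (hs : Same W W' Ft PL) {r j : ℕ}
    {cc : Fin r → F} {jl : Fin r → ℕ} {y y' : Fin r → M1 × N} (hy : W.Tow j cc jl y)
    (hy' : W'.Tow j cc jl y') {α : (Fin r → ℤ) × (V × N)} (hα : α ∈ W.Par PL j r) (i : ℕ) :
    W'.phi y' α ∈ W'.Z i ↔ W.phi y α ∈ W.Z i := by
  have hα' : α ∈ W'.Par PL j r := by rw [Par_eq h h' hs]; exact hα
  have e : ∀ (X : RT F V N M1 M) (u : Fin r → M1 × N), X.Ok Ft PL → X.phi u α ∈ X.Z j →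
      (X.phi u α ∈ X.Z i ↔ (X.phi u ((2 : ℕ) ^ i • α)).1 = 0) := by
    intro X u hX hu
    rw [map_nsmul, Prod.smul_fst]
    exact ⟨fun h1 => hX.lev _ _ h1, fun h1 => hX.low _ j _ hu h1⟩
  rw [e W' y' h' (phi_mem h' hy' hα'), e W y h (phi_mem h hy hα), ker_iff h h' hs hy hy']

/-- A code of level `1` is a linear combination of the tops of the towers modulo a torsion code. -/
theorem cod_par (h : W.Ok Ft PL) (hs : Same W W' Ft PL) {r j : ℕ}
    {cc : Fin r → F} {jl : Fin r → ℕ} {y y' : Fin r → M1 × N} (hy : W.Tow j cc jl y)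
    (hsp : W.Span cc jl 1)
    (hy' : W'.Tow j cc jl y') {a : F} {m : M1 × N} (hm : m ∈ W.Z j) (ha : m.1 = W.c a) :
    ∃ α : (Fin r → ℤ) × (V × N), (W.phi y α).1 = W.c a ∧ (W'.phi y' α).1 = W'.c a := by
  have hm1 : m ∈ W.Z 1 := by
    refine h.low 1 j m hm ?_
    rw [pow_one, ha, c_two]
  obtain ⟨x, ⟨z, hz⟩, -⟩ := hsp m hm1 a (by rw [Nat.sub_self, pow_zero, one_smul, ha])
  have hz' := (hs.kz z _).mpr hz
  have key : ∀ (X : RT F V N M1 M) (u : Fin r → M1 × N),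
      (∀ l, (2 : ℕ) ^ (jl l - 1) • (u l).1 = X.c (cc l)) →
      X.c (a - ∑ l, x l • cc l) = (X.t z).1 →
      (X.phi u (fun l => if x l = 0 then 0 else (2 : ℤ) ^ (jl l - 1), z, 0)).1 = X.c a := by
    intro X u hu hX
    have hterm : ∀ l, (if x l = 0 then (0 : ℤ) else (2 : ℤ) ^ (jl l - 1)) • (u l).1 =
        X.c (x l • cc l) := by
      intro l
      by_cases hl : x l = 0
      · rw [if_pos hl, hl, zero_smul, zero_smul, map_zero]
      · have h1 : x l = 1 := by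
          have : ∀ a : ZMod 2, a ≠ 0 → a = 1 := by decide
          exact this _ hl
        rw [if_neg hl, h1, one_smul, ← hu l, ← natCast_zsmul]
        push_cast
        rfl
    rw [phi_fst]
    change ∑ l, (if x l = 0 then (0 : ℤ) else (2 : ℤ) ^ (jl l - 1)) • (u l).1 + (X.t z).1 = X.c a
    rw [Finset.sum_congr rfl fun l _ => hterm l, ← hX, ← map_sum, ← map_add]
    congr 1
    abel
  exact ⟨_, key W y hy.top hz, key W' y' hy'.top hz'⟩

/-- The tops agree. -/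
theorem top_imp (h : W.Ok Ft PL) (h' : W'.Ok Ft PL) (hs : Same W W' Ft PL) {r j : ℕ}
    {cc : Fin r → F} {jl : Fin r → ℕ} {y y' : Fin r → M1 × N} (hy : W.Tow j cc jl y)
    (hsp : W.Span cc jl 1) (hy' : W'.Tow j cc jl y') {α : (Fin r → ℤ) × (V × N)}
    (hα : α ∈ W.Par PL j r) (n : ℕ) {a : F} (ha : (2 : ℕ) ^ n • (W.phi y α).1 = W.c a) :
    (2 : ℕ) ^ n • (W'.phi y' α).1 = W'.c a := by
  have hm : (2 : ℕ) ^ n • W.phi y α ∈ W.Z j := (W.Z j).nsmul_mem (phi_mem h hy hα) _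
  obtain ⟨β, h1, h2⟩ := cod_par h hs hy hsp hy' hm ha
  have h3 : (W.phi y ((2 : ℕ) ^ n • α - β)).1 = 0 := by
    rw [map_sub, map_nsmul, Prod.fst_sub, Prod.smul_fst, ha, h1, sub_self]
  have h4 := (ker_iff h h' hs hy hy' _).mpr h3
  rw [map_sub, map_nsmul, Prod.fst_sub, Prod.smul_fst, h2] at h4
  exact sub_eq_zero.mp h4

theorem Ok.P_zero (h : W.Ok Ft PL) {d : F} (hd : d ∈ Ft) : W.P 0 d = 0 := by
  have h1 := h.Padd 0 0 (W.Z 0).zero_mem 0 (W.Z 0).zero_mem d hd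
  rw [add_zero] at h1
  exact left_eq_add.mp h1

theorem Ok.P_neg (h : W.Ok Ft PL) {j : ℕ} {m : M1 × N} (hm : m ∈ W.Z j) {d : F} (hd : d ∈ Ft) :
    W.P (-m) d = W.P m d := by
  have h1 := h.Padd j m hm (-m) ((W.Z j).neg_mem hm) d hd
  rw [add_neg_cancel, h.P_zero hd] at h1
  have h2 : ∀ a b : ZMod 2, 0 = a + b → b = a := by decide
  exact h2 _ _ h1

theorem Ok.P_nsmul (h : W.Ok Ft PL) {j : ℕ} {m : M1 × N} (hm : m ∈ W.Z j) {d : F} (hd : d ∈ Ft)
    (n : ℕ) : W.P (n • m) d = (n : ZMod 2) * W.P m d := by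
  induction n with
  | zero => rw [zero_smul, h.P_zero hd, Nat.cast_zero, zero_mul]
  | succ n ih =>
    rw [succ_nsmul, h.Padd j _ ((W.Z j).nsmul_mem hm n) _ hm d hd, ih]
    push_cast
    ring

theorem Ok.P_zsmul (h : W.Ok Ft PL) {j : ℕ} {m : M1 × N} (hm : m ∈ W.Z j) {d : F} (hd : d ∈ Ft)
    (n : ℤ) : W.P (n • m) d = (n : ZMod 2) * W.P m d := by
  rcases Int.eq_nat_or_neg n with ⟨e, rfl | rfl⟩
  · rw [natCast_zsmul, h.P_nsmul hm hd]
    push_cast
    ring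
  · rw [neg_smul, natCast_zsmul, h.P_neg ((W.Z j).nsmul_mem hm e) hd, h.P_nsmul hm hd]
    push_cast
    have h3 : ∀ a : ZMod 2, -a = a := by decide
    rw [h3]

/-- The pairing of `phi y α` at level `kk`. -/
theorem P_phi (h : W.Ok Ft PL) {r j kk : ℕ} {cc : Fin r → F}
    {jl : Fin r → ℕ} {y : Fin r → M1 × N} (hy : W.Tow j cc jl y)
    {α : (Fin r → ℤ) × (V × N)} (hα : α ∈ W.Par PL j r) (hm : W.phi y α ∈ W.Z kk) {d : F}
    (hd : d ∈ Ft) :
    W.P (W.phi y α) d =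
      ∑ l, (if jl l ≤ kk then (α.1 l : ZMod 2) * W.P (y l) d else 0) + W.P (0, α.2.2) d := by
  have hyj : ∀ l, y l ∈ W.Z j := fun l => h.Zmono (hy.le l) (hy.mem l)
  have hsum : ∀ s : Finset (Fin r), W.P (∑ l ∈ s, α.1 l • y l) d =
      ∑ l ∈ s, W.P (α.1 l • y l) d := by
    intro s
    classical
    induction s using Finset.induction_on with
    | empty => rw [Finset.sum_empty, Finset.sum_empty, h.P_zero hd]
    | insert a s ha ih =>
      rw [Finset.sum_insert ha, Finset.sum_insert ha, h.Padd j _ ((W.Z j).zsmul_mem (hyj a) _) _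
        ((W.Z j).sum_mem fun l _ => (W.Z j).zsmul_mem (hyj l) _) d hd, ih]
  -- the coefficients of the towers of level `> kk` are even
  have heven : ∀ l, ¬ jl l ≤ kk → W.P (α.1 l • y l) d = 0 := by
    intro l hl
    have h1 : (W.phi y ((2 : ℤ) ^ kk • α)).1 = 0 := by
      rw [map_zsmul, Prod.smul_fst]
      have h2 := h.lev _ _ hm
      rw [← natCast_zsmul] at h2
      push_cast at h2
      exact h2
    have h3 := ((phi_ker h hy _).mp h1).1 l
    change (2 : ℤ) ^ jl l ∣ (2 : ℤ) ^ kk * α.1 l at h3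
    have h3' : (2 : ℤ) ^ (kk + 1) ∣ (2 : ℤ) ^ kk * α.1 l := (pow_dvd_pow 2 (by omega)).trans h3
    rw [pow_succ] at h3'
    have h4 : (2 : ℤ) ∣ α.1 l := (mul_dvd_mul_iff_left (by positivity : (2 : ℤ) ^ kk ≠ 0)).mp h3'
    rw [h.P_zsmul (hyj l) hd]
    have h5 : ((α.1 l : ℤ) : ZMod 2) = 0 := (ZMod.intCast_zmod_eq_zero_iff_dvd _ 2).mpr (by
      exact_mod_cast h4)
    rw [h5, zero_mul]
  rw [phi_apply, h.Padd j _ ((W.Z j).add_mem ((W.Z j).sum_mem fun l _ =>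
    (W.Z j).zsmul_mem (hyj l) _) hα.1) _ (h.loc_mem hα.2 j) d hd,
    h.Padd j _ ((W.Z j).sum_mem fun l _ => (W.Z j).zsmul_mem (hyj l) _) _ hα.1 d hd,
    h.Ptor j _ hα.1 d hd, add_zero, hsum]
  congr 1
  refine Finset.sum_congr rfl fun l _ => ?_
  split_ifs with hl
  · exact h.P_zsmul (hyj l) hd _
  · exact heven l hl

/-- The pairings of `phi y α` agree. -/
theorem P_phi_eq (h : W.Ok Ft PL) (h' : W'.Ok Ft PL) (hs : Same W W' Ft PL) {r j i kk : ℕ}
    {cc : Fin r → F} {jl : Fin r → ℕ} {y y' : Fin r → M1 × N} (hy : W.Tow j cc jl y)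
    (hy' : W'.Tow j cc jl y') (hP : ∀ l, jl l ≤ kk → ∀ d ∈ Ft, W'.P (y' l) d = W.P (y l) d)
    (hik : i ≤ kk) {α : (Fin r → ℤ) × (V × N)} (hα : α ∈ W.Par PL j r)
    (hm : W.phi y α ∈ W.Z i) {d : F} (hd : d ∈ Ft) :
    W'.P (W'.phi y' α) d = W.P (W.phi y α) d := by
  have hα' : α ∈ W'.Par PL j r := by rw [Par_eq h h' hs]; exact hα
  rw [P_phi h hy hα hm hd, P_phi h' hy' hα' ((lev_iff h h' hs hy hy' hα i).mpr hm) hd,
    hs.ploc _ hα.2 d hd]
  congr 1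
  refine Finset.sum_congr rfl fun l _ => ?_
  split_ifs with hl
  · rw [hP l (hl.trans hik) d hd]
  · rfl

/-- The levels are spanned in the second twist if they are in the first one. -/
theorem Span.transfer (h : W.Ok Ft PL) (h' : W'.Ok Ft PL) (hs : Same W W' Ft PL) {r j kk : ℕ}
    {cc : Fin r → F} {jl : Fin r → ℕ} {y y' : Fin r → M1 × N} (hy : W.Tow j cc jl y)
    (hsp : ∀ i, 1 ≤ i → i ≤ j → W.Span cc jl i)
    (hy' : W'.Tow j cc jl y') (hP : ∀ l, jl l ≤ kk → ∀ d ∈ Ft, W'.P (y' l) d = W.P (y l) d)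
    (hjk : j ≤ kk + 1) : ∀ i, 1 ≤ i → i ≤ j → W'.Span cc jl i := by
  intro i
  induction i using Nat.strong_induction_on with
  | _ i ih =>
  intro hi hij m hm a ha
  have ha1 : ∃ m' ∈ W'.Z 1, m'.1 = W'.c a := by
    refine ⟨(2 : ℕ) ^ (i - 1) • m, h'.low 1 i _ ((W'.Z i).nsmul_mem hm _) ?_, ha⟩
    rw [Prod.smul_fst, ha, pow_one, c_two]
  obtain ⟨m1, hm1, hm1'⟩ := (hs.one a).mp ha1
  rcases Nat.lt_or_ge 1 i with hi1 | hi1
  · obtain ⟨i, rfl⟩ : ∃ b, i = b + 1 := ⟨i - 1, by omega⟩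
    rw [Nat.add_sub_cancel] at ha
    -- the double of `m` is `phi' α`
    have hm2 : (2 : ℕ) • m ∈ W'.Z i := by
      refine h'.low i (i + 1) _ ((W'.Z (i + 1)).nsmul_mem hm _) ?_
      rw [Prod.smul_fst, smul_smul, ← pow_succ, h'.lev _ _ hm]
    obtain ⟨α, hα', hαm⟩ := phi_surj h' hy' i (by omega)
      (fun i' h1 h2 => ih i' (by omega) h1 (by omega)) _ hm2
    have hα : α ∈ W.Par PL j r := by rw [← Par_eq h h' hs]; exact hα'
    have hphi : W.phi y α ∈ W.Z i := (lev_iff h h' hs hy hy' hα i).mp (by rw [hαm]; exact hm2)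
    obtain ⟨m', hm', hmm⟩ := h.crit i _ hphi fun d hd => by
      rw [← P_phi_eq h h' hs hy hy' hP (by omega : i ≤ kk) hα hphi hd, hαm]
      exact h'.Ptwo i m hm d hd
    -- the top of `m'` is `a`
    have ht : (2 : ℕ) ^ i • m'.1 = W.c a := by
      obtain ⟨b, rfl⟩ : ∃ b, i = b + 1 := ⟨i - 1, by omega⟩
      have hsp1' := ih 1 (by omega) le_rfl (by omega)
      have e1 : (2 : ℕ) ^ b • (W'.phi y' α).1 = W'.c a := by
        rw [hαm, Prod.smul_fst, smul_smul, ← pow_succ, ha]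
      have e2 := top_imp h' h hs.symm hy' hsp1' hy hα' b e1
      rw [← hmm, Prod.smul_fst, smul_smul, ← pow_succ] at e2
      exact e2
    obtain ⟨x, ⟨z, hz⟩, hx⟩ := hsp (i + 1) (by omega) hij m' hm' a
      (by rw [Nat.add_sub_cancel]; exact ht)
    exact ⟨x, ⟨z, (hs.kz z _).mpr hz⟩, hx⟩
  · obtain rfl : i = 1 := by omega
    obtain ⟨x, ⟨z, hz⟩, hx⟩ := hsp 1 le_rfl hij m1 hm1 a
      (by rw [Nat.sub_self, pow_zero, one_smul, hm1'])
    exact ⟨x, ⟨z, (hs.kz z _).mpr hz⟩, hx⟩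

/-- GENERATION: two twists with towers with the same data are related. -/
theorem exists_cor (h : W.Ok Ft PL) (h' : W'.Ok Ft PL) (hs : Same W W' Ft PL) {r j kk : ℕ}
    {cc : Fin r → F} {jl : Fin r → ℕ} {y y' : Fin r → M1 × N} (hj : 1 ≤ j) (hy : W.Tow j cc jl y)
    (hsp : ∀ i, 1 ≤ i → i ≤ j → W.Span cc jl i)
    (hm : ∀ l, y' l ∈ W'.Z (jl l)) (ht : ∀ l, (2 : ℕ) ^ (jl l - 1) • (y' l).1 = W'.c (cc l))
    (hP : ∀ l, jl l ≤ kk → ∀ d ∈ Ft, W'.P (y' l) d = W.P (y l) d)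
    (hjk : j ≤ kk + 1)
    (hq : ∀ α ∈ W.Par PL j r, W'.q j (W'.phi y' α) = W.q j (W.phi y α)) :
    ∃ Θ, IsCor W W' Ft PL j kk Θ ∧ (∀ l, Θ (y l) (y' l)) ∧
      ∀ i, 1 ≤ i → i ≤ j → W'.Span cc jl i := by
  have hy' : W'.Tow j cc jl y' := by
    refine ⟨hy.pos, hy.le, hm, ht, fun x ⟨z, hz⟩ => hy.indep x ⟨z, (hs.kz z _).mp hz⟩⟩
  have hsp' := Span.transfer h h' hs hy hsp hy' hP hjk
  have hPar := Par_eq h h' hs j r
  refine ⟨fun m m' => ∃ α ∈ W.Par PL j r, W.phi y α = m ∧ W'.phi y' α = m', ?_, fun l => ?_,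
    hsp'⟩
  · refine ⟨?_, fun m hm => ?_, fun m hm => ?_, ?_, fun z hz => ?_, fun w hw => ?_, ?_, ?_, ?_⟩
    · rintro _ _ ⟨α, hα, rfl, rfl⟩ i -
      exact (lev_iff h h' hs hy hy' hα i).symm
    · obtain ⟨α, hα, rfl⟩ := phi_surj h hy j le_rfl hsp m hm
      exact ⟨_, α, hα, rfl, rfl⟩
    · obtain ⟨α, hα, rfl⟩ := phi_surj h' hy' j le_rfl hsp' m hm
      exact ⟨_, α, hPar ▸ hα, rfl, rfl⟩
    · rintro _ _ _ _ ⟨α, hα, rfl, rfl⟩ ⟨β, hβ, rfl, rfl⟩
      exact ⟨α + β, (W.Par PL j r).add_mem hα hβ, map_add _ _ _, map_add _ _ _⟩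
    · refine ⟨(0, z, 0), ⟨hz, PL.zero_mem⟩, ?_, ?_⟩ <;>
      · rw [phi_apply]
        simp
    · refine ⟨(0, 0, w), ⟨by simp, hw⟩, ?_, ?_⟩ <;>
      · rw [phi_apply]
        simp
    · rintro _ _ ⟨α, hα, rfl, rfl⟩ i - - a -
      exact ⟨fun h1 => top_imp h h' hs hy (hsp 1 le_rfl hj) hy' hα _ h1, fun h1 =>
        top_imp h' h hs.symm hy' (hsp' 1 le_rfl hj) hy (hPar ▸ hα) _ h1⟩
    · rintro _ _ ⟨α, hα, rfl, rfl⟩ hk d hd
      exact P_phi_eq h h' hs hy hy' hP le_rfl hα hk hd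
    · rintro _ _ ⟨α, hα, rfl, rfl⟩ -
      exact hq α hα
  · classical
    refine ⟨(Pi.single l 1, 0, 0), ⟨by simp, PL.zero_mem⟩, ?_, ?_⟩ <;>
    · rw [phi_apply]
      simp only [map_zero, add_zero]
      rw [Finset.sum_eq_single l]
      · rw [Pi.single_eq_same, one_smul]
        exact add_zero _
      · intro b _ hb
        rw [Pi.single_eq_of_ne hb, zero_smul]
      · intro hl
        exact absurd (Finset.mem_univ l) hl

end cor

end RT

end Pool.Agent.SmH
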