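import Pool.Agent.Lib.SmH.I.RT

/-!
# HEIGHTS, block I_gen: the sums over the rigid elements (abstract)

If two twists are related by `Θ` (`RT.IsCor`) the sums of the signs `NA`, `NT` agree up to the sign of
one chosen element.
-/

set_option autoImplicit false

namespace Pool.Agent.SmH

namespace RT

variable {F V N M1 M : Type*} [AddCommGroup F] [Module (ZMod 2) F] [AddCommGroup V]
  [AddCommGroup N] [AddCommGroup M1] [AddCommGroup M]

variable {W W' : RT F V N M1 M} {Ft : Set F} {PL : AddSubgroup N} {j kk : ℕ}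
  {Θ : M1 × N → M1 × N → Prop}

theorem IsCor.zero (hΘ : IsCor W W' Ft PL j kk Θ) : Θ 0 0 := hΘ.loc 0 PL.zero_mem

theorem IsCor.mem (hΘ : IsCor W W' Ft PL j kk Θ) {y y' : M1 × N} (h1 : Θ y y')
    (hy : y ∈ W.Z j) : y' ∈ W'.Z j := (hΘ.lev _ _ h1 j le_rfl).mp hy

theorem IsCor.mem' (hΘ : IsCor W W' Ft PL j kk Θ) {y y' : M1 × N} (h1 : Θ y y')
    (hy : y' ∈ W'.Z j) : y ∈ W.Z j := (hΘ.lev _ _ h1 j le_rfl).mpr hy

theorem IsCor.nsmul (hΘ : IsCor W W' Ft PL j kk Θ) {y y' : M1 × N} (h1 : Θ y y') (n : ℕ) :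
    Θ (n • y) (n • y') := by
  induction n with
  | zero => rw [zero_smul, zero_smul]; exact hΘ.zero
  | succ n ih => rw [succ_nsmul, succ_nsmul]; exact hΘ.add _ _ _ _ ih h1

theorem IsCor.neg (hΘ : IsCor W W' Ft PL j kk Θ) [Finite (W.Z j)] [Finite (W'.Z j)]
    {y y' : M1 × N} (h1 : Θ y y') (hy : y ∈ W.Z j) : Θ (-y) (-y') := by
  have hy' := hΘ.mem h1 hy
  have h2 : ∀ (A : AddSubgroup (M1 × N)) (a : M1 × N), Finite A → a ∈ A → Nat.card A • a = 0 := by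
    intro A a _ ha
    have h3 := card_nsmul_eq_zero' (x := (⟨a, ha⟩ : A))
    exact congrArg Subtype.val h3
  have hc : 0 < Nat.card (W.Z j) := Nat.card_pos
  have hc' : 0 < Nat.card (W'.Z j) := Nat.card_pos
  have h4 : ∀ a : M1 × N, (Nat.card (W.Z j) * Nat.card (W'.Z j)) • a = 0 →
      (Nat.card (W.Z j) * Nat.card (W'.Z j) - 1) • a = -a := by
    intro a ha
    have h5 : Nat.card (W.Z j) * Nat.card (W'.Z j) - 1 + 1 =
        Nat.card (W.Z j) * Nat.card (W'.Z j) := Nat.sub_add_cancel (Nat.mul_pos hc hc')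
    rw [← h5, succ_nsmul] at ha
    exact eq_neg_of_add_eq_zero_left ha
  rw [← h4 y (by rw [mul_comm, mul_smul, h2 _ y inferInstance hy, smul_zero]),
    ← h4 y' (by rw [mul_smul, h2 _ y' inferInstance hy', smul_zero])]
  exact hΘ.nsmul h1 _

theorem IsCor.sub (hΘ : IsCor W W' Ft PL j kk Θ) [Finite (W.Z j)] [Finite (W'.Z j)]
    {y y' u u' : M1 × N} (h1 : Θ y y') (h2 : Θ u u') (hu : u ∈ W.Z j) : Θ (y - u) (y' - u') := by
  rw [sub_eq_add_neg, sub_eq_add_neg]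
  exact hΘ.add _ _ _ _ h1 (hΘ.neg h2 hu)

theorem IsCor.zsmul (hΘ : IsCor W W' Ft PL j kk Θ) [Finite (W.Z j)] [Finite (W'.Z j)]
    {y y' : M1 × N} (h1 : Θ y y') (hy : y ∈ W.Z j) (n : ℤ) : Θ (n • y) (n • y') := by
  rcases Int.eq_nat_or_neg n with ⟨e, rfl | rfl⟩
  · rw [natCast_zsmul, natCast_zsmul]
    exact hΘ.nsmul h1 e
  · rw [neg_smul, neg_smul, natCast_zsmul, natCast_zsmul]
    exact hΘ.neg (hΘ.nsmul h1 e) ((W.Z j).nsmul_mem hy e)

theorem IsCor.sum (hΘ : IsCor W W' Ft PL j kk Θ) {ι : Type*} (s : Finset ι)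
    (y y' : ι → M1 × N) (h1 : ∀ i ∈ s, Θ (y i) (y' i)) : Θ (∑ i ∈ s, y i) (∑ i ∈ s, y' i) := by
  classical
  induction s using Finset.induction_on with
  | empty => rw [Finset.sum_empty, Finset.sum_empty]; exact hΘ.zero
  | insert a s ha ih =>
    rw [Finset.sum_insert ha, Finset.sum_insert ha]
    exact hΘ.add _ _ _ _ (h1 a (Finset.mem_insert_self a s))
      (ih fun i hi => h1 i (Finset.mem_insert_of_mem hi))

/-- TRANSPORT: towers are moved by `Θ`. -/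
theorem IsCor.exists_tow (hΘ : IsCor W W' Ft PL j kk Θ) (h : W.Ok Ft PL)
    [Finite (W.Z j)] [Finite (W'.Z j)] {r : ℕ} {cc : Fin r → F}
    {jl : Fin r → ℕ} {y : Fin r → M1 × N} (hpos : ∀ l, 1 ≤ jl l) (hle : ∀ l, jl l ≤ j)
    (hmem : ∀ l, y l ∈ W.Z (jl l)) (htop : ∀ l, (2 : ℕ) ^ (jl l - 1) • (y l).1 = W.c (cc l)) :
    ∃ y' : Fin r → M1 × N, (∀ l, Θ (y l) (y' l)) ∧ (∀ l, y' l ∈ W'.Z (jl l)) ∧
      (∀ l, (2 : ℕ) ^ (jl l - 1) • (y' l).1 = W'.c (cc l)) ∧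
      (∀ l, jl l ≤ kk → ∀ d ∈ Ft, W'.P (y' l) d = W.P (y l) d) ∧
      ∀ n : Fin r → ℤ, ∀ w ∈ PL, W'.q j (∑ l, n l • y' l + (0, w)) =
        W.q j (∑ l, n l • y l + (0, w)) := by
  have hyj : ∀ l, y l ∈ W.Z j := fun l => h.Zmono (hle l) (hmem l)
  choose y' hy' using fun l => hΘ.left (y l) (hyj l)
  refine ⟨y', hy', fun l => (hΘ.lev _ _ (hy' l) _ (hle l)).mp (hmem l), fun l =>
    (hΘ.top _ _ (hy' l) _ (hpos l) (hle l) _ (hmem l)).mp (htop l), fun l hl d hd =>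
    hΘ.pair _ _ (hy' l) (h.Zmono hl (hmem l)) d hd, fun n w hw => ?_⟩
  refine hΘ.q _ _ (hΘ.add _ _ _ _ (hΘ.sum _ _ _ fun l _ => hΘ.zsmul (hy' l) (hyj l) _)
    (hΘ.loc w hw)) ?_
  exact (W.Z j).add_mem ((W.Z j).sum_mem fun l _ => (W.Z j).zsmul_mem (hyj l) _) (h.loc_mem hw j)

/-- The sums over the two groups agree. -/
theorem IsCor.sum_eq (hΘ : IsCor W W' Ft PL j kk Θ) (h : W.Ok Ft PL) (h' : W'.Ok Ft PL)
    [Fintype (W.Z j)] [Fintype (W'.Z j)]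
    (f f' : M1 × N → ℝ) (hf : ∀ y y', Θ y y' → y ∈ W.Z j → f y = f' y') :
    ∑ y : W.Z j, f y = ∑ y' : W'.Z j, f' y' := by
  classical
  -- the two kernels
  have hK : ∀ a : M1 × N, Θ a 0 ↔ Θ 0 a := by
    have hZ0 : (0 : M1 × N) ∈ W.Z 0 := (W.Z 0).zero_mem
    have hZ0' : (0 : M1 × N) ∈ W'.Z 0 := (W'.Z 0).zero_mem
    intro a
    constructor
    · intro ha
      have h1 : a ∈ W.Z 0 := (hΘ.lev _ _ ha 0 (Nat.zero_le j)).mpr hZ0'
      have h1j := h.Zmono (Nat.zero_le j) h1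
      obtain ⟨h2, h3⟩ := (h.zero a).mp h1
      have h4 : Θ a a := by
        have := hΘ.loc a.2 h3
        rwa [show ((0 : M1), a.2) = a from Prod.ext h2.symm rfl] at this
      have h5 := hΘ.sub h4 ha h1j
      rwa [sub_self, sub_zero] at h5
    · intro ha
      have h1 : a ∈ W'.Z 0 := (hΘ.lev _ _ ha 0 (Nat.zero_le j)).mp hZ0
      obtain ⟨h2, h3⟩ := (h'.zero a).mp h1
      have h4 : Θ a a := by
        have := hΘ.loc a.2 h3
        rwa [show ((0 : M1), a.2) = a from Prod.ext h2.symm rfl] at this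
      have h5 := hΘ.sub h4 ha (W.Z j).zero_mem
      rwa [sub_self, sub_zero] at h5
  have hcard1 : ∀ a : W.Z j, (Finset.univ.filter fun b : W'.Z j => Θ a b).card =
      (Finset.univ.filter fun b : W'.Z j => Θ 0 b).card := by
    intro a
    obtain ⟨b0, hb0⟩ := hΘ.left a a.2
    have hb0' := hΘ.mem hb0 a.2
    refine Finset.card_bij' (fun b _ => b - ⟨b0, hb0'⟩) (fun b _ => b + ⟨b0, hb0'⟩) ?_ ?_ ?_ ?_
    · intro b hb
      rw [Finset.mem_filter] at hb ⊢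
      refine ⟨Finset.mem_univ _, ?_⟩
      have := hΘ.sub hb.2 hb0 a.2
      rw [sub_self] at this
      exact this
    · intro b hb
      rw [Finset.mem_filter] at hb ⊢
      refine ⟨Finset.mem_univ _, ?_⟩
      have := hΘ.add _ _ _ _ hb.2 hb0
      rw [zero_add] at this
      exact this
    · intro b _
      exact sub_add_cancel _ _
    · intro b _
      exact add_sub_cancel_right _ _
  have hcard2 : ∀ b : W'.Z j, (Finset.univ.filter fun a : W.Z j => Θ a b).card =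
      (Finset.univ.filter fun a : W.Z j => Θ a 0).card := by
    intro b
    obtain ⟨a0, ha0⟩ := hΘ.right b b.2
    have ha0' := hΘ.mem' ha0 b.2
    refine Finset.card_bij' (fun a _ => a - ⟨a0, ha0'⟩) (fun a _ => a + ⟨a0, ha0'⟩) ?_ ?_ ?_ ?_
    · intro a ha
      rw [Finset.mem_filter] at ha ⊢
      refine ⟨Finset.mem_univ _, ?_⟩
      have := hΘ.sub ha.2 ha0 ha0'
      rw [sub_self] at this
      exact this
    · intro a ha
      rw [Finset.mem_filter] at ha ⊢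
      refine ⟨Finset.mem_univ _, ?_⟩
      have := hΘ.add _ _ _ _ ha.2 ha0
      rw [zero_add] at this
      exact this
    · intro a _
      exact sub_add_cancel _ _
    · intro a _
      exact add_sub_cancel_right _ _
  have hcard3 : (Finset.univ.filter fun a : W.Z j => Θ a 0).card =
      (Finset.univ.filter fun b : W'.Z j => Θ 0 b).card := by
    refine Finset.card_bij'
      (fun a ha => ⟨a.1, hΘ.mem ((hK _).mp (Finset.mem_filter.mp ha).2) (W.Z j).zero_mem⟩)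
      (fun b hb => ⟨b.1, hΘ.mem' ((hK _).mpr (Finset.mem_filter.mp hb).2) (W'.Z j).zero_mem⟩)
      ?_ ?_ ?_ ?_
    · intro a ha
      exact Finset.mem_filter.mpr ⟨Finset.mem_univ _, (hK _).mp (Finset.mem_filter.mp ha).2⟩
    · intro b hb
      exact Finset.mem_filter.mpr ⟨Finset.mem_univ _, (hK _).mpr (Finset.mem_filter.mp hb).2⟩
    · intro a _
      rfl
    · intro b _
      rfl
  have hpos : 0 < (Finset.univ.filter fun a : W.Z j => Θ a 0).card :=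
    Finset.card_pos.mpr ⟨0, Finset.mem_filter.mpr ⟨Finset.mem_univ _, hΘ.zero⟩⟩
  have h1 : ∑ a : W.Z j, ∑ b : W'.Z j, (if Θ a b then f a else 0) =
      (Finset.univ.filter fun a : W.Z j => Θ a 0).card * ∑ a : W.Z j, f a := by
    rw [Finset.mul_sum]
    refine Finset.sum_congr rfl fun a _ => ?_
    rw [← Finset.sum_filter, Finset.sum_const, hcard1 a, ← hcard3, nsmul_eq_mul]
  have h2 : ∑ a : W.Z j, ∑ b : W'.Z j, (if Θ a b then f a else 0) =
      (Finset.univ.filter fun a : W.Z j => Θ a 0).card * ∑ b : W'.Z j, f' b := by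
    rw [Finset.sum_comm, Finset.mul_sum]
    refine Finset.sum_congr rfl fun b _ => ?_
    rw [← hcard2 b, ← nsmul_eq_mul, ← Finset.sum_const, ← Finset.sum_filter]
    refine Finset.sum_congr rfl fun a ha => ?_
    exact hf _ _ (Finset.mem_filter.mp ha).2 a.2
  have h3 := h1.symm.trans h2
  exact mul_left_cancel₀ (by exact_mod_cast hpos.ne') h3

/-! ### The sum `NA` -/

/-- The sum of the signs of the pairing with `b` over the elements of level `j` above `a` with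
`q j y = 0`. -/
noncomputable def NA (W : RT F V N M1 M) (j : ℕ) (a b : F) : ℝ :=
  ∑ᶠ y : {y : M1 × N // (y ∈ W.Z j ∧ (2 : ℕ) ^ (j - 1) • y.1 = W.c a) ∧ W.q j y = 0},
    (-1 : ℝ) ^ (W.P y.1 b).val

open Classical in
/-- The sum of the signs of `q (j + 1) y` over the elements `y` of level `j + 1` above `a` with
`q j (2 y) = 0`. -/
noncomputable def NT (W : RT F V N M1 M) (j : ℕ) (a : F) : ℝ :=
  ∑ᶠ y : {y : M1 × N // (y ∈ W.Z (j + 1) ∧ (2 : ℕ) ^ j • y.1 = W.c a) ∧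
      W.q j ((2 : ℕ) • y) = 0}, if W.q (j + 1) y.1 = 0 then (1 : ℝ) else -1

/-- A finite sum over a subtype of a finite group as a sum over the group. -/
private theorem rtsum_sub (A : AddSubgroup (M1 × N)) [Fintype A] (p : M1 × N → Prop)
    [DecidablePred p] (hp : ∀ y, p y → y ∈ A) (f : M1 × N → ℝ) :
    ∑ᶠ y : {y : M1 × N // p y}, f y.1 = ∑ y : A, if p y then f y else 0 := by
  rw [← Finset.sum_filter]
  let e : {y : M1 × N // p y} ≃ {y : A // p y} :=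
    { toFun := fun y => ⟨⟨y.1, hp _ y.2⟩, y.2⟩
      invFun := fun y => ⟨y.1.1, y.2⟩
      left_inv := fun _ => rfl
      right_inv := fun _ => rfl }
  have : Fintype {y : M1 × N // p y} := Fintype.ofEquiv _ e.symm
  rw [finsum_eq_sum_of_fintype, ← Finset.sum_subtype_eq_sum_filter, Finset.subtype_univ]
  exact Fintype.sum_equiv e _ _ fun _ => rfl

private theorem rtsum_sgn (x y : ZMod 2) :
    (-1 : ℝ) ^ (x + y).val = (-1) ^ x.val * (-1) ^ y.val := by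
  have hp : ∀ n : ℕ, (-1 : ℝ) ^ (n % 2) = (-1) ^ n := fun n => (neg_one_pow_eq_pow_mod_two n).symm
  rw [ZMod.val_add, hp, pow_add]

private theorem rtsum_sgn_sq (x : ZMod 2) : (-1 : ℝ) ^ x.val * (-1) ^ x.val = 1 := by
  rw [← mul_pow]; norm_num

/-- THEOREM A: `NA` agrees up to the sign of one element above `a`. -/
theorem IsCor.NA_eq (hΘ : IsCor W W' Ft PL j kk Θ) (h : W.Ok Ft PL) (h' : W'.Ok Ft PL)
    [Finite (W.Z j)] [Finite (W'.Z j)] (hj : 1 ≤ j) (hkk : j ≤ kk + 1) {a b : F} (hb : b ∈ Ft)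
    {y y' : M1 × N} (hyy : Θ y y') (hy : y ∈ W.Z j)
    (ht : (2 : ℕ) ^ (j - 1) • y.1 = W.c a) :
    (-1 : ℝ) ^ (W.P y b).val * W.NA j a b = (-1 : ℝ) ^ (W'.P y' b).val * W'.NA j a b := by
  classical
  have := Fintype.ofFinite (W.Z j)
  have := Fintype.ofFinite (W'.Z j)
  have hy' := hΘ.mem hyy hy
  have ht' := (hΘ.top _ _ hyy j hj le_rfl a hy).mp ht
  unfold NA
  rw [rtsum_sub (W.Z j) (fun y => (y ∈ W.Z j ∧ (2 : ℕ) ^ (j - 1) • y.1 = W.c a) ∧ W.q j y = 0)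
      (fun y hy => hy.1.1) (fun y => (-1 : ℝ) ^ (W.P y b).val),
    rtsum_sub (W'.Z j) (fun y => (y ∈ W'.Z j ∧ (2 : ℕ) ^ (j - 1) • y.1 = W'.c a) ∧
      W'.q j y = 0) (fun y hy => hy.1.1) (fun y => (-1 : ℝ) ^ (W'.P y b).val),
    Finset.mul_sum, Finset.mul_sum]
  refine hΘ.sum_eq h h' (fun m => (-1 : ℝ) ^ (W.P y b).val *
      if (m ∈ W.Z j ∧ (2 : ℕ) ^ (j - 1) • m.1 = W.c a) ∧ W.q j m = 0 then
        (-1 : ℝ) ^ (W.P m b).val else 0)
    (fun m => (-1 : ℝ) ^ (W'.P y' b).val *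
      if (m ∈ W'.Z j ∧ (2 : ℕ) ^ (j - 1) • m.1 = W'.c a) ∧ W'.q j m = 0 then
        (-1 : ℝ) ^ (W'.P m b).val else 0) fun m m' hmm hm => ?_
  have hm' := hΘ.mem hmm hm
  have e1 : ((m ∈ W.Z j ∧ (2 : ℕ) ^ (j - 1) • m.1 = W.c a) ∧ W.q j m = 0) ↔
      ((m' ∈ W'.Z j ∧ (2 : ℕ) ^ (j - 1) • m'.1 = W'.c a) ∧ W'.q j m' = 0) := by
    rw [hΘ.q _ _ hmm hm, hΘ.top _ _ hmm j hj le_rfl a hm]
    exact ⟨fun h1 => ⟨⟨hm', h1.1.2⟩, h1.2⟩, fun h1 => ⟨⟨hm, h1.1.2⟩, h1.2⟩⟩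
  by_cases hc : (m ∈ W.Z j ∧ (2 : ℕ) ^ (j - 1) • m.1 = W.c a) ∧ W.q j m = 0
  · have hc' := e1.mp hc
    simp only [if_pos hc, if_pos hc']
    have hd : m - y ∈ W.Z kk := by
      refine h.Zmono (by omega : j - 1 ≤ kk) (h.low (j - 1) j _ ((W.Z j).sub_mem hm hy) ?_)
      rw [Prod.fst_sub, smul_sub, hc.1.2, ht, sub_self]
    have hd' := hΘ.pair _ _ (hΘ.sub hmm hyy hy) hd b hb
    have e2 : W.P m b = W.P (m - y) b + W.P y b := by
      rw [← h.Padd j _ ((W.Z j).sub_mem hm hy) _ hy b hb, sub_add_cancel]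
    have e3 : W'.P m' b = W'.P (m' - y') b + W'.P y' b := by
      rw [← h'.Padd j _ ((W'.Z j).sub_mem hm' hy') _ hy' b hb, sub_add_cancel]
    rw [e2, e3, hd', rtsum_sgn, rtsum_sgn]
    linear_combination (-1 : ℝ) ^ (W.P (m - y) b).val *
      (rtsum_sgn_sq (W.P y b) - rtsum_sgn_sq (W'.P y' b))
  · have hc' := fun h1 => hc (e1.mpr h1)
    simp only [if_neg hc, if_neg hc', mul_zero]

/-! ### The sum `NT` -/

/-- The sign of an element of `M[2]`. -/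
noncomputable def sg (m : M) : ℝ := open Classical in if m = 0 then 1 else -1

/-- The facts on the height form used in theorem T. -/
structure OkQ (W : RT F V N M1 M) (j : ℕ) : Prop where
  two : ∀ y ∈ W.Z (j + 1), W.q j ((2 : ℕ) • y) = (2 : ℕ) • W.q (j + 1) y
  add : ∀ y ∈ W.Z (j + 1), ∀ θ ∈ W.Z j, W.q (j + 1) (y + θ) =
    W.q (j + 1) y + (W.q j ((2 : ℕ) • y + θ) - W.q j ((2 : ℕ) • y) - W.q j θ) +
      (2 : ℕ) • W.q j θ
  M2 : ∀ m m' : M, (2 : ℕ) • m = 0 → (2 : ℕ) • m' = 0 → m ≠ 0 → m' ≠ 0 → m = m'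

private theorem rtsum_sg_mul (hM : ∀ m m' : M, (2 : ℕ) • m = 0 → (2 : ℕ) • m' = 0 → m ≠ 0 →
    m' ≠ 0 → m = m') {m m' : M} (h1 : (2 : ℕ) • m = 0) (h2 : (2 : ℕ) • m' = 0) :
    sg (m + m') = sg m * sg m' := by
  unfold sg
  by_cases hm : m = 0
  · rw [hm, zero_add, if_pos rfl, one_mul]
  · by_cases hm' : m' = 0
    · rw [hm', add_zero, if_pos rfl, mul_one]
    · have h3 := hM m m' h1 h2 hm hm'
      rw [if_neg hm, if_neg hm', if_pos (by rw [← h3, ← two_nsmul, h1])]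
      norm_num

private theorem rtsum_sg_sq (m : M) : sg m * sg m = 1 := by
  unfold sg
  split_ifs <;> norm_num

/-- THEOREM T: `NT` agrees up to the sign of one element of level `j + 1` above `a`. -/
theorem IsCor.NT_eq (hΘ : IsCor W W' Ft PL j kk Θ) (h : W.Ok Ft PL) (h' : W'.Ok Ft PL)
    (hQ : W.OkQ j) (hQ' : W'.OkQ j)
    [Finite (W.Z j)] [Finite (W'.Z j)] {a : F} {yp yp' : M1 × N}
    (hyy : Θ ((2 : ℕ) • yp) ((2 : ℕ) • yp')) (hy : yp ∈ W.Z (j + 1)) (hy' : yp' ∈ W'.Z (j + 1))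
    (ht : (2 : ℕ) ^ j • yp.1 = W.c a) (ht' : (2 : ℕ) ^ j • yp'.1 = W'.c a)
    (hq0 : W.q j ((2 : ℕ) • yp) = 0) :
    sg (W.q (j + 1) yp) * W.NT j a = sg (W'.q (j + 1) yp') * W'.NT j a := by
  classical
  have := Fintype.ofFinite (W.Z j)
  have := Fintype.ofFinite (W'.Z j)
  have h2y : ∀ (X : RT F V N M1 M) (u : M1 × N), X.Ok Ft PL → u ∈ X.Z (j + 1) →
      (2 : ℕ) • u ∈ X.Z j := by
    intro X u hX hu
    refine hX.low j (j + 1) _ ((X.Z (j + 1)).nsmul_mem hu _) ?_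
    rw [Prod.smul_fst, smul_smul, ← pow_succ, hX.lev _ _ hu]
  -- the sum over the elements above `a` as a sum over `Z j`
  have key : ∀ (X : RT F V N M1 M) (u : M1 × N) (_ : Fintype (X.Z j)), X.Ok Ft PL → X.OkQ j →
      u ∈ X.Z (j + 1) → (2 : ℕ) ^ j • u.1 = X.c a → X.q j ((2 : ℕ) • u) = 0 →
      sg (X.q (j + 1) u) * X.NT j a = ∑ θ : X.Z j,
        if X.q j ((2 : ℕ) • u + (2 : ℕ) • (θ : M1 × N)) = 0 then
          sg ((X.q j ((2 : ℕ) • u + θ) - X.q j ((2 : ℕ) • u) - X.q j θ) +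
            (2 : ℕ) • X.q j (θ : M1 × N)) else 0 := by
    intro X u _ hX hXQ hu htu hqu
    have hsh : X.NT j a = ∑ᶠ y : {y : M1 × N // y ∈ X.Z j ∧
        X.q j ((2 : ℕ) • u + (2 : ℕ) • y) = 0}, sg (X.q (j + 1) (u + y.1)) := by
      unfold NT
      let e : {y : M1 × N // y ∈ X.Z j ∧ X.q j ((2 : ℕ) • u + (2 : ℕ) • y) = 0} ≃
          {y : M1 × N // (y ∈ X.Z (j + 1) ∧ (2 : ℕ) ^ j • y.1 = X.c a) ∧
            X.q j ((2 : ℕ) • y) = 0} :=
        { toFun := fun y => ⟨u + y.1, ⟨(X.Z (j + 1)).add_mem hu (hX.mono j y.2.1), by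
            rw [Prod.fst_add, smul_add, htu, hX.lev j _ y.2.1, add_zero]⟩, by
            rw [smul_add]; exact y.2.2⟩
          invFun := fun y => ⟨y.1 - u, hX.low j (j + 1) _
            ((X.Z (j + 1)).sub_mem y.2.1.1 hu) (by
              rw [Prod.fst_sub, smul_sub, y.2.1.2, htu, sub_self]), by
            rw [← smul_add, add_sub_cancel]; exact y.2.2⟩
          left_inv := fun y => Subtype.ext (by simp)
          right_inv := fun y => Subtype.ext (by simp) }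
      rw [← finsum_comp_equiv e]
      rfl
    rw [hsh, rtsum_sub (X.Z j) (fun y => y ∈ X.Z j ∧ X.q j ((2 : ℕ) • u + (2 : ℕ) • y) = 0)
      (fun y hy => hy.1) (fun y => sg (X.q (j + 1) (u + y))), Finset.mul_sum]
    refine Finset.sum_congr rfl fun θ _ => ?_
    by_cases hc : X.q j ((2 : ℕ) • u + (2 : ℕ) • (θ : M1 × N)) = 0
    · have hc' : (θ : M1 × N) ∈ X.Z j ∧ X.q j ((2 : ℕ) • u + (2 : ℕ) • (θ : M1 × N)) = 0 :=
        ⟨θ.2, hc⟩
      rw [if_pos hc, if_pos hc']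
      have e1 := hXQ.add u hu θ θ.2
      rw [add_assoc] at e1
      have e2 : (2 : ℕ) • X.q (j + 1) u = 0 := by rw [← hXQ.two u hu, hqu]
      have e3 : (2 : ℕ) • X.q (j + 1) (u + θ) = 0 := by
        rw [← hXQ.two _ ((X.Z (j + 1)).add_mem hu (hX.mono j θ.2)), smul_add, hc]
      have e4 : (2 : ℕ) • ((X.q j ((2 : ℕ) • u + θ) - X.q j ((2 : ℕ) • u) - X.q j θ) +
          (2 : ℕ) • X.q j (θ : M1 × N)) = 0 := by
        rw [e1, smul_add, e2, zero_add] at e3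
        exact e3
      rw [e1, rtsum_sg_mul hXQ.M2 e2 e4, ← mul_assoc, rtsum_sg_sq, one_mul]
    · have hc' : ¬ ((θ : M1 × N) ∈ X.Z j ∧ X.q j ((2 : ℕ) • u + (2 : ℕ) • (θ : M1 × N)) = 0) :=
        fun h1 => hc h1.2
      rw [if_neg hc, if_neg hc', mul_zero]
  have hy2 := h2y W yp h hy
  have hq0' : W'.q j ((2 : ℕ) • yp') = 0 := by rw [hΘ.q _ _ hyy hy2, hq0]
  rw [key W yp inferInstance h hQ hy ht hq0, key W' yp' inferInstance h' hQ' hy' ht' hq0']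
  refine hΘ.sum_eq h h' (fun θ => if W.q j ((2 : ℕ) • yp + (2 : ℕ) • θ) = 0 then
      sg ((W.q j ((2 : ℕ) • yp + θ) - W.q j ((2 : ℕ) • yp) - W.q j θ) + (2 : ℕ) • W.q j θ)
      else 0)
    (fun θ => if W'.q j ((2 : ℕ) • yp' + (2 : ℕ) • θ) = 0 then
      sg ((W'.q j ((2 : ℕ) • yp' + θ) - W'.q j ((2 : ℕ) • yp') - W'.q j θ) +
        (2 : ℕ) • W'.q j θ) else 0) fun θ θ' hθ hm => ?_
  have e1 := hΘ.q _ _ (hΘ.add _ _ _ _ hyy (hΘ.nsmul hθ 2))
    ((W.Z j).add_mem hy2 ((W.Z j).nsmul_mem hm 2))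
  have e2 := hΘ.q _ _ (hΘ.add _ _ _ _ hyy hθ) ((W.Z j).add_mem hy2 hm)
  have e3 := hΘ.q _ _ hyy hy2
  have e4 := hΘ.q _ _ hθ hm
  simp only [e1, e2, e3, e4]

end RT

end Pool.Agent.SmH
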