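import Pool.Agent.Lib.SmH.I.ThmA
import Pool.Agent.Lib.SmH.I.GenA
import Pool.Agent.Lib.SmH.I.ClaimT

/-!
# HEIGHTS, block I: Theorem A, final form
-/

set_option autoImplicit false

open Polynomial Finset

namespace Pool.Agent.SmH

open Pool.Agent.Sm (ChebOdd)

open Pool.Agent.SmJ

/-- **Theorem A** over a vector of primes. -/
theorem gridThmA_fin {k : Type} [Field k] [Finite k] {V1 : Type} [AddCommGroup V1]
    [Module (ZMod 2) V1] {G V Pl M : Type} [Group G] [AddCommGroup V] [DistribMulAction G V]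
    [AddCommGroup M] [DistribMulAction G M]
    {S : Sys G V V1 Pl} {H : HData V M Pl} {ch : k[X] → G → ZMod 2} {d : TwData k V1}
    {pl : k[X] → Pl} (hS : S.Ok) (hH : HOk S H) (h : ChOk S ch d pl) {a0 C : ℕ}
    (hC : ChebOdd S.NN (fun P => S.sg (pl P)) (fun P => S.phi (pl P)) (Nat.card k) a0 C)
    (m : ℕ) (hm : 1 ≤ m) : GridThmA S H ch d m :=
  gridThmA_of hS h hC m hm (IC.zeroQ_of hS hH _) (genA hS hH h hm)

end Pool.Agent.SmH
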