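import Pool.Agent.Lib.SmH.I.ThmT
import Pool.Agent.Lib.SmH.I.GenA

/-!
# HEIGHTS, block I: Theorem T, closed with the generation part

`genT_stmt`: the statement `GenT` (from `genT`). `gridThmT`: Theorem T.
-/

set_option autoImplicit false

open Polynomial Finset

namespace Pool.Agent.SmH

open Pool.Agent.Sm (leg Irr Dir repl repl_dir repl_off N0 ChebOdd)

open Pool.Agent.SmJ

variable {k : Type} [Field k] [Finite k] {V1 : Type} [AddCommGroup V1] [Module (ZMod 2) V1]
variable {G V Pl M : Type} [Group G] [AddCommGroup V] [DistribMulAction G V]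
  [AddCommGroup M] [DistribMulAction G M]
variable {S : Sys G V V1 Pl} {H : HData V M Pl} {ch : k[X] → G → ZMod 2} {d : TwData k V1}
  {pl : k[X] → Pl}

/-- The generation part for theorem T. -/
theorem genT_stmt (hS : S.Ok) (hH : HOk S H) (hc : ChOk S ch d pl) {m : ℕ} (hm : 1 ≤ m) :
    GenT S hS H ch d pl m := by
  intro J _ p dir hp hd n cc jl sig y hA hcF hy hex hq0
  obtain ⟨yp, hyp, hy0⟩ := hex
  have hyp' : AbvH S ch d p (m + 1) (cc 0) yp := by
    refine ⟨hyp, fun s => ?_⟩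
    have h1 := (hy 0).2 s
    rw [hA.zero, ← hy0, Prod.smul_fst, Pi.smul_apply, smul_smul, ← pow_succ,
      Nat.sub_add_cancel hm] at h1
    rw [Nat.add_sub_cancel]
    exact h1
  obtain ⟨h1, N0, -, h2, h3⟩ := genT (sig := sig) hS hH hc hp hd hm hA hy hyp' hy0.symm hq0
  exact ⟨h1, N0, h2, h3⟩

/-- **Theorem T.** -/
theorem gridThmT (hS : S.Ok) (hH : HOk S H) (hR : S.RecipM H.j) (h : ChOk S ch d pl)
    (hdeg : ∀ P : k[X], P.Monic → Irreducible P → H.deg (pl P) = P.natDegree) {a0 C : ℕ}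
    (hC : ChebOdd S.NN (fun P => S.sg (pl P)) (fun P => S.phi (pl P)) (Nat.card k) a0 C)
    (m : ℕ) (hm : 1 ≤ m) : GridThmT S H ch d m :=
  gridThmT_of hS hH hR h hdeg hC m hm (genT_stmt hS hH h hm)

end Pool.Agent.SmH
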