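import Pool.Agent.Lib.SmH.I.Claim0
import Pool.Agent.Lib.SmH.G.CTrAdd
import Pool.Agent.Lib.SmH.G.CritR
import Pool.Agent.Lib.SmH.Q.Loc
import Pool.Agent.Lib.SmJ.P.AltW

/-!
# HEIGHTS, block I5: the values of level `k` at the last vertex (Theorem T)

`CTr_kap`: the rigid pairing vanishes on the torsion classes `kappa v`; `good_valT`: if all the towers
are supported in the direction `ia` and every code of the relaxed frame is, up to a torsion class,
supported in the direction `ia`, then the values of the pairing are transported to the last vertex for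
all levels `≤ k`.
-/

set_option autoImplicit false

open Finset

namespace Pool.Agent.SmH.IC

open Pool.Agent.SmJ Pool.Agent.SmJ.IT Pool.Agent.SmA

variable {G V V1 Pl M : Type*} [Group G] [AddCommGroup V] [DistribMulAction G V]
  [AddCommGroup V1] [Module (ZMod 2) V1] [AddCommGroup M] [DistribMulAction G M]
variable {S : Sys G V V1 Pl} {H : HData V M Pl}

/-- The rigid pairing vanishes on the torsion classes. -/
theorem ctr_kap (hS : S.Ok) (hw : Weil S H.e H.j) (hR : S.RecipM H.j) {chi : G → ZMod 2}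
    (hchi : S.HomG chi) {i : ℕ} {y : (G → V) × (Pl → V)} (hy : IsPr S chi i y) {z : V} {v : V1}
    (hz : (2 : ℕ) • z = S.iota v) {b : G → V1} (hb : ∀ s, dl chi z s = S.iota (b s)) :
    CTr S chi y b = 0 := by
  obtain ⟨z', hz'⟩ := exists_pow_half hS z i
  have h2 : ∀ s, (2 : ℕ) • dl chi z s = 0 := fun s => by rw [hb, Sys.two_iota]
  have hsel : S.IsSel chi (i + 1) (dl chi z') := by
    refine Sys.isSel_dl hS hchi fun s => ?_
    rw [pow_succ', mul_smul, ← dl_nsmul, hz', h2]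
  have htop : Sys.top S i (dl chi z') = b := funext fun s => by
    unfold Sys.top
    rw [← dl_nsmul, hz', hb, Sys.un_iota hS]
  have h1 : S.IsSel1 chi b := by
    rw [← htop]
    exact Sys.isSel1_top hS hsel
  rw [CTr_eq_CT hS hchi hy h1, ← htop]
  exact hw.ct_top hS hR hchi hy.sel hsel

variable {ι : Type*} [Fintype ι] {X : ι → Type*} {r k kk : ℕ} {Γ : Grid S X}
  {τ : TwH G V V1 Pl M ι r} {x0 x : ∀ i, X i}

/-- The code of the torsion class of `v`. -/
theorem exists_kapC (hS : S.Ok) (hΓ : Γ.Ok) (v : V1) : ∃ κ : G → V1, ∃ z : V,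
    (2 : ℕ) • z = S.iota v ∧ ((κ, fun _ => v) : GCode G V1 ι) ∈ FR Γ ∧
    ∀ (x : ∀ i, X i) (s : G), dl (Γ.chi x) z s = S.iota (Γ.ch ((κ, fun _ => v) : GCode G V1 ι) x s) := by
  obtain ⟨κ, hκ, hκ1, ⟨z, hz, hdl⟩, hκ2⟩ := exists_kap0 hS v
  have hch : ∀ (x : ∀ i, X i) (s : G), Γ.ch ((fun s => κ s + Γ.chi0 s • v, fun _ => v) :
      GCode G V1 ι) x s = κ s + Γ.chi x s • v := by
    intro x s
    unfold Grid.ch Grid.chi
    rw [add_smul, sum_smul, add_assoc]
  have hdl' : ∀ (x : ∀ i, X i) (s : G), dl (Γ.chi x) z s = S.iota (Γ.ch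
      ((fun s => κ s + Γ.chi0 s • v, fun _ => v) : GCode G V1 ι) x s) := fun x s => by
    rw [hch, hdl]
  refine ⟨fun s => κ s + Γ.chi0 s • v, z, hz, ⟨⟨homG_add hS hκ (homG_smul hΓ.chi0_hom v),
    fun w hw => ?_⟩, fun x hx => ⟨?_, fun w hw => ?_⟩⟩, hdl'⟩
  · change κ (S.sg w) + Γ.chi0 (S.sg w) • v = 0
    rw [hκ1 w (hΓ.bad_good w hw), hΓ.chi0_unr w hw, zero_smul, add_zero]
  · exact Grid.ch_hom hS hΓ ⟨homG_add hS hκ (homG_smul hΓ.chi0_hom v), fun w hw => by
      change κ (S.sg w) + Γ.chi0 (S.sg w) • v = 0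
      rw [hκ1 w (hΓ.bad_good w hw), hΓ.chi0_unr w hw, zero_smul, add_zero]⟩ x
  · refine ⟨z, fun s _ => ?_, hdl' x _, hdl' x _⟩
    rw [hdl', Sys.two_iota]

variable [DecidableEq ι]

/-- Values of the rigid pairing at the last vertex, all levels `≤ k` (Z3). -/
theorem good_valT (hS : S.Ok) (hw : Weil S H.e H.j) (hR : S.RecipM H.j) (hΓ : Γ.Ok)
    (hτ : τ.Ok Γ k) (hk : 1 ≤ k) (hI : Fintype.card ι = k + 2)
    (h : τ.GoodH H Γ k kk x0 x) (l : Fin (r + 1)) (hl : τ.jl l < kk) {ia : ι}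
    (hsig : τ.sig l ⊆ {ia}) {d : GCode G V1 ι} (hd : d ∈ FR Γ) {v : V1}
    (hdv : ∀ i, i ≠ ia → d.2 i = v) :
    CTr S (Γ.chi x) (lst τ H Γ k kk x0 x l univ) (Γ.ch d x) = τ.fl l d := by
  obtain ⟨κ, z, hz, hκ, hdl⟩ := exists_kapC (X := X) (Γ := Γ) hS hΓ v
  set e : GCode G V1 ι := d + (κ, fun _ => v) with he
  have hC := good_cubeOk hS hΓ (by omega) h
  have hlev := good_last hS hΓ hτ hk hI h l
  have hsum : ∀ (y : ∀ i, X i) (s : G), Γ.ch e y s =
      Γ.ch d y s + Γ.ch ((κ, fun _ => v) : GCode G V1 ι) y s := by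
    intro y s
    unfold Grid.ch
    rw [he]
    simp only [Prod.fst_add, Prod.snd_add, Pi.add_apply, smul_add, sum_add_distrib]
    abel
  have hde : ∀ (y : ∀ i, X i), Γ.ch d y =
      Γ.ch e y + Γ.ch ((κ, fun _ => v) : GCode G V1 ι) y := fun y => funext fun s => by
    rw [Pi.add_apply, hsum, add_assoc, v1_add_self, add_zero]
  have heR : ∀ y ∈ Γ.Xs, IsRel S (Γ.chi y) (Γ.ch e y) := fun y hy => by
    have h1 : Γ.ch e y = Γ.ch d y + Γ.ch ((κ, fun _ => v) : GCode G V1 ι) y :=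
      funext fun s => hsum y s
    rw [h1]
    exact (hd.2 y hy).add hS (hκ.2 y hy)
  have key : ∀ T : Finset ι, CTr S (Γ.chi (mix T x0 x)) (lst τ H Γ k kk x0 x l T)
      (Γ.ch d (mix T x0 x)) = CTr S (chiC (Γ.chi x0) (Γ.del x0 x) T)
      (lst τ H Γ k kk x0 x l T) (bC (Γ.ch e x0) e.2 (Γ.del x0 x) T) := by
    intro T
    have hm := good_mem_Xs (by omega) h T
    have hchi := Grid.chi_hom hS hΓ (mix T x0 x)
    have hy : IsPr S (Γ.chi (mix T x0 x)) (τ.jl l) (lst τ H Γ k kk x0 x l T) := by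
      rw [Grid.chi_mix]
      exact good_pr hS hΓ hτ hk hI h l T
    rw [hde, CTr_add_right hS hchi hy (heR _ hm) (hκ.2 _ hm),
      ctr_kap hS hw hR hchi hy hz (hdl _), add_zero, Grid.chi_mix, Grid.ch_mix]
  have hval : ∀ T : Finset ι, T ≠ univ → CTr S (Γ.chi (mix T x0 x)) (lst τ H Γ k kk x0 x l T)
      (Γ.ch d (mix T x0 x)) = τ.fl l d := fun T hT => by
    rw [lst_of_ne h l hT]
    exact (good_fam h l hT).val hl d hd
  have hz3 := z3_CTr hS hC (good_star hS hΓ hτ hk hI h l) (good_pr hS hΓ hτ hk hI h l)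
    (fun v _ T T' => congrFun (lst_snd l T T') v)
    (by have := hτ.jl_le l; omega) ia (fun U hU P hUP a ha s => by
      refine mn_pow (W := univ) (σ := τ.sig l) (j := τ.jl l)
        (fun P _ s => (hlev.1 P).lev s) (fun U P _ _ h2 h3 h4 h5 => hlev.2 U P h2 h3 h4 h5)
        (subset_univ U) (subset_univ P) hUP ?_ ha s
      refine Disjoint.mono_right hsig ?_
      rwa [disjoint_singleton_right])
    (Γ.ch e x0) e.2 (fun i hi => by
      rw [he]
      change d.2 i + v = 0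
      rw [hdv i hi, v1_add_self]) (fun T => by
      rw [← Grid.chi_mix, ← Grid.ch_mix]
      exact heR _ (good_mem_Xs (by omega) h T))
  rw [← sum_congr rfl fun T _ => key T, ← add_sum_erase _ _ (mem_univ (univ : Finset ι)),
    sum_congr rfl (fun T hT => hval T (ne_of_mem_erase hT)), sum_const,
    card_erase_of_mem (mem_univ _), card_univ, Fintype.card_finset, hI, Grid.mix_univ] at hz3
  have hodd : (2 ^ (k + 2) - 1) • τ.fl l d = τ.fl l d := by
    have h1 : 2 ^ (k + 2) - 1 = 2 * (2 ^ (k + 1) - 1) + 1 := by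
      have h2 : 2 ^ (k + 2) = 2 * 2 ^ (k + 1) := by rw [← pow_succ']
      have h3 : 1 ≤ 2 ^ (k + 1) := Nat.one_le_two_pow
      omega
    rw [h1, add_smul, one_smul, mul_smul, two_smul, CharTwo.add_self_eq_zero, zero_add]
  rw [hodd] at hz3
  exact CharTwo.add_eq_zero.1 hz3

end Pool.Agent.SmH.IC
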